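import Mathlib

open Filter Topology
open scoped InnerProductSpace

namespace Pool.Agent.Helper97.Leaky

section Attain

variable {H : Type*} [NormedAddCommGroup H] [InnerProductSpace ℝ H]
variable {F : Type*} [NormedAddCommGroup F] [NormedSpace ℝ F] [FiniteDimensional ℝ F]

/-- Cauchy-Schwarz type bound for a nonnegative symmetric operator. -/
lemma norm_sq_le_of_nonneg (S : H →L[ℝ] H) (hsym : ∀ u v, ⟪S u, v⟫_ℝ = ⟪u, S v⟫_ℝ)
    (hpos : ∀ u, 0 ≤ ⟪S u, u⟫_ℝ) (u : H) :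
    ‖S u‖ ^ 2 ≤ (‖S‖ + 1) * ⟪S u, u⟫_ℝ := by
  have hS : (0:ℝ) < ‖S‖ + 1 := by positivity
  set t : ℝ := 1 / (‖S‖ + 1) with ht
  have ht0 : 0 < t := by positivity
  have h1 : 0 ≤ ⟪S (u - t • S u), u - t • S u⟫_ℝ := hpos _
  have h2 : ⟪S (u - t • S u), u - t • S u⟫_ℝ
      = ⟪S u, u⟫_ℝ - 2 * t * ‖S u‖ ^ 2 + t ^ 2 * ⟪S (S u), S u⟫_ℝ := by
    rw [map_sub, map_smul, inner_sub_left, inner_sub_right, inner_sub_right, inner_smul_left,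
      inner_smul_left, inner_smul_right, inner_smul_right, hsym (S u) u,
      real_inner_self_eq_norm_sq]
    simp only [conj_trivial]
    ring
  have h3 : ⟪S (S u), S u⟫_ℝ ≤ ‖S‖ * ‖S u‖ ^ 2 := by
    calc ⟪S (S u), S u⟫_ℝ ≤ ‖S (S u)‖ * ‖S u‖ := real_inner_le_norm _ _
      _ ≤ (‖S‖ * ‖S u‖) * ‖S u‖ := by gcongr; exact S.le_opNorm _
      _ = ‖S‖ * ‖S u‖ ^ 2 := by ring
  have h4 : t * ‖S‖ ≤ 1 := by
    rw [ht, one_div, inv_mul_le_iff₀ hS]; linarith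
  have h5 : t ^ 2 * ⟪S (S u), S u⟫_ℝ ≤ t * ‖S u‖ ^ 2 := by
    calc t ^ 2 * ⟪S (S u), S u⟫_ℝ ≤ t ^ 2 * (‖S‖ * ‖S u‖ ^ 2) := by gcongr
      _ = t * (t * ‖S‖) * ‖S u‖ ^ 2 := by ring
      _ ≤ t * 1 * ‖S u‖ ^ 2 := by gcongr
      _ = _ := by ring
  have h6 : t * ‖S u‖ ^ 2 ≤ ⟪S u, u⟫_ℝ := by nlinarith
  have h7 : (‖S‖ + 1) * t = 1 := by rw [ht]; field_simp
  calc ‖S u‖ ^ 2 = (‖S‖ + 1) * t * ‖S u‖ ^ 2 := by rw [h7, one_mul]
    _ = (‖S‖ + 1) * (t * ‖S u‖ ^ 2) := by ring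
    _ ≤ _ := by gcongr

/-- A symmetric operator which is bounded by `a` modulo a finite rank map attains the top of its
spectrum as soon as this is larger than `a`. -/
theorem attain [CompleteSpace H] (T : H →L[ℝ] H) (hsym : ∀ u v, ⟪T u, v⟫_ℝ = ⟪u, T v⟫_ℝ)
    (L : H →L[ℝ] F) (a lam : ℝ) (hal : a < lam)
    (hL : ∀ u, ⟪T u, u⟫_ℝ ≤ a * ‖u‖ ^ 2 + ‖L u‖ ^ 2)
    (hub : ∀ u, ⟪T u, u⟫_ℝ ≤ lam * ‖u‖ ^ 2)
    (happ : ∀ ε > 0, ∃ u, ‖u‖ = 1 ∧ lam - ε ≤ ⟪T u, u⟫_ℝ) :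
    ∃ u, ‖u‖ = 1 ∧ T u = lam • u := by
  classical
  -- the nonnegative operator `S = lam - T`
  set S : H →L[ℝ] H := lam • ContinuousLinearMap.id ℝ H - T with hS
  have hSapp : ∀ u, S u = lam • u - T u := fun u => by simp [hS]
  have hSsym : ∀ u v, ⟪S u, v⟫_ℝ = ⟪u, S v⟫_ℝ := by
    intro u v
    rw [hSapp, hSapp, inner_sub_left, inner_sub_right, hsym, inner_smul_left, inner_smul_right]
    simp
  have hSu : ∀ u, ⟪S u, u⟫_ℝ = lam * ‖u‖ ^ 2 - ⟪T u, u⟫_ℝ := by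
    intro u
    rw [hSapp, inner_sub_left, inner_smul_left, real_inner_self_eq_norm_sq]
    simp
  have hSpos : ∀ u, 0 ≤ ⟪S u, u⟫_ℝ := fun u => by rw [hSu]; linarith [hub u]
  -- maximizing sequence
  have hseq : ∀ n : ℕ, ∃ u, ‖u‖ = 1 ∧ lam - 1 / ((n:ℝ) + 1) ≤ ⟪T u, u⟫_ℝ := fun n =>
    happ _ (by positivity)
  choose u hu1 hu2 using hseq
  have hSu_lim : Tendsto (fun n => ‖S (u n)‖) atTop (𝓝 0) := by
    have h1 : ∀ n, ‖S (u n)‖ ^ 2 ≤ (‖S‖ + 1) * (1 / ((n:ℝ) + 1)) := by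
      intro n
      refine (norm_sq_le_of_nonneg S hSsym hSpos (u n)).trans ?_
      gcongr
      rw [hSu, hu1]
      linarith [hu2 n]
    have h2 : Tendsto (fun n : ℕ => (‖S‖ + 1) * (1 / ((n:ℝ) + 1))) atTop (𝓝 0) := by
      simpa using tendsto_one_div_add_atTop_nhds_zero_nat.const_mul (‖S‖ + 1)
    have h3 : Tendsto (fun n => ‖S (u n)‖ ^ 2) atTop (𝓝 0) :=
      squeeze_zero (fun n => by positivity) h1 h2
    have h4 := h3.sqrt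
    simpa [Real.sqrt_sq (norm_nonneg _)] using h4
  -- subsequence along which `L u` converges
  have hbdd : ∀ n, L (u n) ∈ Metric.closedBall (0:F) ‖L‖ := by
    intro n
    rw [mem_closedBall_zero_iff]
    calc ‖L (u n)‖ ≤ ‖L‖ * ‖u n‖ := L.le_opNorm _
      _ = ‖L‖ := by rw [hu1, mul_one]
  have : ProperSpace F := FiniteDimensional.proper ℝ F
  obtain ⟨w, -, σ, hσ, hw⟩ := (isCompact_closedBall (0:F) ‖L‖).tendsto_subseq hbdd
  -- `u ∘ σ` is Cauchy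
  have hpos : 0 < lam - a := by linarith
  have key : ∀ x : H, (lam - a) * ‖x‖ ^ 2 ≤ ‖S x‖ * ‖x‖ + ‖L x‖ ^ 2 := by
    intro x
    have h1 : ⟪S x, x⟫_ℝ ≤ ‖S x‖ * ‖x‖ := real_inner_le_norm _ _
    have h2 := hSu x
    have h3 := hL x
    nlinarith
  have hcau : CauchySeq (fun n => u (σ n)) := by
    rw [Metric.cauchySeq_iff]
    intro ε hε
    have hLc : CauchySeq (fun n => L (u (σ n))) := hw.cauchySeq
    have hη : 0 < (lam - a) * ε ^ 2 / 8 := by positivity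
    set η := (lam - a) * ε ^ 2 / 8 with hηdef
    have hSlim : Tendsto (fun n => ‖S (u (σ n))‖) atTop (𝓝 0) := hSu_lim.comp hσ.tendsto_atTop
    obtain ⟨N1, hN1⟩ := (Metric.cauchySeq_iff.1 hLc) (Real.sqrt η) (Real.sqrt_pos.2 hη)
    obtain ⟨N2, hN2⟩ := (Metric.tendsto_atTop.1 hSlim) η hη
    refine ⟨max N1 N2, fun m hm n hn => ?_⟩
    have hm1 := hN1 m (le_trans (le_max_left _ _) hm) n (le_trans (le_max_left _ _) hn)
    have hm2 := hN2 m (le_trans (le_max_right _ _) hm)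
    have hn2 := hN2 n (le_trans (le_max_right _ _) hn)
    rw [Real.dist_eq, sub_zero, abs_of_nonneg (norm_nonneg _)] at hm2 hn2
    rw [dist_eq_norm] at hm1 ⊢
    set x := u (σ m) - u (σ n) with hx
    have hxn : ‖x‖ ≤ 2 := by
      calc ‖x‖ ≤ ‖u (σ m)‖ + ‖u (σ n)‖ := norm_sub_le _ _
        _ = 2 := by rw [hu1, hu1]; norm_num
    have hSx : ‖S x‖ ≤ 2 * η := by
      rw [hx, map_sub]
      calc ‖S (u (σ m)) - S (u (σ n))‖ ≤ ‖S (u (σ m))‖ + ‖S (u (σ n))‖ := norm_sub_le _ _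
        _ ≤ 2 * η := by linarith
    have hLx : ‖L x‖ ^ 2 < η := by
      rw [hx, map_sub]
      calc ‖L (u (σ m)) - L (u (σ n))‖ ^ 2 < Real.sqrt η ^ 2 := by gcongr
        _ = η := Real.sq_sqrt hη.le
    have hk := key x
    have h5 : (lam - a) * ‖x‖ ^ 2 < (lam - a) * ε ^ 2 := by
      have h6 : ‖S x‖ * ‖x‖ ≤ 2 * η * 2 := by gcongr
      have h7 : 5 * η < 8 * η := by linarith
      have h8 : 8 * η = (lam - a) * ε ^ 2 := by rw [hηdef]; ring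
      nlinarith
    have h6 : ‖x‖ ^ 2 < ε ^ 2 := lt_of_mul_lt_mul_left h5 hpos.le
    exact lt_of_pow_lt_pow_left₀ 2 hε.le h6
  obtain ⟨v, hv⟩ := cauchySeq_tendsto_of_complete hcau
  refine ⟨v, ?_, ?_⟩
  · have h1 : Tendsto (fun n => ‖u (σ n)‖) atTop (𝓝 ‖v‖) := hv.norm
    simp only [hu1] at h1
    exact (tendsto_nhds_unique h1 tendsto_const_nhds)
  · have h1 : Tendsto (fun n => ‖S (u (σ n))‖) atTop (𝓝 ‖S v‖) := ((S.continuous.tendsto v).comp hv).norm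
    have h2 : Tendsto (fun n => ‖S (u (σ n))‖) atTop (𝓝 0) := hSu_lim.comp hσ.tendsto_atTop
    have h3 : ‖S v‖ = 0 := tendsto_nhds_unique h1 h2
    have h4 : S v = 0 := norm_eq_zero.1 h3
    rw [hSapp] at h4
    exact (sub_eq_zero.1 h4).symm

end Attain


section Second

variable {H G : Type*} [NormedAddCommGroup H] [InnerProductSpace ℝ H]
variable [NormedAddCommGroup G] [InnerProductSpace ℝ G]
variable {F : Type*} [NormedAddCommGroup F] [NormedSpace ℝ F] [FiniteDimensional ℝ F]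

/-- orthogonal projection onto the complement of the line through `g` -/
noncomputable def P (g : H) : H →L[ℝ] H :=
  ContinuousLinearMap.id ℝ H - (innerSL ℝ g).smulRight ((‖g‖ ^ 2)⁻¹ • g)

lemma P_apply (g u : H) : P g u = u - (⟪g, u⟫_ℝ * (‖g‖ ^ 2)⁻¹) • g := by
  simp [P, smul_smul]

lemma inner_P (g u : H) : ⟪g, P g u⟫_ℝ = 0 := by
  rw [P_apply, inner_sub_right, inner_smul_right, real_inner_self_eq_norm_sq]
  by_cases hg : g = 0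
  · simp [hg]
  · have : ‖g‖ ^ 2 ≠ 0 := by positivity
    field_simp
    ring

lemma P_of_inner_eq_zero {g u : H} (h : ⟪g, u⟫_ℝ = 0) : P g u = u := by
  rw [P_apply, h]; simp

lemma P_P (g u : H) : P g (P g u) = P g u := P_of_inner_eq_zero (inner_P g u)

lemma P_symm (g u v : H) : ⟪P g u, v⟫_ℝ = ⟪u, P g v⟫_ℝ := by
  rw [P_apply, P_apply, inner_sub_left, inner_sub_right, inner_smul_left, inner_smul_right,
    real_inner_comm g u]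
  simp only [conj_trivial]
  ring

lemma norm_P_le (g u : H) : ‖P g u‖ ≤ ‖u‖ := by
  have h1 : ‖P g u‖ ^ 2 ≤ ‖P g u‖ * ‖u‖ := by
    rw [← real_inner_self_eq_norm_sq, P_symm, P_P, real_inner_comm]
    exact real_inner_le_norm _ _
  by_cases h : ‖P g u‖ = 0
  · rw [h]; positivity
  · have h2 : 0 < ‖P g u‖ := lt_of_le_of_ne (norm_nonneg _) (Ne.symm h)
    rw [pow_two] at h1
    exact le_of_mul_le_mul_left h1 h2

/-- the square of the norm of an operator as the top of a quadratic form -/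
lemma norm_sq_le_iff (τ : H →L[ℝ] G) {c : ℝ} (hc : 0 ≤ c) (h : ∀ u, ‖τ u‖ ^ 2 ≤ c * ‖u‖ ^ 2) :
    ‖τ‖ ^ 2 ≤ c := by
  have h1 : ‖τ‖ ≤ Real.sqrt c := by
    refine τ.opNorm_le_bound (Real.sqrt_nonneg _) fun u => ?_
    have := h u
    have h2 : ‖τ u‖ ≤ Real.sqrt (c * ‖u‖ ^ 2) := Real.le_sqrt_of_sq_le this
    rwa [Real.sqrt_mul hc, Real.sqrt_sq (norm_nonneg _)] at h2
  calc ‖τ‖ ^ 2 ≤ Real.sqrt c ^ 2 := by gcongr
    _ = c := Real.sq_sqrt hc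

lemma le_norm_sq (τ : H →L[ℝ] G) (u : H) : ‖τ u‖ ^ 2 ≤ ‖τ‖ ^ 2 * ‖u‖ ^ 2 := by
  rw [← mul_pow]
  gcongr
  exact τ.le_opNorm u

lemma le_norm_sq_of {τ : H →L[ℝ] G} {c : ℝ} {u : H} (hu : u ≠ 0)
    (h : c * ‖u‖ ^ 2 ≤ ‖τ u‖ ^ 2) : c ≤ ‖τ‖ ^ 2 := by
  have h1 := h.trans (le_norm_sq τ u)
  have h2 : 0 < ‖u‖ ^ 2 := by positivity
  exact le_of_mul_le_mul_right h1 h2

lemma norm_sq_le_add {τ τ' : H →L[ℝ] G} {ε : ℝ} (hε : 0 ≤ ε)
    (h : ∀ u, ‖τ u‖ ^ 2 ≤ ‖τ' u‖ ^ 2 + ε * ‖u‖ ^ 2) : ‖τ‖ ^ 2 ≤ ‖τ'‖ ^ 2 + ε := by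
  apply norm_sq_le_iff _ (by positivity)
  intro u
  have := le_norm_sq τ' u
  have := h u
  nlinarith

/-- second singular value (squared) -/
noncomputable def s2 (τ : H →L[ℝ] G) : ℝ := ⨅ g : H, ‖τ ∘L P g‖ ^ 2

lemma bddBelow_s2 (τ : H →L[ℝ] G) : BddBelow (Set.range fun g : H => ‖τ ∘L P g‖ ^ 2) :=
  ⟨0, by rintro _ ⟨g, rfl⟩; positivity⟩

lemma s2_le (τ : H →L[ℝ] G) (g : H) : s2 τ ≤ ‖τ ∘L P g‖ ^ 2 := ciInf_le (bddBelow_s2 τ) g

lemma le_s2 {τ : H →L[ℝ] G} {c : ℝ} (h : ∀ g : H, c ≤ ‖τ ∘L P g‖ ^ 2) : c ≤ s2 τ := le_ciInf h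

lemma s2_nonneg (τ : H →L[ℝ] G) : 0 ≤ s2 τ := le_s2 fun g => by positivity

lemma s2_le_norm (τ : H →L[ℝ] G) : s2 τ ≤ ‖τ‖ ^ 2 := by
  refine (s2_le τ 0).trans ?_
  apply norm_sq_le_iff _ (by positivity)
  intro u
  have h1 := le_norm_sq τ (P 0 u)
  have h2 := norm_P_le 0 u
  calc ‖(τ ∘L P 0) u‖ ^ 2 ≤ ‖τ‖ ^ 2 * ‖P 0 u‖ ^ 2 := h1
    _ ≤ ‖τ‖ ^ 2 * ‖u‖ ^ 2 := by gcongr

lemma s2_le_add {τ τ' : H →L[ℝ] G} {ε : ℝ} (hε : 0 ≤ ε)
    (h : ∀ u, ‖τ u‖ ^ 2 ≤ ‖τ' u‖ ^ 2 + ε * ‖u‖ ^ 2) : s2 τ ≤ s2 τ' + ε := by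
  rw [← sub_le_iff_le_add]
  apply le_s2
  intro g
  rw [sub_le_iff_le_add]
  refine (s2_le τ g).trans ?_
  apply norm_sq_le_add hε
  intro u
  have h1 := h (P g u)
  have h2 := norm_P_le g u
  calc ‖(τ ∘L P g) u‖ ^ 2 ≤ ‖τ' (P g u)‖ ^ 2 + ε * ‖P g u‖ ^ 2 := h1
    _ ≤ ‖(τ' ∘L P g) u‖ ^ 2 + ε * ‖u‖ ^ 2 := by
      gcongr
      exact le_rfl

/-- upper bound for the second singular value from a bound modulo one functional -/
lemma s2_le_of_functional [CompleteSpace H] {τ : H →L[ℝ] G} {c C : ℝ} (hc : 0 ≤ c)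
    (l : H →L[ℝ] ℝ) (h : ∀ u, ‖τ u‖ ^ 2 ≤ c * ‖u‖ ^ 2 + C * (l u) ^ 2) : s2 τ ≤ c := by
  obtain ⟨g, hg⟩ : ∃ g : H, ∀ u, l u = ⟪g, u⟫_ℝ := by
    refine ⟨(InnerProductSpace.toDual ℝ H).symm l, fun u => ?_⟩
    rw [InnerProductSpace.toDual_symm_apply]
  refine (s2_le τ g).trans ?_
  apply norm_sq_le_iff _ hc
  intro u
  have h1 := h (P g u)
  rw [hg, inner_P] at h1
  have h2 := norm_P_le g u
  calc ‖(τ ∘L P g) u‖ ^ 2 ≤ c * ‖P g u‖ ^ 2 + C * 0 ^ 2 := h1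
    _ = c * ‖P g u‖ ^ 2 := by ring
    _ ≤ c * ‖u‖ ^ 2 := by gcongr

/-- in a two dimensional space there is a vector orthogonal to a given one -/
lemma exists_orth (g f₁ f₂ : H) (hf : LinearIndependent ℝ ![f₁, f₂]) :
    ∃ s t : ℝ, s • f₁ + t • f₂ ≠ 0 ∧ ⟪g, s • f₁ + t • f₂⟫_ℝ = 0 := by
  rw [LinearIndependent.pair_iff] at hf
  by_cases h1 : ⟪g, f₁⟫_ℝ = 0
  · refine ⟨1, 0, fun h => ?_, ?_⟩
    · have := (hf 1 0 h).1
      norm_num at this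
    · rw [one_smul, zero_smul, add_zero, h1]
  · refine ⟨⟪g, f₂⟫_ℝ, -⟪g, f₁⟫_ℝ, fun h => ?_, ?_⟩
    · have := (hf _ _ h).2
      apply h1
      linarith
    · rw [inner_add_right, inner_smul_right, inner_smul_right]; ring

/-- lower bound for the second singular value from a two dimensional subspace -/
lemma le_s2_of_pair {τ : H →L[ℝ] G} {c : ℝ} (f₁ f₂ : H) (hf : LinearIndependent ℝ ![f₁, f₂])
    (h : ∀ s t : ℝ, c * ‖s • f₁ + t • f₂‖ ^ 2 ≤ ‖τ (s • f₁ + t • f₂)‖ ^ 2) : c ≤ s2 τ := by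
  apply le_s2
  intro g
  obtain ⟨s, t, hne, horth⟩ := exists_orth g f₁ f₂ hf
  apply le_norm_sq_of hne
  rw [ContinuousLinearMap.comp_apply, P_of_inner_eq_zero horth]
  exact h s t

/-- the top singular value is attained -/
theorem top_attain [CompleteSpace H] [CompleteSpace G] (τ : H →L[ℝ] G) (L : H →L[ℝ] F) (a : ℝ)
    (ha : 0 ≤ a) (h : a < ‖τ‖ ^ 2) (hL : ∀ u, ‖τ u‖ ^ 2 ≤ a * ‖u‖ ^ 2 + ‖L u‖ ^ 2) :
    ∃ u, ‖u‖ = 1 ∧ ∀ v, ⟪τ u, τ v⟫_ℝ = ‖τ‖ ^ 2 * ⟪u, v⟫_ℝ := by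
  set T : H →L[ℝ] H := (ContinuousLinearMap.adjoint τ) ∘L τ with hT
  have hTi : ∀ u v, ⟪T u, v⟫_ℝ = ⟪τ u, τ v⟫_ℝ := by
    intro u v
    rw [hT, ContinuousLinearMap.comp_apply, ContinuousLinearMap.adjoint_inner_left]
  have hTi' : ∀ u v, ⟪u, T v⟫_ℝ = ⟪τ u, τ v⟫_ℝ := by
    intro u v
    rw [hT, ContinuousLinearMap.comp_apply, ContinuousLinearMap.adjoint_inner_right]
  have hTu : ∀ u, ⟪T u, u⟫_ℝ = ‖τ u‖ ^ 2 := fun u => by rw [hTi, real_inner_self_eq_norm_sq]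
  obtain ⟨u, hu, huT⟩ := attain T (fun u v => by rw [hTi, hTi']) L a (‖τ‖ ^ 2) h
    (fun u => by rw [hTu]; exact hL u) (fun u => by rw [hTu]; exact le_norm_sq τ u) (by
      intro ε hε
      by_contra hcon
      push Not at hcon
      have hbound : ∀ u : H, ‖u‖ = 1 → ‖τ u‖ ^ 2 < ‖τ‖ ^ 2 - ε := fun u hu => by
        rw [← hTu]; exact hcon u hu
      by_cases hne : ∃ x : H, x ≠ 0
      · obtain ⟨x, hx⟩ := hne
        have hc0 : 0 ≤ ‖τ‖ ^ 2 - ε := by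
          have h1 := hbound ((‖x‖)⁻¹ • x) (norm_smul_inv_norm hx)
          have : (0:ℝ) ≤ ‖τ ((‖x‖)⁻¹ • x)‖ ^ 2 := by positivity
          linarith
        have h2 : ‖τ‖ ^ 2 ≤ ‖τ‖ ^ 2 - ε := by
          apply norm_sq_le_iff _ hc0
          intro u
          by_cases hu : u = 0
          · simp [hu]
          · have h1 := hbound ((‖u‖)⁻¹ • u) (norm_smul_inv_norm hu)
            rw [map_smul, norm_smul, norm_inv, norm_norm, mul_pow] at h1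
            have hun : 0 < ‖u‖ ^ 2 := by positivity
            have h3 : ‖τ u‖ ^ 2 = ‖u‖ ^ 2 * (‖u‖⁻¹ ^ 2 * ‖τ u‖ ^ 2) := by
              have : ‖u‖ ≠ 0 := norm_ne_zero_iff.2 hu
              field_simp
            rw [h3]
            nlinarith
        linarith
      · push Not at hne
        have h2 : ‖τ‖ ^ 2 ≤ 0 := by
          apply norm_sq_le_iff _ le_rfl
          intro u
          rw [hne u]; simp
        linarith)
  refine ⟨u, hu, fun v => ?_⟩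
  rw [← hTi, huT, inner_smul_left]
  simp

/-- the second singular value is attained -/
theorem second_attain [CompleteSpace H] [CompleteSpace G] (τ : H →L[ℝ] G) (L : H →L[ℝ] F) (a : ℝ)
    (ha : 0 ≤ a) (h : a < s2 τ) (hL : ∀ u, ‖τ u‖ ^ 2 ≤ a * ‖u‖ ^ 2 + ‖L u‖ ^ 2) :
    ∃ u, ‖u‖ = 1 ∧ ∀ v, ⟪τ u, τ v⟫_ℝ = s2 τ * ⟪u, v⟫_ℝ := by
  obtain ⟨f, hf1, hf2⟩ := top_attain τ L a ha (h.trans_le (s2_le_norm τ)) hL
  set τ' : H →L[ℝ] G := τ ∘L P f with hτ'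
  have hs : s2 τ ≤ ‖τ'‖ ^ 2 := s2_le τ f
  obtain ⟨g, hg1, hg2⟩ := top_attain τ' (L ∘L P f) a ha (h.trans_le hs) (by
    intro u
    have h1 := hL (P f u)
    have h2 := norm_P_le f u
    calc ‖τ' u‖ ^ 2 ≤ a * ‖P f u‖ ^ 2 + ‖L (P f u)‖ ^ 2 := h1
      _ ≤ a * ‖u‖ ^ 2 + ‖(L ∘L P f) u‖ ^ 2 := by
        gcongr
        exact le_rfl)
  set μ := ‖τ'‖ ^ 2 with hμ
  have hμpos : 0 < μ := ha.trans_lt (h.trans_le hs)
  -- `g` is orthogonal to `f`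
  have horth : ⟪f, g⟫_ℝ = 0 := by
    have h1 := hg2 f
    have h2 : P f f = 0 := by
      rw [P_apply, real_inner_self_eq_norm_sq, hf1]; simp
    have h3 : τ' f = 0 := by rw [hτ', ContinuousLinearMap.comp_apply, h2, map_zero]
    rw [h3, inner_zero_right] at h1
    rw [real_inner_comm]
    rcases mul_eq_zero.1 h1.symm with h4 | h4
    · exact absurd h4 hμpos.ne'
    · exact h4
  have hPg : P f g = g := P_of_inner_eq_zero horth
  have hτg : τ' g = τ g := by rw [hτ', ContinuousLinearMap.comp_apply, hPg]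
  have hall : ∀ v, ⟪τ g, τ v⟫_ℝ = μ * ⟪g, v⟫_ℝ := by
    intro v
    have h1 := hg2 v
    rw [hτg, hτ', ContinuousLinearMap.comp_apply] at h1
    have h2 : v = P f v + ⟪f, v⟫_ℝ • f := by
      rw [P_apply, hf1]; simp
    have h3 : ⟪τ g, τ f⟫_ℝ = 0 := by
      rw [real_inner_comm, hf2 g, horth, mul_zero]
    calc ⟪τ g, τ v⟫_ℝ = ⟪τ g, τ (P f v + ⟪f, v⟫_ℝ • f)⟫_ℝ := by rw [← h2]
      _ = ⟪τ g, τ (P f v)⟫_ℝ + ⟪f, v⟫_ℝ * ⟪τ g, τ f⟫_ℝ := by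
        rw [map_add, map_smul, inner_add_right, inner_smul_right]
      _ = _ := by rw [h1, h3, mul_zero, add_zero]
  -- `s2 τ = μ`
  have hτfsq : ‖τ f‖ ^ 2 = ‖τ‖ ^ 2 := by
    rw [← real_inner_self_eq_norm_sq, hf2 f, real_inner_self_eq_norm_sq, hf1]; ring
  have hτgsq : ‖τ g‖ ^ 2 = μ := by
    rw [← real_inner_self_eq_norm_sq, hall g, real_inner_self_eq_norm_sq, hg1]; ring
  have hμle : μ ≤ ‖τ‖ ^ 2 := by
    have h1 := le_norm_sq τ g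
    rw [hτgsq, hg1] at h1
    linarith
  have hge : μ ≤ s2 τ := by
    apply le_s2_of_pair f g
    · rw [LinearIndependent.pair_iff]
      intro s t hst
      have h1 : ⟪f, s • f + t • g⟫_ℝ = 0 := by rw [hst, inner_zero_right]
      have h2 : ⟪g, s • f + t • g⟫_ℝ = 0 := by rw [hst, inner_zero_right]
      rw [inner_add_right, inner_smul_right, inner_smul_right, real_inner_self_eq_norm_sq, hf1,
        horth] at h1
      rw [inner_add_right, inner_smul_right, inner_smul_right, real_inner_self_eq_norm_sq, hg1,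
        real_inner_comm, horth] at h2
      constructor <;> linarith
    · intro s t
      have h1 : ‖s • f + t • g‖ ^ 2 = s ^ 2 + t ^ 2 := by
        rw [norm_add_sq_real, norm_smul, norm_smul, hf1, hg1, inner_smul_left, inner_smul_right,
          horth]
        simp
      have h2 : ‖τ (s • f + t • g)‖ ^ 2 = s ^ 2 * ‖τ‖ ^ 2 + t ^ 2 * μ := by
        rw [map_add, map_smul, map_smul, norm_add_sq_real, norm_smul, norm_smul, mul_pow, mul_pow,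
          hτfsq, hτgsq, inner_smul_left, inner_smul_right, hf2 g, horth]
        simp
      rw [h1, h2]
      nlinarith [sq_nonneg s]
  have heq : s2 τ = μ := le_antisymm hs hge
  exact ⟨g, hg1, fun v => by rw [heq]; exact hall v⟩

end Second

section Crossing

variable {Ho He Go Ge : Type*} [NormedAddCommGroup Ho] [InnerProductSpace ℝ Ho] [CompleteSpace Ho]
  [NormedAddCommGroup He] [InnerProductSpace ℝ He] [CompleteSpace He]
  [NormedAddCommGroup Go] [InnerProductSpace ℝ Go] [CompleteSpace Go]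
  [NormedAddCommGroup Ge] [InnerProductSpace ℝ Ge] [CompleteSpace Ge]

/-- closeness of two families of forms -/
def FormCont {H G : Type*} [NormedAddCommGroup H] [InnerProductSpace ℝ H]
    [NormedAddCommGroup G] [InnerProductSpace ℝ G] (τ : ℝ → H →L[ℝ] G) (s : Set ℝ) : Prop :=
  ∀ h ∈ s, ∀ ε > 0, ∃ δ > 0, ∀ h' ∈ s, |h' - h| < δ →
    ∀ u, |‖τ h' u‖ ^ 2 - ‖τ h u‖ ^ 2| ≤ ε * ‖u‖ ^ 2

/-- bound modulo finite rank -/
def EssBound {H G : Type*} [NormedAddCommGroup H] [InnerProductSpace ℝ H]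
    [NormedAddCommGroup G] [InnerProductSpace ℝ G] (τ : H →L[ℝ] G) (a : ℝ) : Prop :=
  ∃ (n : ℕ) (L : H →L[ℝ] EuclideanSpace ℝ (Fin n × Fin n)),
    ∀ u, ‖τ u‖ ^ 2 ≤ a * ‖u‖ ^ 2 + ‖L u‖ ^ 2

omit [CompleteSpace Ho] [CompleteSpace Go] in
lemma continuousOn_norm_sq {τ : ℝ → Ho →L[ℝ] Go} {s : Set ℝ} (h : FormCont τ s) :
    ContinuousOn (fun x => ‖τ x‖ ^ 2) s := by
  rw [Metric.continuousOn_iff]
  intro b hb ε hε
  obtain ⟨δ, hδ, H⟩ := h b hb (ε / 2) (by positivity)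
  refine ⟨δ, hδ, fun x hx hxb => ?_⟩
  rw [Real.dist_eq] at hxb ⊢
  have h1 : ‖τ x‖ ^ 2 ≤ ‖τ b‖ ^ 2 + ε / 2 := norm_sq_le_add (by positivity) fun u => by
    have := abs_le.1 (H x hx hxb u)
    linarith [this.2]
  have h2 : ‖τ b‖ ^ 2 ≤ ‖τ x‖ ^ 2 + ε / 2 := norm_sq_le_add (by positivity) fun u => by
    have := abs_le.1 (H x hx hxb u)
    linarith [this.1]
  rw [abs_lt]
  constructor <;> linarith

omit [CompleteSpace Ho] [CompleteSpace Go] in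
lemma continuousOn_s2 {τ : ℝ → Ho →L[ℝ] Go} {s : Set ℝ} (h : FormCont τ s) :
    ContinuousOn (fun x => s2 (τ x)) s := by
  rw [Metric.continuousOn_iff]
  intro b hb ε hε
  obtain ⟨δ, hδ, H⟩ := h b hb (ε / 2) (by positivity)
  refine ⟨δ, hδ, fun x hx hxb => ?_⟩
  rw [Real.dist_eq] at hxb ⊢
  have h1 : s2 (τ x) ≤ s2 (τ b) + ε / 2 := s2_le_add (by positivity) fun u => by
    have := abs_le.1 (H x hx hxb u)
    linarith [this.2]
  have h2 : s2 (τ b) ≤ s2 (τ x) + ε / 2 := s2_le_add (by positivity) fun u => by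
    have := abs_le.1 (H x hx hxb u)
    linarith [this.1]
  rw [abs_lt]
  constructor <;> linarith

/-- abstract crossing theorem -/
theorem crossing {h0 h1 a : ℝ} (h01 : h0 ≤ h1) (ha : 0 ≤ a) (τo : ℝ → Ho →L[ℝ] Go)
    (τe : ℝ → He →L[ℝ] Ge) (co : FormCont τo (Set.Icc h0 h1)) (ce : FormCont τe (Set.Icc h0 h1))
    (eo : ∀ h ∈ Set.Icc h0 h1, EssBound (τo h) a) (ee : ∀ h ∈ Set.Icc h0 h1, EssBound (τe h) a)
    (low : ∀ h ∈ Set.Icc h0 h1, a < ‖τo h‖ ^ 2)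
    (wide : s2 (τe h0) ≤ ‖τo h0‖ ^ 2) (tall : ‖τo h1‖ ^ 2 ≤ s2 (τe h1)) :
    ∃ h ∈ Set.Icc h0 h1, ∃ lam > a,
      (∃ u, ‖u‖ = 1 ∧ ∀ v, ⟪τo h u, τo h v⟫_ℝ = lam * ⟪u, v⟫_ℝ) ∧
      (∃ u, ‖u‖ = 1 ∧ ∀ v, ⟪τe h u, τe h v⟫_ℝ = lam * ⟪u, v⟫_ℝ) := by
  have hc : ContinuousOn (fun x => s2 (τe x) - ‖τo x‖ ^ 2) (Set.Icc h0 h1) :=
    (continuousOn_s2 ce).sub (continuousOn_norm_sq co)
  have hiv := intermediate_value_Icc h01 hc
  obtain ⟨h, hh, heq⟩ := hiv (show (0:ℝ) ∈ Set.Icc _ _ from ⟨by simpa using wide, by simpa using tall⟩)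
  have heq' : s2 (τe h) = ‖τo h‖ ^ 2 := sub_eq_zero.1 heq
  obtain ⟨n, L, hL⟩ := eo h hh
  obtain ⟨n', L', hL'⟩ := ee h hh
  refine ⟨h, hh, ‖τo h‖ ^ 2, low h hh, top_attain (τo h) L a ha (low h hh) hL, ?_⟩
  rw [← heq']
  exact second_attain (τe h) L' a ha (by rw [heq']; exact low h hh) hL'

end Crossing

end Pool.Agent.Helper97.Leaky
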