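import Pool.Agent.Helper97.Leaky.Final

open MeasureTheory Filter Topology Set
open scoped InnerProductSpace ComplexConjugate

namespace Pool.Agent.Helper97.Leaky

variable {σ : ℝ}

/-- convergence in `Lp` gives `L2Lim` of complexified functions -/
lemma L2Lim_of_tendsto {X : Type} [MeasureSpace X] {F : ℕ → Lp ℝ 2 (volume : Measure X)}
    {G : Lp ℝ 2 (volume : Measure X)} {f : ℕ → X → ℝ}
    (hf : ∀ n, (F n : X → ℝ) =ᵐ[volume] f n) (h : Tendsto F atTop (𝓝 G)) :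
    L2Lim (fun n x => ((f n x : ℝ) : ℂ)) (fun x => ((G x : ℝ) : ℂ)) := by
  refine ⟨(Lp.memLp G).ofReal, ?_⟩
  rw [Lp.tendsto_Lp_iff_tendsto_eLpNorm'] at h
  refine h.congr fun n => ?_
  apply eLpNorm_congr_norm_ae
  filter_upwards [hf n] with x hx
  simp only [Pi.sub_apply]
  rw [hx, ← Complex.ofReal_sub, Complex.norm_real]

lemma d1_ofReal {φ : ℝ × ℝ → ℝ} (hφ : ContDiff ℝ 1 φ) (p : ℝ × ℝ) :
    d1 (fun p => ((φ p : ℝ) : ℂ)) p = ((dX φ p : ℝ) : ℂ) := by
  have h1 : HasFDerivAt φ (fderiv ℝ φ p) p := (hφ.differentiable (by norm_num) p).hasFDerivAt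
  have h2 : HasFDerivAt (fun p => ((φ p : ℝ) : ℂ)) (Complex.ofRealCLM ∘L fderiv ℝ φ p) p :=
    Complex.ofRealCLM.hasFDerivAt.comp p h1
  unfold d1 dX
  rw [h2.fderiv]
  rfl

lemma d2_ofReal {φ : ℝ × ℝ → ℝ} (hφ : ContDiff ℝ 1 φ) (p : ℝ × ℝ) :
    d2 (fun p => ((φ p : ℝ) : ℂ)) p = ((dY φ p : ℝ) : ℂ) := by
  have h1 : HasFDerivAt φ (fderiv ℝ φ p) p := (hφ.differentiable (by norm_num) p).hasFDerivAt
  have h2 : HasFDerivAt (fun p => ((φ p : ℝ) : ℂ)) (Complex.ofRealCLM ∘L fderiv ℝ φ p) p :=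
    Complex.ofRealCLM.hasFDerivAt.comp p h1
  unfold d2 dY
  rw [h2.fderiv]
  rfl

lemma isTest_ofReal {φ : ℝ × ℝ → ℝ} (h : Tst φ) : IsTest (fun p => ((φ p : ℝ) : ℂ)) :=
  ⟨Complex.ofRealCLM.contDiff.comp h.1, h.2.comp_left (g := fun x : ℝ => (x : ℂ)) (by simp)⟩

/-- real part of a test function -/
lemma tst_re {φ : ℝ × ℝ → ℂ} (h : IsTest φ) : Tst (fun p => (φ p).re) :=
  ⟨Complex.reCLM.contDiff.comp h.1, h.2.comp_left (g := fun z : ℂ => z.re) (by simp)⟩

lemma tst_im {φ : ℝ × ℝ → ℂ} (h : IsTest φ) : Tst (fun p => (φ p).im) :=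
  ⟨Complex.imCLM.contDiff.comp h.1, h.2.comp_left (g := fun z : ℂ => z.im) (by simp)⟩

lemma dX_re {φ : ℝ × ℝ → ℂ} (h : IsTest φ) (p : ℝ × ℝ) :
    dX (fun p => (φ p).re) p = (d1 φ p).re := by
  have h1 : HasFDerivAt φ (fderiv ℝ φ p) p := (h.1.differentiable (by norm_num) p).hasFDerivAt
  have h2 : HasFDerivAt (fun p => (φ p).re) (Complex.reCLM ∘L fderiv ℝ φ p) p :=
    Complex.reCLM.hasFDerivAt.comp p h1
  unfold d1 dX
  rw [h2.fderiv]
  rfl

lemma dX_im {φ : ℝ × ℝ → ℂ} (h : IsTest φ) (p : ℝ × ℝ) :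
    dX (fun p => (φ p).im) p = (d1 φ p).im := by
  have h1 : HasFDerivAt φ (fderiv ℝ φ p) p := (h.1.differentiable (by norm_num) p).hasFDerivAt
  have h2 : HasFDerivAt (fun p => (φ p).im) (Complex.imCLM ∘L fderiv ℝ φ p) p :=
    Complex.imCLM.hasFDerivAt.comp p h1
  unfold d1 dX
  rw [h2.fderiv]
  rfl

lemma dY_re {φ : ℝ × ℝ → ℂ} (h : IsTest φ) (p : ℝ × ℝ) :
    dY (fun p => (φ p).re) p = (d2 φ p).re := by
  have h1 : HasFDerivAt φ (fderiv ℝ φ p) p := (h.1.differentiable (by norm_num) p).hasFDerivAt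
  have h2 : HasFDerivAt (fun p => (φ p).re) (Complex.reCLM ∘L fderiv ℝ φ p) p :=
    Complex.reCLM.hasFDerivAt.comp p h1
  unfold d2 dY
  rw [h2.fderiv]
  rfl

lemma dY_im {φ : ℝ × ℝ → ℂ} (h : IsTest φ) (p : ℝ × ℝ) :
    dY (fun p => (φ p).im) p = (d2 φ p).im := by
  have h1 : HasFDerivAt φ (fderiv ℝ φ p) p := (h.1.differentiable (by norm_num) p).hasFDerivAt
  have h2 : HasFDerivAt (fun p => (φ p).im) (Complex.imCLM ∘L fderiv ℝ φ p) p :=
    Complex.imCLM.hasFDerivAt.comp p h1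
  unfold d2 dY
  rw [h2.fderiv]
  rfl

lemma conj_mul_real (z : ℂ) (r : ℝ) :
    conj z * (r : ℂ) = ((r * z.re : ℝ) : ℂ) - Complex.I * ((r * z.im : ℝ) : ℂ) := by
  apply Complex.ext <;> simp <;> ring

/-- integral of the conjugate of a complex function times a real function -/
lemma integral_conj_mul {X : Type*} [MeasurableSpace X] {μ : Measure X} {g : X → ℂ} {U : X → ℝ}
    (h1 : Integrable (fun x => U x * (g x).re) μ) (h2 : Integrable (fun x => U x * (g x).im) μ) :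
    Integrable (fun x => conj (g x) * ((U x : ℝ) : ℂ)) μ ∧
    ∫ x, conj (g x) * ((U x : ℝ) : ℂ) ∂μ = ((∫ x, U x * (g x).re ∂μ : ℝ) : ℂ)
      - Complex.I * ((∫ x, U x * (g x).im ∂μ : ℝ) : ℂ) := by
  have e : (fun x => conj (g x) * ((U x : ℝ) : ℂ))
      = fun x => ((U x * (g x).re : ℝ) : ℂ) - Complex.I * ((U x * (g x).im : ℝ) : ℂ) :=
    funext fun x => conj_mul_real _ _
  have i1 : Integrable (fun x => ((U x * (g x).re : ℝ) : ℂ)) μ := h1.ofReal
  have i2 : Integrable (fun x => Complex.I * ((U x * (g x).im : ℝ) : ℂ)) μ :=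
    h2.ofReal.const_mul _
  constructor
  · rw [e]; exact i1.sub i2
  · rw [e, integral_sub i1 i2, integral_const_mul, integral_complex_ofReal,
      integral_complex_ofReal]

/-- **eigenfunctions of the operator** -/
theorem eigen_complex (hσ : σ ^ 2 = 1) {k : ℕ} {η : ℝ} (hη : 0 ≤ η) (hη4 : η ≤ 4) {lam : ℝ}
    (hlam : 0 < lam) (u : Hs σ) (hu : ∀ v, ⟪Tr σ k η u, Tr σ k η v⟫_ℝ = lam * ⟪u, v⟫_ℝ) :
    IsEigen (1 / lam) (gam k η) (-1) (fun p => (((u : Amb) 0 p : ℝ) : ℂ)) := by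
  refine ⟨fun p => (((u : Amb) 1 p : ℝ) : ℂ), fun p => (((u : Amb) 2 p : ℝ) : ℂ),
    fun s => ((Tr σ k η u s : ℝ) : ℂ), ?_, ?_⟩
  · obtain ⟨φ, hφ⟩ := exists_seq u
    have hcomp : ∀ i, Tendsto (fun n => J σ (φ n) i) atTop (𝓝 ((u : Amb) i)) := by
      intro i
      have hc : Continuous fun u : Hs σ => (u : Amb) i :=
        (PiLp.continuous_apply 2 _ i).comp continuous_subtype_val
      exact (hc.tendsto u).comp hφ
    have htr : Tendsto (fun n => tr σ k η (φ n)) atTop (𝓝 (Tr σ k η u)) := by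
      have := ((Tr σ k η).continuous.tendsto u).comp hφ
      refine this.congr fun n => ?_
      simp only [Function.comp_apply]
      exact Tr_e hη hη4 _
    refine ⟨fun n p => (((φ n : Wsp σ) : ℝ × ℝ → ℝ) p : ℂ), fun n => isTest_ofReal (tstOf (φ n)),
      ?_, ?_, ?_, ?_⟩
    · exact L2Lim_of_tendsto (f := fun n => ((φ n : Wsp σ) : ℝ × ℝ → ℝ))
        (fun n => (tstOf (φ n)).memLp.coeFn_toLp) (hcomp 0)
    · have e : (fun n => d1 (fun p => (((φ n : Wsp σ) : ℝ × ℝ → ℝ) p : ℂ)))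
          = fun n p => ((dX ((φ n : Wsp σ) : ℝ × ℝ → ℝ) p : ℝ) : ℂ) := by
        ext n p
        exact d1_ofReal (tstOf (φ n)).1 p
      rw [e]
      exact L2Lim_of_tendsto (f := fun n => dX ((φ n : Wsp σ) : ℝ × ℝ → ℝ))
        (fun n => (tstOf (φ n)).memLpX.coeFn_toLp) (hcomp 1)
    · have e : (fun n => d2 (fun p => (((φ n : Wsp σ) : ℝ × ℝ → ℝ) p : ℂ)))
          = fun n p => ((dY ((φ n : Wsp σ) : ℝ × ℝ → ℝ) p : ℝ) : ℂ) := by
        ext n p
        exact d2_ofReal (tstOf (φ n)).1 p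
      rw [e]
      exact L2Lim_of_tendsto (f := fun n => dY ((φ n : Wsp σ) : ℝ × ℝ → ℝ))
        (fun n => (tstOf (φ n)).memLpY.coeFn_toLp) (hcomp 2)
    · exact L2Lim_of_tendsto (f := fun n s => ((φ n : Wsp σ) : ℝ × ℝ → ℝ) (gam k η s))
        (fun n => (gam_memLp (tstOf (φ n)) k η).coeFn_toLp) htr
  · intro φ hφ
    have tr1 := tst_re hφ
    have ti1 := tst_im hφ
    have er := eigen_real hσ hη hη4 u hu tr1
    have ei := eigen_real hσ hη hη4 u hu ti1
    simp only [dX_re hφ, dY_re hφ] at er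
    simp only [dX_im hφ, dY_im hφ] at ei
    -- integrability
    have mXr : MemLp (fun p => (d1 φ p).re) 2 (volume : Measure (ℝ × ℝ)) := by
      have := tr1.memLpX
      rwa [show dX (fun p => (φ p).re) = fun p => (d1 φ p).re from funext (dX_re hφ)] at this
    have mXi : MemLp (fun p => (d1 φ p).im) 2 (volume : Measure (ℝ × ℝ)) := by
      have := ti1.memLpX
      rwa [show dX (fun p => (φ p).im) = fun p => (d1 φ p).im from funext (dX_im hφ)] at this
    have mYr : MemLp (fun p => (d2 φ p).re) 2 (volume : Measure (ℝ × ℝ)) := by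
      have := tr1.memLpY
      rwa [show dY (fun p => (φ p).re) = fun p => (d2 φ p).re from funext (dY_re hφ)] at this
    have mYi : MemLp (fun p => (d2 φ p).im) 2 (volume : Measure (ℝ × ℝ)) := by
      have := ti1.memLpY
      rwa [show dY (fun p => (φ p).im) = fun p => (d2 φ p).im from funext (dY_im hφ)] at this
    obtain ⟨iX, jX⟩ := integral_conj_mul (g := d1 φ) (U := fun p => (u : Amb) 1 p)
      (integrable_mul_L2 _ mXr) (integrable_mul_L2 _ mXi)
    obtain ⟨iY, jY⟩ := integral_conj_mul (g := d2 φ) (U := fun p => (u : Amb) 2 p)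
      (integrable_mul_L2 _ mYr) (integrable_mul_L2 _ mYi)
    obtain ⟨i0, j0⟩ := integral_conj_mul (g := φ) (U := fun p => (u : Amb) 0 p)
      (integrable_mul_L2 _ tr1.memLp) (integrable_mul_L2 _ ti1.memLp)
    obtain ⟨iT, jT⟩ := integral_conj_mul (g := fun s => φ (gam k η s))
      (U := fun s => Tr σ k η u s)
      (integrable_mul_L2 _ (gam_memLp tr1 k η)) (integrable_mul_L2 _ (gam_memLp ti1 k η))
    rw [integral_add iX iY, jX, jY, j0, jT, er, ei]
    have hl : (lam : ℂ) ≠ 0 := by exact_mod_cast hlam.ne'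
    push_cast
    field_simp
    ring

end Pool.Agent.Helper97.Leaky
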