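import Pool.Agent.Helper97.Leaky.Forms

open MeasureTheory Filter Topology Set intervalIntegral

namespace Pool.Agent.Helper97.Leaky

/-- square of the positive part -/
noncomputable def psq (z : ℝ) : ℝ := (max 0 z) ^ 2

lemma psq_eq (z : ℝ) : psq z = ∫ t in (0:ℝ)..z, 2 * max 0 t := by
  unfold psq
  rcases le_total 0 z with h | h
  · rw [max_eq_right h]
    have : ∫ t in (0:ℝ)..z, 2 * max 0 t = ∫ t in (0:ℝ)..z, 2 * t := by
      apply integral_congr
      intro t ht
      rw [uIcc_of_le h] at ht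
      simp only
      rw [max_eq_right ht.1]
    rw [this, intervalIntegral.integral_const_mul, integral_id]
    ring
  · rw [max_eq_left h]
    have : ∫ t in (0:ℝ)..z, 2 * max 0 t = ∫ t in (0:ℝ)..z, (0:ℝ) := by
      apply integral_congr
      intro t ht
      rw [uIcc_of_ge h] at ht
      simp only
      rw [max_eq_left ht.2, mul_zero]
    rw [this]
    simp

lemma hasDerivAt_psq (z : ℝ) : HasDerivAt psq (2 * max 0 z) z := by
  have : psq = fun z => ∫ t in (0:ℝ)..z, 2 * max 0 t := funext psq_eq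
  rw [this]
  have hc : Continuous fun t : ℝ => 2 * max 0 t := by fun_prop
  exact integral_hasDerivAt_right (hc.intervalIntegrable _ _)
    hc.stronglyMeasurable.stronglyMeasurableAtFilter hc.continuousAt

/-- one dimensional test function data -/
structure C1c (R : ℝ) (g g' : ℝ → ℝ) : Prop where
  pos : 0 < R
  deriv : ∀ x, HasDerivAt g (g' x) x
  cont : Continuous g'
  zero : ∀ x, R ≤ |x| → g x = 0
  zero' : ∀ x, R ≤ |x| → g' x = 0

namespace C1c

variable {R S : ℝ} {g g' f f' : ℝ → ℝ}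

lemma contg (h : C1c R g g') : Continuous g := cont_of_deriv h.deriv

lemma mono (h : C1c R g g') (hRS : R ≤ S) : C1c S g g' :=
  ⟨h.pos.trans_le hRS, h.deriv, h.cont, fun x hx => h.zero x (hRS.trans hx),
    fun x hx => h.zero' x (hRS.trans hx)⟩

/-- the product test function -/
lemma deriv_prod (hg : C1c R g g') (hf : C1c S f f') (p : ℝ × ℝ) :
    HasFDerivAt (fun p : ℝ × ℝ => g p.1 * f p.2)
      (g p.1 • (f' p.2 • ContinuousLinearMap.snd ℝ ℝ ℝ)
        + f p.2 • (g' p.1 • ContinuousLinearMap.fst ℝ ℝ ℝ)) p := by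
  have h1 : HasFDerivAt (fun p : ℝ × ℝ => g p.1) (g' p.1 • ContinuousLinearMap.fst ℝ ℝ ℝ) p :=
    (hg.deriv p.1).comp_hasFDerivAt p hasFDerivAt_fst
  have h2 : HasFDerivAt (fun p : ℝ × ℝ => f p.2) (f' p.2 • ContinuousLinearMap.snd ℝ ℝ ℝ) p :=
    (hf.deriv p.2).comp_hasFDerivAt p hasFDerivAt_snd
  exact h1.mul h2

lemma contDiff (hg : C1c R g g') : ContDiff ℝ 1 g := by
  rw [contDiff_one_iff_deriv]
  refine ⟨fun x => (hg.deriv x).differentiableAt, ?_⟩
  have : _root_.deriv g = g' := funext fun x => (hg.deriv x).deriv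
  rw [this]
  exact hg.cont

lemma bx (hg : C1c R g g') (hf : C1c S f f') {T : ℝ} (hR : R ≤ T) (hS : S ≤ T) :
    Bx T (fun p : ℝ × ℝ => g p.1 * f p.2) := by
  have hg1 := hg.contDiff
  have hf1 := hf.contDiff
  have hz : ∀ p : ℝ × ℝ, T ≤ |p.1| ∨ T ≤ |p.2| → (g p.1 = 0 ∧ g' p.1 = 0) ∨ (f p.2 = 0 ∧ f' p.2 = 0) := by
    intro p hp
    rcases hp with h | h
    · exact Or.inl ⟨hg.zero _ (hR.trans h), hg.zero' _ (hR.trans h)⟩
    · exact Or.inr ⟨hf.zero _ (hS.trans h), hf.zero' _ (hS.trans h)⟩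
  refine ⟨by fun_prop, hg.pos.trans_le hR, fun p hp => ?_, fun p hp => ?_, fun p hp => ?_⟩
  · rcases hz p hp with h | h <;> simp [h.1]
  · unfold dX
    rw [(deriv_prod hg hf p).fderiv]
    rcases hz p hp with h | h <;> simp [h.1, h.2]
  · unfold dY
    rw [(deriv_prod hg hf p).fderiv]
    rcases hz p hp with h | h <;> simp [h.1, h.2]

lemma tst (hg : C1c R g g') (hf : C1c S f f') : Tst (fun p : ℝ × ℝ => g p.1 * f p.2) := by
  have hb := hg.bx hf (le_max_left R S) (le_max_right R S)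
  refine ⟨hb.smooth, ?_⟩
  apply HasCompactSupport.intro (K := Icc (-(max R S)) (max R S) ×ˢ Icc (-(max R S)) (max R S))
    (isCompact_Icc.prod isCompact_Icc)
  intro p hp
  apply hb.zero
  by_contra hcon
  push Not at hcon
  apply hp
  have h1 := abs_lt.1 hcon.1
  have h2 := abs_lt.1 hcon.2
  exact ⟨⟨h1.1.le, h1.2.le⟩, ⟨h2.1.le, h2.2.le⟩⟩

lemma dX_eq (hg : C1c R g g') (hf : C1c S f f') (p : ℝ × ℝ) :
    dX (fun p : ℝ × ℝ => g p.1 * f p.2) p = g' p.1 * f p.2 := by
  unfold dX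
  rw [(deriv_prod hg hf p).fderiv]
  simp [mul_comm]

lemma dY_eq (hg : C1c R g g') (hf : C1c S f f') (p : ℝ × ℝ) :
    dY (fun p : ℝ × ℝ => g p.1 * f p.2) p = g p.1 * f' p.2 := by
  unfold dY
  rw [(deriv_prod hg hf p).fderiv]
  simp

/-- integrals of products over boxes -/
lemma I2_prod (a b : ℝ → ℝ) (x0 x1 y0 y1 : ℝ) :
    I2 (fun p => a p.1 * b p.2) x0 x1 y0 y1 = (∫ x in x0..x1, a x) * ∫ y in y0..y1, b y := by
  unfold I2
  simp only [intervalIntegral.integral_const_mul]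
  rw [intervalIntegral.integral_mul_const]

/-- energy of a product -/
lemma N_prod (hg : C1c R g g') (hf : C1c S f f') {T : ℝ} (hR : R ≤ T) (hS : S ≤ T) :
    N (fun p : ℝ × ℝ => g p.1 * f p.2)
      = ((∫ x in (-T)..T, g x ^ 2) + ∫ x in (-T)..T, g' x ^ 2) * (∫ y in (-T)..T, f y ^ 2)
        + (∫ x in (-T)..T, g x ^ 2) * ∫ y in (-T)..T, f' y ^ 2 := by
  have hb := hg.bx hf hR hS
  have cg := hg.contg
  have cf := hf.contg
  have cg' := hg.cont
  have cf' := hf.cont
  rw [hb.N_eq]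
  have e : (fun p : ℝ × ℝ => (g p.1 * f p.2) ^ 2 + dX (fun p : ℝ × ℝ => g p.1 * f p.2) p ^ 2
      + dY (fun p : ℝ × ℝ => g p.1 * f p.2) p ^ 2)
      = fun p : ℝ × ℝ => ((g p.1 ^ 2) * (f p.2 ^ 2) + (g' p.1 ^ 2) * (f p.2 ^ 2))
        + (g p.1 ^ 2) * (f' p.2 ^ 2) := by
    ext p
    rw [dX_eq hg hf, dY_eq hg hf]; ring
  rw [e, I2_add (by fun_prop) (by fun_prop), I2_add (by fun_prop) (by fun_prop),
    I2_prod (fun x => g x ^ 2) (fun y => f y ^ 2), I2_prod (fun x => g' x ^ 2) (fun y => f y ^ 2),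
    I2_prod (fun x => g x ^ 2) (fun y => f' y ^ 2)]
  ring

lemma beta_prod (g f : ℝ → ℝ) (η : ℝ) : beta η (fun p : ℝ × ℝ => g p.1 * f p.2)
    = 1 / η * ((∫ x in (-(1 / 2) : ℝ)..(1 / 2), g x ^ 2) * ∫ y in (0:ℝ)..η, f y ^ 2) := by
  unfold beta
  have e : (fun p : ℝ × ℝ => (g p.1 * f p.2) ^ 2) = fun p : ℝ × ℝ => (g p.1 ^ 2) * (f p.2 ^ 2) := by
    ext p; ring
  rw [e, I2_prod (fun x => g x ^ 2) (fun y => f y ^ 2)]

/-- reduce the integral of a square to the support -/
lemma int_sq (h : C1c R g g') {T : ℝ} (hT : R ≤ T) :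
    ∫ x in (-T)..T, g x ^ 2 = ∫ x in (-R)..R, g x ^ 2 := by
  have hc := h.contg
  have hR := h.pos
  rw [← integral_add_adjacent_intervals (b := -R)
      (by apply Continuous.intervalIntegrable; fun_prop)
      (by apply Continuous.intervalIntegrable; fun_prop),
    ← integral_add_adjacent_intervals (a := -R) (b := R)
      (by apply Continuous.intervalIntegrable; fun_prop)
      (by apply Continuous.intervalIntegrable; fun_prop)]
  have e1 : ∫ x in (-T)..(-R), g x ^ 2 = 0 := by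
    rw [integral_congr (g := fun _ => (0:ℝ))]
    · simp
    · intro x hx
      rw [uIcc_of_le (by linarith)] at hx
      simp only
      rw [h.zero x (by rw [le_abs]; right; linarith [hx.2])]; ring
  have e2 : ∫ x in R..T, g x ^ 2 = 0 := by
    rw [integral_congr (g := fun _ => (0:ℝ))]
    · simp
    · intro x hx
      rw [uIcc_of_le hT] at hx
      simp only
      rw [h.zero x (by rw [le_abs]; left; linarith [hx.1])]; ring
  rw [e1, e2]; ring

lemma int_sq' (h : C1c R g g') {T : ℝ} (hT : R ≤ T) :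
    ∫ x in (-T)..T, g' x ^ 2 = ∫ x in (-R)..R, g' x ^ 2 := by
  have hc := h.cont
  have hR := h.pos
  rw [← integral_add_adjacent_intervals (b := -R)
      (by apply Continuous.intervalIntegrable; fun_prop)
      (by apply Continuous.intervalIntegrable; fun_prop),
    ← integral_add_adjacent_intervals (a := -R) (b := R)
      (by apply Continuous.intervalIntegrable; fun_prop)
      (by apply Continuous.intervalIntegrable; fun_prop)]
  have e1 : ∫ x in (-T)..(-R), g' x ^ 2 = 0 := by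
    rw [integral_congr (g := fun _ => (0:ℝ))]
    · simp
    · intro x hx
      rw [uIcc_of_le (by linarith)] at hx
      simp only
      rw [h.zero' x (by rw [le_abs]; right; linarith [hx.2])]; ring
  have e2 : ∫ x in R..T, g' x ^ 2 = 0 := by
    rw [integral_congr (g := fun _ => (0:ℝ))]
    · simp
    · intro x hx
      rw [uIcc_of_le hT] at hx
      simp only
      rw [h.zero' x (by rw [le_abs]; left; linarith [hx.1])]; ring
  rw [e1, e2]; ring

end C1c

/-- integrals of polynomials given by coefficient lists -/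
lemma int_poly (a : ℕ → ℝ) (n : ℕ) (c d : ℝ) :
    ∫ x in c..d, ∑ i ∈ Finset.range n, a i * x ^ i
      = ∑ i ∈ Finset.range n, a i * ((d ^ (i + 1) - c ^ (i + 1)) / (i + 1)) := by
  rw [intervalIntegral.integral_finsetSum (fun i _ => by
    apply Continuous.intervalIntegrable; fun_prop)]
  apply Finset.sum_congr rfl
  intro i _
  rw [intervalIntegral.integral_const_mul, integral_pow]

lemma int_poly' (l : List ℝ) (c d : ℝ) {f : ℝ → ℝ}
    (hf : ∀ x ∈ uIcc c d, f x = ∑ i ∈ Finset.range l.length, l.getD i 0 * x ^ i) :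
    ∫ x in c..d, f x
      = ∑ i ∈ Finset.range l.length, l.getD i 0 * ((d ^ (i + 1) - c ^ (i + 1)) / (i + 1)) := by
  rw [← int_poly (fun i => l.getD i 0) l.length c d]
  exact integral_congr hf

/-! ### the function `ζ(t) = (1 - t²)₊²` -/

/-- bump -/
noncomputable def zet (t : ℝ) : ℝ := psq (1 - t ^ 2)

/-- derivative of the bump -/
noncomputable def zet' (t : ℝ) : ℝ := 2 * max 0 (1 - t ^ 2) * (- (2 * t))

lemma zet_c1c : C1c 1 zet zet' where
  pos := one_pos
  deriv := by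
    intro x
    have h1 : HasDerivAt (fun t : ℝ => 1 - t ^ 2) (- (2 * x)) x := by
      have := ((hasDerivAt_id' x).pow 2).const_sub 1
      exact this.congr_deriv (by simp)
    exact (hasDerivAt_psq _).comp x h1
  cont := by unfold zet'; fun_prop
  zero := by
    intro x hx
    unfold zet psq
    have : 1 ≤ x ^ 2 := by rw [← sq_abs]; nlinarith
    rw [max_eq_left (by linarith)]; ring
  zero' := by
    intro x hx
    unfold zet'
    have : 1 ≤ x ^ 2 := by rw [← sq_abs]; nlinarith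
    rw [max_eq_left (by linarith)]; ring

lemma zet_of_mem {x : ℝ} (hx : x ∈ Icc (-1 : ℝ) 1) : zet x = (1 - x ^ 2) ^ 2 := by
  unfold zet psq
  rw [max_eq_right]
  nlinarith [hx.1, hx.2]

lemma zet'_of_mem {x : ℝ} (hx : x ∈ Icc (-1 : ℝ) 1) : zet' x = - 4 * x * (1 - x ^ 2) := by
  unfold zet'
  rw [max_eq_right]
  · ring
  · nlinarith [hx.1, hx.2]

lemma zet_A0 : ∫ x in (-1 : ℝ)..1, zet x ^ 2 = 256 / 315 := by
  rw [int_poly' [1, 0, -4, 0, 6, 0, -4, 0, 1] _ _ (by
    intro x hx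
    rw [uIcc_of_le (by norm_num)] at hx
    rw [zet_of_mem hx]
    simp [Finset.sum_range_succ]
    ring)]
  simp [Finset.sum_range_succ]
  norm_num

lemma zet_A1 : ∫ x in (-1 : ℝ)..1, zet' x ^ 2 = 256 / 105 := by
  rw [int_poly' [0, 0, 16, 0, -32, 0, 16] _ _ (by
    intro x hx
    rw [uIcc_of_le (by norm_num)] at hx
    rw [zet'_of_mem hx]
    simp [Finset.sum_range_succ]
    ring)]
  simp [Finset.sum_range_succ]
  norm_num

lemma zet_I : 73 / 100 ≤ ∫ x in (-(1 / 2) : ℝ)..(1 / 2), zet x ^ 2 := by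
  rw [int_poly' [1, 0, -4, 0, 6, 0, -4, 0, 1] _ _ (by
    intro x hx
    rw [uIcc_of_le (by norm_num)] at hx
    rw [zet_of_mem ⟨by linarith [hx.1], by linarith [hx.2]⟩]
    simp [Finset.sum_range_succ]
    ring)]
  simp [Finset.sum_range_succ]
  norm_num

/-! ### the odd test function -/

/-- odd profile -/
noncomputable def godd (x : ℝ) : ℝ := x * zet (4 / 3 * x)

/-- its derivative -/
noncomputable def godd' (x : ℝ) : ℝ := zet (4 / 3 * x) + x * (zet' (4 / 3 * x) * (4 / 3))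

lemma godd_c1c : C1c (3 / 4) godd godd' where
  pos := by norm_num
  deriv := by
    intro x
    have h1 : HasDerivAt (fun x : ℝ => 4 / 3 * x) (4 / 3) x := by
      simpa using (hasDerivAt_id' x).const_mul (4 / 3)
    have h2 : HasDerivAt (fun x : ℝ => zet (4 / 3 * x)) (zet' (4 / 3 * x) * (4 / 3)) x :=
      (zet_c1c.deriv _).comp x h1
    have h3 := (hasDerivAt_id' x).mul h2
    exact h3.congr_deriv (by unfold godd'; ring)
  cont := by
    have h1 := zet_c1c.contg
    have h2 := zet_c1c.cont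
    unfold godd'; fun_prop
  zero := by
    intro x hx
    unfold godd
    rw [zet_c1c.zero]
    · ring
    · rw [abs_mul, abs_of_pos (by norm_num : (0:ℝ) < 4 / 3)]; linarith
  zero' := by
    intro x hx
    unfold godd'
    have : 1 ≤ |4 / 3 * x| := by
      rw [abs_mul, abs_of_pos (by norm_num : (0:ℝ) < 4 / 3)]; linarith
    rw [zet_c1c.zero _ this, zet_c1c.zero' _ this]
    ring

lemma godd_of_mem {x : ℝ} (hx : x ∈ Icc (-(3 / 4) : ℝ) (3 / 4)) :
    godd x = x * (1 - 16 / 9 * x ^ 2) ^ 2 := by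
  unfold godd
  rw [zet_of_mem ⟨by linarith [hx.1], by linarith [hx.2]⟩]
  ring

lemma godd'_of_mem {x : ℝ} (hx : x ∈ Icc (-(3 / 4) : ℝ) (3 / 4)) :
    godd' x = (1 - 16 / 9 * x ^ 2) * (1 - 80 / 9 * x ^ 2) := by
  unfold godd'
  rw [zet_of_mem ⟨by linarith [hx.1], by linarith [hx.2]⟩,
    zet'_of_mem ⟨by linarith [hx.1], by linarith [hx.2]⟩]
  ring

lemma godd_neg (x : ℝ) : godd (-x) = - godd x := by
  unfold godd zet
  rw [mul_neg, neg_sq]; ring

lemma godd_A0 : ∫ x in (-(3 / 4) : ℝ)..(3 / 4), godd x ^ 2 ≤ 31170 / 1000000 := by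
  rw [int_poly' [0, 0, 1, 0, -4 * (16 / 9), 0, 6 * (16 / 9) ^ 2, 0, -4 * (16 / 9) ^ 3, 0,
    (16 / 9) ^ 4] _ _ (by
    intro x hx
    rw [uIcc_of_le (by norm_num)] at hx
    rw [godd_of_mem hx]
    simp [Finset.sum_range_succ]
    ring)]
  simp [Finset.sum_range_succ]
  norm_num

lemma godd_A1 : ∫ x in (-(3 / 4) : ℝ)..(3 / 4), godd' x ^ 2 ≤ 609525 / 1000000 := by
  rw [int_poly' [1, 0, -12 * (16 / 9), 0, 46 * (16 / 9) ^ 2, 0, -60 * (16 / 9) ^ 3, 0,
    25 * (16 / 9) ^ 4] _ _ (by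
    intro x hx
    rw [uIcc_of_le (by norm_num)] at hx
    rw [godd'_of_mem hx]
    simp [Finset.sum_range_succ]
    ring)]
  simp [Finset.sum_range_succ]
  norm_num

lemma godd_I : 27900 / 1000000 ≤ ∫ x in (-(1 / 2) : ℝ)..(1 / 2), godd x ^ 2 := by
  rw [int_poly' [0, 0, 1, 0, -4 * (16 / 9), 0, 6 * (16 / 9) ^ 2, 0, -4 * (16 / 9) ^ 3, 0,
    (16 / 9) ^ 4] _ _ (by
    intro x hx
    rw [uIcc_of_le (by norm_num)] at hx
    rw [godd_of_mem ⟨by linarith [hx.1], by linarith [hx.2]⟩]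
    simp [Finset.sum_range_succ]
    ring)]
  simp [Finset.sum_range_succ]
  norm_num

/-- smoothed absolute value -/
noncomputable def thet (y : ℝ) : ℝ := Real.sqrt (y ^ 2 + (1 / 1000) ^ 2) - 1 / 1000

lemma thet_le {y : ℝ} : thet y ≤ |y| := by
  unfold thet
  have : Real.sqrt (y ^ 2 + (1 / 1000) ^ 2) ≤ |y| + 1 / 1000 := by
    rw [Real.sqrt_le_left (by positivity)]
    nlinarith [abs_nonneg y, sq_abs y]
  linarith

lemma le_thet {y : ℝ} : |y| - 1 / 1000 ≤ thet y := by
  unfold thet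
  have : |y| ≤ Real.sqrt (y ^ 2 + (1 / 1000) ^ 2) := by
    apply Real.abs_le_sqrt
    nlinarith
  linarith

/-- vertical profile -/
noncomputable def fv (y : ℝ) : ℝ := psq (1 - 5 / 3 * thet y)

/-- its derivative -/
noncomputable def fv' (y : ℝ) : ℝ :=
  2 * max 0 (1 - 5 / 3 * thet y) * (- (5 / 3 * (y / Real.sqrt (y ^ 2 + (1 / 1000) ^ 2))))

lemma fv_c1c : C1c (601 / 1000) fv fv' where
  pos := by norm_num
  deriv := by
    intro y
    have h0 : (y ^ 2 + (1 / 1000) ^ 2 : ℝ) ≠ 0 := by positivity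
    have h1 : HasDerivAt (fun y : ℝ => y ^ 2 + (1 / 1000) ^ 2) (2 * y) y := by
      have := ((hasDerivAt_id' y).pow 2).add_const ((1 / 1000 : ℝ) ^ 2)
      exact this.congr_deriv (by simp)
    have h2 := (h1.sqrt h0).sub_const (1 / 1000)
    have h3 := ((h2.const_mul (5 / 3)).const_sub 1)
    have h4 : HasDerivAt (fun y : ℝ => 1 - 5 / 3 * thet y)
        (- (5 / 3 * (y / Real.sqrt (y ^ 2 + (1 / 1000) ^ 2)))) y := by
      refine h3.congr_deriv ?_
      have : Real.sqrt (y ^ 2 + (1 / 1000) ^ 2) ≠ 0 := by positivity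
      field_simp
    exact (hasDerivAt_psq _).comp y h4
  cont := by
    have h0 : ∀ y : ℝ, Real.sqrt (y ^ 2 + (1 / 1000) ^ 2) ≠ 0 := fun y => by positivity
    unfold fv' thet
    fun_prop (disch := exact h0 _)
  zero := by
    intro y hy
    have := le_thet (y := y)
    unfold fv psq
    rw [max_eq_left (by linarith)]; ring
  zero' := by
    intro y hy
    have := le_thet (y := y)
    unfold fv'
    rw [max_eq_left (by linarith)]; ring

lemma fv_sq_le {y : ℝ} (hy : |y| ≤ 601 / 1000) :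
    fv y ^ 2 ≤ (5 / 3) ^ 4 * (601 / 1000 - |y|) ^ 4 := by
  have h1 := le_thet (y := y)
  have h2 : max 0 (1 - 5 / 3 * thet y) ≤ 5 / 3 * (601 / 1000 - |y|) :=
    max_le (by linarith) (by linarith)
  have h3 : 0 ≤ max 0 (1 - 5 / 3 * thet y) := le_max_left _ _
  unfold fv psq
  calc ((max 0 (1 - 5 / 3 * thet y)) ^ 2) ^ 2 = (max 0 (1 - 5 / 3 * thet y)) ^ 4 := by ring
    _ ≤ (5 / 3 * (601 / 1000 - |y|)) ^ 4 := by gcongr
    _ = _ := by ring

lemma fv'_sq_le {y : ℝ} (hy : |y| ≤ 601 / 1000) :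
    fv' y ^ 2 ≤ 4 * (5 / 3) ^ 4 * (601 / 1000 - |y|) ^ 2 := by
  have h1 := le_thet (y := y)
  have h2 : max 0 (1 - 5 / 3 * thet y) ≤ 5 / 3 * (601 / 1000 - |y|) :=
    max_le (by linarith) (by linarith)
  have h3 : 0 ≤ max 0 (1 - 5 / 3 * thet y) := le_max_left _ _
  have h4 : (y / Real.sqrt (y ^ 2 + (1 / 1000) ^ 2)) ^ 2 ≤ 1 := by
    rw [div_pow, Real.sq_sqrt (by positivity), div_le_one (by positivity)]
    have : (0:ℝ) < (1 / 1000) ^ 2 := by positivity
    linarith
  unfold fv'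
  have e : (2 * max 0 (1 - 5 / 3 * thet y) * (- (5 / 3 * (y / Real.sqrt (y ^ 2 + (1 / 1000) ^ 2))))) ^ 2
      = 4 * (5 / 3) ^ 2 * (max 0 (1 - 5 / 3 * thet y)) ^ 2
        * (y / Real.sqrt (y ^ 2 + (1 / 1000) ^ 2)) ^ 2 := by ring
  rw [e]
  calc 4 * (5 / 3) ^ 2 * (max 0 (1 - 5 / 3 * thet y)) ^ 2
        * (y / Real.sqrt (y ^ 2 + (1 / 1000) ^ 2)) ^ 2
      ≤ 4 * (5 / 3) ^ 2 * (5 / 3 * (601 / 1000 - |y|)) ^ 2 * 1 := by gcongr
    _ = _ := by ring

lemma int_tent (L : ℝ) (hL : 0 ≤ L) (n : ℕ) :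
    ∫ y in (-L)..L, (L - |y|) ^ n = 2 * (L ^ (n + 1) / (n + 1)) := by
  rw [← integral_add_adjacent_intervals (b := 0)
      (by apply Continuous.intervalIntegrable; fun_prop)
      (by apply Continuous.intervalIntegrable; fun_prop)]
  have e2 : ∫ y in (0:ℝ)..L, (L - |y|) ^ n = L ^ (n + 1) / (n + 1) := by
    have : ∫ y in (0:ℝ)..L, (L - |y|) ^ n = ∫ y in (0:ℝ)..L, (L - y) ^ n := by
      apply integral_congr
      intro y hy
      rw [uIcc_of_le hL] at hy
      simp only
      rw [abs_of_nonneg hy.1]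
    rw [this, integral_comp_sub_left (fun y => y ^ n) L]
    simp
  have e1 : ∫ y in (-L)..0, (L - |y|) ^ n = L ^ (n + 1) / (n + 1) := by
    rw [← e2]
    have := integral_comp_neg (a := 0) (b := L) (fun y => (L - |y|) ^ n)
    simp only [abs_neg, neg_zero] at this
    exact this.symm
  rw [e1, e2]; ring

lemma fv_B0 : ∫ y in (-(601 / 1000) : ℝ)..(601 / 1000), fv y ^ 2 ≤ 24201 / 100000 := by
  have hc := fv_c1c.contg
  calc ∫ y in (-(601 / 1000) : ℝ)..(601 / 1000), fv y ^ 2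
      ≤ ∫ y in (-(601 / 1000) : ℝ)..(601 / 1000), (5 / 3) ^ 4 * (601 / 1000 - |y|) ^ 4 := by
        apply integral_mono_on (by norm_num)
        · apply Continuous.intervalIntegrable; fun_prop
        · apply Continuous.intervalIntegrable; fun_prop
        · intro y hy
          exact fv_sq_le (abs_le.2 hy)
    _ = (5 / 3) ^ 4 * (2 * ((601 / 1000) ^ 5 / 5)) := by
        rw [intervalIntegral.integral_const_mul, int_tent _ (by norm_num)]
        norm_num
    _ ≤ _ := by norm_num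

lemma fv_B1 : ∫ y in (-(601 / 1000) : ℝ)..(601 / 1000), fv' y ^ 2 ≤ 44672 / 10000 := by
  have hc := fv_c1c.cont
  calc ∫ y in (-(601 / 1000) : ℝ)..(601 / 1000), fv' y ^ 2
      ≤ ∫ y in (-(601 / 1000) : ℝ)..(601 / 1000), 4 * (5 / 3) ^ 4 * (601 / 1000 - |y|) ^ 2 := by
        apply integral_mono_on (by norm_num)
        · apply Continuous.intervalIntegrable; fun_prop
        · apply Continuous.intervalIntegrable; fun_prop
        · intro y hy
          exact fv'_sq_le (abs_le.2 hy)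
    _ = 4 * (5 / 3) ^ 4 * (2 * ((601 / 1000) ^ 3 / 3)) := by
        rw [intervalIntegral.integral_const_mul, int_tent _ (by norm_num)]
        norm_num
    _ ≤ _ := by norm_num

lemma fv_low : 1 / 1000 * (99 / 100) ≤ ∫ y in (0:ℝ)..(1 / 1000), fv y ^ 2 := by
  have hc := fv_c1c.contg
  calc 1 / 1000 * (99 / 100) = ∫ _y in (0:ℝ)..(1 / 1000), (99 / 100 : ℝ) := by
        rw [intervalIntegral.integral_const, smul_eq_mul]; norm_num
    _ ≤ _ := by
        apply integral_mono_on (by norm_num) (by simp)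
        · apply Continuous.intervalIntegrable; fun_prop
        · intro y hy
          have h1 := thet_le (y := y)
          rw [abs_of_nonneg hy.1] at h1
          have h2 : 599 / 600 ≤ max 0 (1 - 5 / 3 * thet y) :=
            le_max_of_le_right (by linarith [hy.2])
          unfold fv psq
          calc (99 / 100 : ℝ) ≤ ((599 / 600) ^ 2) ^ 2 := by norm_num
            _ ≤ _ := by gcongr

/-- the odd test function -/
noncomputable def phio : ℝ × ℝ → ℝ := fun p => godd p.1 * fv p.2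

lemma phio_tst : Tst phio := godd_c1c.tst fv_c1c

lemma phio_odd (x y : ℝ) : phio (-x, y) = -1 * phio (x, y) := by
  simp only [phio, godd_neg]; ring

lemma phio_N : N phio ≤ 29430 / 100000 := by
  unfold phio
  rw [C1c.N_prod godd_c1c fv_c1c (T := 1) (by norm_num) (by norm_num),
    godd_c1c.int_sq (by norm_num), godd_c1c.int_sq' (by norm_num), fv_c1c.int_sq (by norm_num),
    fv_c1c.int_sq' (by norm_num)]
  have a0 := godd_A0
  have a1 := godd_A1
  have b0 := fv_B0
  have b1 := fv_B1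
  have n1 : 0 ≤ ∫ x in (-(3 / 4) : ℝ)..(3 / 4), godd x ^ 2 :=
    integral_nonneg (by norm_num) fun x _ => sq_nonneg _
  have n2 : 0 ≤ ∫ x in (-(3 / 4) : ℝ)..(3 / 4), godd' x ^ 2 :=
    integral_nonneg (by norm_num) fun x _ => sq_nonneg _
  have n3 : 0 ≤ ∫ x in (-(601 / 1000) : ℝ)..(601 / 1000), fv x ^ 2 :=
    integral_nonneg (by norm_num) fun x _ => sq_nonneg _
  have n4 : 0 ≤ ∫ x in (-(601 / 1000) : ℝ)..(601 / 1000), fv' x ^ 2 :=
    integral_nonneg (by norm_num) fun x _ => sq_nonneg _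
  refine le_trans (b := (31170 / 1000000 + 609525 / 1000000) * (24201 / 100000)
        + 31170 / 1000000 * (44672 / 10000)) ?_ (by norm_num)
  gcongr

lemma phio_beta0 : N phio ≤ 11 * beta (1 / 1000) phio := by
  have h1 : 27 / 1000 ≤ beta (1 / 1000) phio := by
    unfold phio
    rw [C1c.beta_prod]
    have i1 := godd_I
    have i2 := fv_low
    calc (27 / 1000 : ℝ) ≤ 1 / (1 / 1000) * (27900 / 1000000 * (1 / 1000 * (99 / 100))) := by
          norm_num
      _ ≤ _ := by gcongr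
  have := phio_N
  linarith

lemma phio_N_pos : 0 < N phio := by
  by_contra hcon
  push Not at hcon
  have h1 : N phio = 0 := le_antisymm hcon (Bx.N_nonneg _)
  have hb : Bx 4 phio := godd_c1c.bx fv_c1c (by norm_num) (by norm_num)
  have c1 : Continuous fun p : ℝ × ℝ => phio p ^ 2 := by have := hb.cont; fun_prop
  have h2 : I2 (fun p => phio p ^ 2) (-(1 / 2)) (1 / 2) 0 (1 / 1000) ≤ N phio := by
    apply hb.I2_le_N c1 (fun p => sq_nonneg _)
      (fun p => by nlinarith [sq_nonneg (dX phio p), sq_nonneg (dY phio p)]) <;> norm_num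
  have h3 : 27 / 1000 ≤ beta (1 / 1000) phio := by
    unfold phio
    rw [C1c.beta_prod]
    have i1 := godd_I
    have i2 := fv_low
    calc (27 / 1000 : ℝ) ≤ 1 / (1 / 1000) * (27900 / 1000000 * (1 / 1000 * (99 / 100))) := by
          norm_num
      _ ≤ _ := by gcongr
  unfold beta at h3
  norm_num at h3
  rw [h1] at h2
  norm_num at h2
  linarith

/-- lower bound of the averaged form for all heights -/
lemma phio_beta {η : ℝ} (h0 : 1 / 1000 ≤ η) (h4 : η ≤ 4) : N phio ≤ 44000 * beta η phio := by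
  have h1 := phio_beta0
  have h2 : beta (1 / 1000) phio ≤ 4000 * beta η phio := by
    unfold phio
    rw [C1c.beta_prod, C1c.beta_prod]
    have hc := fv_c1c.contg
    have n1 : 0 ≤ ∫ x in (-(1 / 2) : ℝ)..(1 / 2), godd x ^ 2 :=
      integral_nonneg (by norm_num) fun x _ => sq_nonneg _
    have n2 : 0 ≤ ∫ y in (0:ℝ)..η, fv y ^ 2 :=
      integral_nonneg (by linarith) fun x _ => sq_nonneg _
    have i1 : ∫ y in (0:ℝ)..(1 / 1000), fv y ^ 2 ≤ ∫ y in (0:ℝ)..η, fv y ^ 2 := by
      apply integral_mono_interval le_rfl (by norm_num) h0 (Eventually.of_forall fun t => sq_nonneg _)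
      apply Continuous.intervalIntegrable; fun_prop
    have i2 : 1 / 4 ≤ 1 / η := by
      apply one_div_le_one_div_of_le (by linarith) h4
    calc 1 / (1 / 1000) * ((∫ x in (-(1 / 2) : ℝ)..(1 / 2), godd x ^ 2)
          * ∫ y in (0:ℝ)..(1 / 1000), fv y ^ 2)
        ≤ 1 / (1 / 1000) * ((∫ x in (-(1 / 2) : ℝ)..(1 / 2), godd x ^ 2)
          * ∫ y in (0:ℝ)..η, fv y ^ 2) := by gcongr
      _ = 4000 * (1 / 4 * ((∫ x in (-(1 / 2) : ℝ)..(1 / 2), godd x ^ 2)
          * ∫ y in (0:ℝ)..η, fv y ^ 2)) := by ring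
      _ ≤ _ := by gcongr
  linarith

/-! ### the even test functions -/

/-- vertical profile of a combination of two bumps -/
noncomputable def fst (s t y : ℝ) : ℝ := s * zet (y - 1) + t * zet (y - 3)

/-- its derivative -/
noncomputable def fst' (s t y : ℝ) : ℝ := s * zet' (y - 1) + t * zet' (y - 3)

lemma fst_c1c (s t : ℝ) : C1c 4 (fst s t) (fst' s t) where
  pos := by norm_num
  deriv := by
    intro y
    have h1 : HasDerivAt (fun y : ℝ => zet (y - 1)) (zet' (y - 1)) y :=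
      (zet_c1c.deriv _).comp_sub_const y 1
    have h2 : HasDerivAt (fun y : ℝ => zet (y - 3)) (zet' (y - 3)) y :=
      (zet_c1c.deriv _).comp_sub_const y 3
    exact (h1.const_mul s).add (h2.const_mul t)
  cont := by
    have h2 := zet_c1c.cont
    unfold fst'; fun_prop
  zero := by
    intro y hy
    have h1 : 1 ≤ |y - 1| := by
      rcases le_abs.1 hy with h | h
      · rw [le_abs]; left; linarith
      · rw [le_abs]; right; linarith
    have h2 : 1 ≤ |y - 3| := by
      rcases le_abs.1 hy with h | h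
      · rw [le_abs]; left; linarith
      · rw [le_abs]; right; linarith
    unfold fst
    rw [zet_c1c.zero _ h1, zet_c1c.zero _ h2]; ring
  zero' := by
    intro y hy
    have h1 : 1 ≤ |y - 1| := by
      rcases le_abs.1 hy with h | h
      · rw [le_abs]; left; linarith
      · rw [le_abs]; right; linarith
    have h2 : 1 ≤ |y - 3| := by
      rcases le_abs.1 hy with h | h
      · rw [le_abs]; left; linarith
      · rw [le_abs]; right; linarith
    unfold fst'
    rw [zet_c1c.zero' _ h1, zet_c1c.zero' _ h2]; ring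

/-- integral of the square of a combination of two disjoint bumps -/
lemma int_two {z : ℝ → ℝ} (hz : Continuous z) (h0 : ∀ x, 1 ≤ |x| → z x = 0) (s t : ℝ) {a : ℝ}
    (ha : a ≤ 0) :
    ∫ y in a..4, (s * z (y - 1) + t * z (y - 3)) ^ 2
      = (s ^ 2 + t ^ 2) * ∫ x in (-1 : ℝ)..1, z x ^ 2 := by
  have hc : Continuous fun y => (s * z (y - 1) + t * z (y - 3)) ^ 2 := by fun_prop
  rw [← integral_add_adjacent_intervals (b := 0) (hc.intervalIntegrable _ _)
      (hc.intervalIntegrable _ _),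
    ← integral_add_adjacent_intervals (a := 0) (b := 2) (hc.intervalIntegrable _ _)
      (hc.intervalIntegrable _ _)]
  have e0 : ∫ y in a..0, (s * z (y - 1) + t * z (y - 3)) ^ 2 = 0 := by
    rw [integral_congr (g := fun _ => (0:ℝ))]
    · simp
    · intro y hy
      rw [uIcc_of_le ha] at hy
      simp only
      rw [h0 (y - 1) (by rw [le_abs]; right; linarith [hy.2]),
        h0 (y - 3) (by rw [le_abs]; right; linarith [hy.2])]
      ring
  have e1 : ∫ y in (0:ℝ)..2, (s * z (y - 1) + t * z (y - 3)) ^ 2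
      = s ^ 2 * ∫ x in (-1 : ℝ)..1, z x ^ 2 := by
    have : ∫ y in (0:ℝ)..2, (s * z (y - 1) + t * z (y - 3)) ^ 2
        = ∫ y in (0:ℝ)..2, s ^ 2 * z (y - 1) ^ 2 := by
      apply integral_congr
      intro y hy
      rw [uIcc_of_le (by norm_num)] at hy
      simp only
      rw [h0 (y - 3) (by rw [le_abs]; right; linarith [hy.2])]
      ring
    rw [this, intervalIntegral.integral_const_mul, integral_comp_sub_right (fun y => z y ^ 2) 1]
    norm_num
  have e2 : ∫ y in (2:ℝ)..4, (s * z (y - 1) + t * z (y - 3)) ^ 2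
      = t ^ 2 * ∫ x in (-1 : ℝ)..1, z x ^ 2 := by
    have : ∫ y in (2:ℝ)..4, (s * z (y - 1) + t * z (y - 3)) ^ 2
        = ∫ y in (2:ℝ)..4, t ^ 2 * z (y - 3) ^ 2 := by
      apply integral_congr
      intro y hy
      rw [uIcc_of_le (by norm_num)] at hy
      simp only
      rw [h0 (y - 1) (by rw [le_abs]; left; linarith [hy.1])]
      ring
    rw [this, intervalIntegral.integral_const_mul, integral_comp_sub_right (fun y => z y ^ 2) 3]
    norm_num
  rw [e0, e1, e2]; ring

/-- the even test functions -/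
noncomputable def phie (s t : ℝ) : ℝ × ℝ → ℝ := fun p => zet p.1 * fst s t p.2

lemma phie_tst (s t : ℝ) : Tst (phie s t) := zet_c1c.tst (fst_c1c s t)

lemma phie_even (s t x y : ℝ) : phie s t (-x, y) = 1 * phie s t (x, y) := by
  simp only [phie, zet, neg_sq, one_mul]

lemma phie_N (s t : ℝ) : N (phie s t)
    = ((256 / 315 + 256 / 105) * (256 / 315) + 256 / 315 * (256 / 105)) * (s ^ 2 + t ^ 2) := by
  unfold phie
  rw [C1c.N_prod zet_c1c (fst_c1c s t) (T := 4) (by norm_num) (by norm_num),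
    zet_c1c.int_sq (by norm_num), zet_c1c.int_sq' (by norm_num), zet_A0, zet_A1]
  have e1 : ∫ y in (-4 : ℝ)..4, fst s t y ^ 2 = (s ^ 2 + t ^ 2) * (256 / 315) := by
    rw [← zet_A0]
    exact int_two zet_c1c.contg zet_c1c.zero s t (by norm_num)
  have e2 : ∫ y in (-4 : ℝ)..4, fst' s t y ^ 2 = (s ^ 2 + t ^ 2) * (256 / 105) := by
    rw [← zet_A1]
    exact int_two zet_c1c.cont zet_c1c.zero' s t (by norm_num)
  rw [e1, e2]; ring

lemma phie_beta (s t : ℝ) : N (phie s t) ≤ 32 * beta 4 (phie s t) := by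
  rw [phie_N]
  unfold phie
  rw [C1c.beta_prod]
  have e1 : ∫ y in (0 : ℝ)..4, fst s t y ^ 2 = (s ^ 2 + t ^ 2) * (256 / 315) := by
    rw [← zet_A0]
    exact int_two zet_c1c.contg zet_c1c.zero s t (by norm_num)
  rw [e1]
  have i1 := zet_I
  have h0 : 0 ≤ s ^ 2 + t ^ 2 := by positivity
  calc ((256 / 315 + 256 / 105) * (256 / 315) + 256 / 315 * (256 / 105)) * (s ^ 2 + t ^ 2)
      ≤ 32 * (1 / 4 * (73 / 100 * ((s ^ 2 + t ^ 2) * (256 / 315)))) := by nlinarith
    _ ≤ _ := by gcongr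

end Pool.Agent.Helper97.Leaky
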