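import Pool.Agent.Helper97.Leaky.Space
import Pool.Agent.Helper97.Leaky.Test

open MeasureTheory Filter Topology Set intervalIntegral
open scoped InnerProductSpace

namespace Pool.Agent.Helper97.Leaky

/-- number of periods of the zigzag in `[0, 1/2]` -/
def KK : ℕ := 1000000000

lemma KK_pos : 0 < KK := by norm_num [KK]

lemma KK_cast : ((KK : ℕ) : ℝ) = 1000000000 := by norm_num [KK]

lemma mf_KK {η : ℝ} (hη : 1 / 1000 ≤ η) : 4000000 ≤ mf KK η := by
  have h := le_mf KK η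
  rw [KK_cast] at h
  linarith

lemma eps_KK {η : ℝ} (hη : 1 / 1000 ≤ η) : 1 / (4 * (KK : ℝ) * η) ≤ 1 / 4000000 := by
  apply one_div_le_one_div_of_le (by norm_num)
  rw [KK_cast]
  linarith

/-- the odd test function as an element of the space -/
noncomputable def Phio : Wsp (-1) := ⟨phio, phio_tst, phio_odd⟩

/-- the even test functions as elements of the space -/
noncomputable def Phie (s t : ℝ) : Wsp 1 := ⟨phie s t, phie_tst s t, phie_even s t⟩

lemma phio_Bx : Bx 4 phio := godd_c1c.bx fv_c1c (by norm_num) (by norm_num)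

lemma phie_Bx (s t : ℝ) : Bx 4 (phie s t) := zet_c1c.bx (fst_c1c s t) (by norm_num) (by norm_num)

lemma e_Phio_ne : e (-1) Phio ≠ 0 := by
  intro h
  have h1 := norm_e_sq Phio
  rw [h, norm_zero] at h1
  have h2 : N (Phio : ℝ × ℝ → ℝ) = N phio := rfl
  rw [h2] at h1
  have := phio_N_pos
  norm_num at h1
  linarith

/-- the top of the odd sector is above the essential bound -/
lemma low {η : ℝ} (hη : η ∈ Icc (1 / 1000 : ℝ) 4) : 1 < ‖Tr (-1) KK η‖ ^ 2 := by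
  have hη0 : 0 < η := by linarith [hη.1]
  have h1 : 2 ≤ ‖Tr (-1) KK η‖ ^ 2 := by
    apply le_norm_sq_of e_Phio_ne
    rw [norm_e_sq, norm_Tr_e_sq hη0.le hη.2]
    have h2 : ((Phio : Wsp (-1)) : ℝ × ℝ → ℝ) = phio := rfl
    rw [h2]
    have h3 := phio_Bx.b_lower (k := KK) le_rfl KK_pos hη0 hη.2
    have h4 := phio_beta hη.1 hη.2
    have h5 := mf_KK hη.1
    have h6 := eps_KK hη.1
    have h7 := phio_N_pos
    have h8 : 1 / (4 * (KK : ℝ) * η) * N phio ≤ 1 / 4000000 * N phio := by gcongr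
    have h9 : (2 / 100000) * N phio ≤ beta η phio - 1 / (4 * (KK : ℝ) * η) * N phio := by
      linarith
    calc 2 * N phio ≤ (4000000 - 1) * ((2 / 100000) * N phio) := by nlinarith
      _ ≤ (mf KK η - 1) * (beta η phio - 1 / (4 * (KK : ℝ) * η) * N phio) := by
        apply mul_le_mul (by linarith) h9 (by positivity) (by linarith)
      _ ≤ _ := h3
  linarith

/-- the wide case -/
lemma wide : s2 (Tr 1 KK (1 / 1000)) ≤ ‖Tr (-1) KK (1 / 1000)‖ ^ 2 := by
  set η : ℝ := 1 / 1000 with hη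
  have hη0 : 0 < η := by norm_num [hη]
  have hη4 : η ≤ 4 := by norm_num [hη]
  have h5 := mf_KK (η := η) le_rfl
  have h6 := eps_KK (η := η) le_rfl
  set m := mf KK η with hm
  have hm1 : 0 ≤ m - 1 := by linarith
  -- upper bound in the even sector
  have up : s2 (Tr 1 KK η) ≤ 1 / 2 + (m - 1) * (1 / 12 + 1 / 4000000) := by
    apply s2_le_of_functional (C := (m - 1) * (1 / η ^ 2)) (by positivity)
      (extend (boxInt 1 η))
    intro u
    have key : ∀ φ : Wsp 1, ‖Tr 1 KK η (e 1 φ)‖ ^ 2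
        ≤ (1 / 2 + (m - 1) * (1 / 12 + 1 / 4000000)) * ‖e 1 φ‖ ^ 2
          + (m - 1) * (1 / η ^ 2) * (extend (boxInt 1 η) (e 1 φ)) ^ 2 := by
      intro φ
      rw [norm_Tr_e_sq hη0.le hη4, norm_e_sq, extend_e _ (boxInt_le hη0 hη4)]
      obtain ⟨T, hT, hB⟩ := (tstOf φ).exists_Bx 4
      have b1 := hB.b_upper (k := KK) hT KK_pos hη0 hη4
      have b2 := hB.even_box (fun x y => by have := φ.2.2 x y; rwa [one_mul] at this) hη0
        (by norm_num [hη]) (by linarith)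
      have hN := Bx.N_nonneg (φ : ℝ × ℝ → ℝ)
      have b3 : 1 / (4 * (KK : ℝ) * η) * N (φ : ℝ × ℝ → ℝ) ≤ 1 / 4000000 * N (φ : ℝ × ℝ → ℝ) := by
        gcongr
      have b4 : beta η φ + 1 / (4 * (KK : ℝ) * η) * N (φ : ℝ × ℝ → ℝ)
          ≤ (1 / 12 + 1 / 4000000) * N (φ : ℝ × ℝ → ℝ) + 1 / η ^ 2 * (boxInt 1 η φ) ^ 2 := by
        have : beta η φ ≤ 1 / 12 * N (φ : ℝ × ℝ → ℝ) + 1 / η ^ 2 * (boxInt 1 η φ) ^ 2 := b2
        linarith
      calc bform KK η φ ≤ 1 / 2 * N (φ : ℝ × ℝ → ℝ)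
            + (m - 1) * (beta η φ + 1 / (4 * (KK : ℝ) * η) * N (φ : ℝ × ℝ → ℝ)) := b1
        _ ≤ 1 / 2 * N (φ : ℝ × ℝ → ℝ) + (m - 1) * ((1 / 12 + 1 / 4000000) * N (φ : ℝ × ℝ → ℝ)
            + 1 / η ^ 2 * (boxInt 1 η φ) ^ 2) := by gcongr
        _ = _ := by ring
    have := nonneg_of_dense (σ := 1)
      (G := fun u => (1 / 2 + (m - 1) * (1 / 12 + 1 / 4000000)) * ‖u‖ ^ 2
          + (m - 1) * (1 / η ^ 2) * (extend (boxInt 1 η) u) ^ 2 - ‖Tr 1 KK η u‖ ^ 2)
      (by fun_prop) (fun φ => by linarith [key φ]) u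
    linarith
  -- lower bound in the odd sector
  have lo : (m - 1) * (1 / 11 - 1 / 4000000) ≤ ‖Tr (-1) KK η‖ ^ 2 := by
    apply le_norm_sq_of e_Phio_ne
    rw [norm_e_sq, norm_Tr_e_sq hη0.le hη4]
    have h2 : ((Phio : Wsp (-1)) : ℝ × ℝ → ℝ) = phio := rfl
    rw [h2]
    have h3 := phio_Bx.b_lower (k := KK) le_rfl KK_pos hη0 hη4
    have h4 := phio_beta0
    have h7 := phio_N_pos
    have h8 : 1 / (4 * (KK : ℝ) * η) * N phio ≤ 1 / 4000000 * N phio := by gcongr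
    have h9 : (1 / 11 - 1 / 4000000) * N phio ≤ beta η phio - 1 / (4 * (KK : ℝ) * η) * N phio := by
      linarith
    calc (m - 1) * (1 / 11 - 1 / 4000000) * N phio
        = (m - 1) * ((1 / 11 - 1 / 4000000) * N phio) := by ring
      _ ≤ (m - 1) * (beta η phio - 1 / (4 * (KK : ℝ) * η) * N phio) := by gcongr
      _ ≤ _ := h3
  refine up.trans (le_trans ?_ lo)
  nlinarith

/-- the tall case -/
lemma tall : ‖Tr (-1) KK 4‖ ^ 2 ≤ s2 (Tr 1 KK 4) := by
  have h5 := mf_KK (η := 4) (by norm_num)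
  have h6 := eps_KK (η := 4) (by norm_num)
  set m := mf KK 4 with hm
  have hm1 : 0 ≤ m - 1 := by linarith
  -- upper bound in the odd sector
  have up : ‖Tr (-1) KK 4‖ ^ 2 ≤ 1 / 2 + (m - 1) * (1 / 36 + 1 / 4000000) := by
    apply norm_sq_le_iff _ (by positivity)
    intro u
    have key : ∀ φ : Wsp (-1), ‖Tr (-1) KK 4 (e (-1) φ)‖ ^ 2
        ≤ (1 / 2 + (m - 1) * (1 / 36 + 1 / 4000000)) * ‖e (-1) φ‖ ^ 2 := by
      intro φ
      rw [norm_Tr_e_sq (by norm_num) le_rfl, norm_e_sq]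
      obtain ⟨T, hT, hB⟩ := (tstOf φ).exists_Bx 4
      have b1 := hB.b_upper (k := KK) hT KK_pos (η := 4) (by norm_num) le_rfl
      have b2 := hB.odd_box (fun x y => by have := φ.2.2 x y; rwa [neg_one_mul] at this)
        (η := 4) (by norm_num) (by linarith) hT
      have hN := Bx.N_nonneg (φ : ℝ × ℝ → ℝ)
      have b3 : 1 / (4 * (KK : ℝ) * 4) * N (φ : ℝ × ℝ → ℝ) ≤ 1 / 4000000 * N (φ : ℝ × ℝ → ℝ) := by
        gcongr
      have b4 : beta 4 φ + 1 / (4 * (KK : ℝ) * 4) * N (φ : ℝ × ℝ → ℝ)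
          ≤ (1 / 36 + 1 / 4000000) * N (φ : ℝ × ℝ → ℝ) := by
        have : beta 4 φ ≤ 1 / 36 * N (φ : ℝ × ℝ → ℝ) := by
          unfold beta
          linarith
        linarith
      calc bform KK 4 φ ≤ 1 / 2 * N (φ : ℝ × ℝ → ℝ)
            + (m - 1) * (beta 4 φ + 1 / (4 * (KK : ℝ) * 4) * N (φ : ℝ × ℝ → ℝ)) := b1
        _ ≤ 1 / 2 * N (φ : ℝ × ℝ → ℝ)
            + (m - 1) * ((1 / 36 + 1 / 4000000) * N (φ : ℝ × ℝ → ℝ)) := by gcongr
        _ = _ := by ring
    have := nonneg_of_dense (σ := -1)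
      (G := fun u => (1 / 2 + (m - 1) * (1 / 36 + 1 / 4000000)) * ‖u‖ ^ 2 - ‖Tr (-1) KK 4 u‖ ^ 2)
      (by fun_prop) (fun φ => by linarith [key φ]) u
    linarith
  -- linear combinations of the even test functions
  have hcomb : ∀ s t : ℝ, s • e 1 (Phie 1 0) + t • e 1 (Phie 0 1) = e 1 (Phie s t) := by
    intro s t
    rw [← map_smul, ← map_smul, ← map_add]
    congr 1
    apply Subtype.ext
    funext p
    simp only [Phie, phie, fst, Submodule.coe_add, Submodule.coe_smul, Pi.add_apply,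
      Pi.smul_apply, smul_eq_mul]
    ring
  have hN : ∀ s t : ℝ, ‖e 1 (Phie s t)‖ ^ 2 = N (phie s t) := fun s t => norm_e_sq _
  -- lower bound in the even sector
  have lo : (m - 1) * (1 / 32 - 1 / 4000000) ≤ s2 (Tr 1 KK 4) := by
    apply le_s2_of_pair (e 1 (Phie 1 0)) (e 1 (Phie 0 1))
    · rw [LinearIndependent.pair_iff]
      intro s t hst
      rw [hcomb] at hst
      have h1 := hN s t
      rw [hst, norm_zero, phie_N] at h1
      have h2 : s ^ 2 + t ^ 2 = 0 := by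
        norm_num at h1
        linarith
      constructor <;> nlinarith [sq_nonneg s, sq_nonneg t]
    · intro s t
      rw [hcomb, hN, norm_Tr_e_sq (by norm_num) le_rfl]
      have h2 : ((Phie s t : Wsp 1) : ℝ × ℝ → ℝ) = phie s t := rfl
      rw [h2]
      have h3 := (phie_Bx s t).b_lower (k := KK) le_rfl KK_pos (η := 4) (by norm_num) le_rfl
      have h4 := phie_beta s t
      have h7 := Bx.N_nonneg (phie s t)
      have h8 : 1 / (4 * (KK : ℝ) * 4) * N (phie s t) ≤ 1 / 4000000 * N (phie s t) := by gcongr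
      have h9 : (1 / 32 - 1 / 4000000) * N (phie s t)
          ≤ beta 4 (phie s t) - 1 / (4 * (KK : ℝ) * 4) * N (phie s t) := by
        linarith
      calc (m - 1) * (1 / 32 - 1 / 4000000) * N (phie s t)
          = (m - 1) * ((1 / 32 - 1 / 4000000) * N (phie s t)) := by ring
        _ ≤ (m - 1) * (beta 4 (phie s t) - 1 / (4 * (KK : ℝ) * 4) * N (phie s t)) := by gcongr
        _ ≤ _ := h3
  refine up.trans (le_trans ?_ lo)
  nlinarith

/-- existence of the crossing -/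
theorem exists_crossing : ∃ η ∈ Icc (1 / 1000 : ℝ) 4, ∃ lam > (1:ℝ),
    (∃ u : Hs (-1), ‖u‖ = 1 ∧ ∀ v, ⟪Tr (-1) KK η u, Tr (-1) KK η v⟫_ℝ = lam * ⟪u, v⟫_ℝ) ∧
    (∃ u : Hs 1, ‖u‖ = 1 ∧ ∀ v, ⟪Tr 1 KK η u, Tr 1 KK η v⟫_ℝ = lam * ⟪u, v⟫_ℝ) :=
  crossing (by norm_num) zero_le_one (Tr (-1) KK) (Tr 1 KK) (formCont KK (by norm_num))
    (formCont KK (by norm_num)) (fun η hη => essBound (by linarith [hη.1]) hη.2)
    (fun η hη => essBound (by linarith [hη.1]) hη.2) (fun η hη => low hη) wide tall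

end Pool.Agent.Helper97.Leaky
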