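import Mathlib

/-!
# Leaky curves: definitions

The curves, the conditions (a1), (a2), (a3), the form domain `W^{1,2}(ℝ²)` with gradients and traces,
and the eigenvectors of the operator attached to the form
`ψ ↦ ∫ |∇ψ|² - α ∫ |ψ(γ(s))|² ds`.
-/

open MeasureTheory Filter Topology Set
open scoped ComplexConjugate

namespace Pool.Agent.Helper97.Leaky

/-- Euclidean distance in the plane. -/
noncomputable def pdist (p q : ℝ × ℝ) : ℝ := Real.sqrt ((p.1 - q.1) ^ 2 + (p.2 - q.2) ^ 2)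

/-- `γ` is continuous, piecewise `C¹` and parametrised by arc length: there is a finite set `S` of
break points such that `γ` is `C¹` on every closed interval without break point in its interior and
has a derivative of Euclidean norm `1` at every point outside `S`; and
`|γ(s) - γ(t)| ≤ |s - t|`. -/
structure IsArcCurve (γ : ℝ → ℝ × ℝ) : Prop where
  continuous : Continuous γ
  piecewise : ∃ S : Finset ℝ,
    (∀ a b : ℝ, a < b → (∀ s ∈ S, s ∉ Ioo a b) → ContDiffOn ℝ 1 γ (Icc a b)) ∧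
    (∀ s ∉ S, ∃ v : ℝ × ℝ, HasDerivAt γ v s ∧ v.1 ^ 2 + v.2 ^ 2 = 1)
  dist_le : ∀ s t : ℝ, pdist (γ s) (γ t) ≤ |s - t|

/-- condition (a1) -/
def A1 (γ : ℝ → ℝ × ℝ) : Prop :=
  ∃ c ∈ Ioo (0:ℝ) 1, ∀ s t : ℝ, c * |s - t| ≤ pdist (γ s) (γ t)

/-- condition (a2) -/
def A2 (γ : ℝ → ℝ × ℝ) : Prop :=
  ∃ d : ℝ, 0 < d ∧ ∃ μ : ℝ, 1 / 2 < μ ∧ ∃ ω ∈ Ioo (0:ℝ) 1, ∀ s t : ℝ, s ≠ t →
    ω < s / t → s / t < ω⁻¹ →
    1 - pdist (γ s) (γ t) / |s - t| ≤ d * (1 + |s + t| ^ (2 * μ)) ^ (-(1 / 2) : ℝ)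

/-- condition (a3) -/
def A3 (γ : ℝ → ℝ × ℝ) : Prop := ∃ s t : ℝ, pdist (γ s) (γ t) < |s - t|

/-- complex valued `C¹` functions of compact support on the plane -/
def IsTest (φ : ℝ × ℝ → ℂ) : Prop := ContDiff ℝ 1 φ ∧ HasCompactSupport φ

/-- partial derivative in the first variable -/
noncomputable def d1 (φ : ℝ × ℝ → ℂ) (p : ℝ × ℝ) : ℂ := fderiv ℝ φ p (1, 0)

/-- partial derivative in the second variable -/
noncomputable def d2 (φ : ℝ × ℝ → ℂ) (p : ℝ × ℝ) : ℂ := fderiv ℝ φ p (0, 1)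

/-- `g` is square integrable and `f n → g` in `L²` -/
def L2Lim {X : Type} [MeasureSpace X] (f : ℕ → X → ℂ) (g : X → ℂ) : Prop :=
  MemLp g 2 (volume : Measure X) ∧
    Tendsto (fun n => eLpNorm (fun x => f n x - g x) 2 (volume : Measure X)) atTop (𝓝 0)

/-- `ψ` belongs to the Sobolev space `W^{1,2}(ℝ²)`, has gradient `(ψ₁, ψ₂)` and has the trace `t` on
the curve `γ` (a function of the arc length): there are test functions `φ n` with `φ n → ψ`,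
`∂₁ φ n → ψ₁`, `∂₂ φ n → ψ₂` in `L²(ℝ²)` and `φ n ∘ γ → t` in `L²(ℝ)`. -/
def InFormDomain (γ : ℝ → ℝ × ℝ) (ψ ψ₁ ψ₂ : ℝ × ℝ → ℂ) (t : ℝ → ℂ) : Prop :=
  ∃ φ : ℕ → ℝ × ℝ → ℂ, (∀ n, IsTest (φ n)) ∧ L2Lim φ ψ ∧ L2Lim (fun n => d1 (φ n)) ψ₁ ∧
    L2Lim (fun n => d2 (φ n)) ψ₂ ∧ L2Lim (fun n s => φ n (γ s)) t

/-- `ψ` lies in the domain of the operator `H_{α,Γ}` of the form
`q(φ, ψ) = ∫ ∇φ̄ · ∇ψ - α ∫ φ̄(γ(s)) ψ(γ(s)) ds` on `W^{1,2}(ℝ²)` and `H_{α,Γ} ψ = E ψ`: it is in the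
form domain and `q(φ, ψ) = E ∫ φ̄ ψ` for all `φ` in the form core of `C¹` functions of compact
support. -/
def IsEigen (α : ℝ) (γ : ℝ → ℝ × ℝ) (E : ℝ) (ψ : ℝ × ℝ → ℂ) : Prop :=
  ∃ (ψ₁ ψ₂ : ℝ × ℝ → ℂ) (t : ℝ → ℂ), InFormDomain γ ψ ψ₁ ψ₂ t ∧
    ∀ φ : ℝ × ℝ → ℂ, IsTest φ →
      (∫ p, (conj (d1 φ p) * ψ₁ p + conj (d2 φ p) * ψ₂ p)) - α * ∫ s, conj (φ (γ s)) * t s
        = E * ∫ p, conj (φ p) * ψ p

/-- the eigenspace of `H_{α,Γ}` for `E`, as a set of elements of `L²(ℝ²)` -/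
def eigenspace (α : ℝ) (γ : ℝ → ℝ × ℝ) (E : ℝ) : Set (Lp ℂ 2 (volume : Measure (ℝ × ℝ))) :=
  {ψ | IsEigen α γ E ψ}

end Pool.Agent.Helper97.Leaky
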