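import Pool.Agent.Helper97.Leaky.Ineq
import Pool.Agent.Helper97.Leaky.Defs

open MeasureTheory Filter Topology Set intervalIntegral

namespace Pool.Agent.Helper97.Leaky

/-- clamp to `[-m/2, m/2]` -/
noncomputable def clampM (m s : ℝ) : ℝ := max (-(m / 2)) (min (m / 2) s)

/-- first coordinate in terms of arc length -/
noncomputable def Xc (m s : ℝ) : ℝ := s - (1 - 1 / m) * clampM m s

/-- arc length factor -/
noncomputable def mf (k : ℕ) (η : ℝ) : ℝ := Real.sqrt (1 + (4 * k * η) ^ 2)

/-- the curve -/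
noncomputable def gam (k : ℕ) (η : ℝ) (s : ℝ) : ℝ × ℝ := (Xc (mf k η) s, η * W k (Xc (mf k η) s))

section clamp

variable {m : ℝ}

lemma clampM_of_mem {s : ℝ} (h : s ∈ Icc (-(m / 2)) (m / 2)) : clampM m s = s := by
  unfold clampM
  rw [min_eq_right h.2, max_eq_right h.1]

lemma clampM_of_le {s : ℝ} (h : s ≤ -(m / 2)) : clampM m s = -(m / 2) := by
  unfold clampM
  rw [max_eq_left]
  exact (min_le_right _ _).trans h

lemma clampM_of_ge (hm : 0 < m) {s : ℝ} (h : m / 2 ≤ s) : clampM m s = m / 2 := by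
  unfold clampM
  rw [min_eq_left h, max_eq_right (by linarith)]

lemma clampM_neg (hm : 0 < m) (s : ℝ) : clampM m (-s) = - clampM m s := by
  rcases le_total s (-(m / 2)) with h | h
  · rw [clampM_of_le h, clampM_of_ge hm (by linarith)]; ring
  · rcases le_total s (m / 2) with h' | h'
    · rw [clampM_of_mem ⟨h, h'⟩, clampM_of_mem ⟨by linarith, by linarith⟩]
    · rw [clampM_of_ge hm h', clampM_of_le (by linarith)]

lemma clampM_mono (m : ℝ) : Monotone (clampM m) := by
  intro x y h
  unfold clampM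
  gcongr

lemma clampM_sub_le {s t : ℝ} (h : s ≤ t) : clampM m t - clampM m s ≤ t - s := by
  unfold clampM
  rcases le_total (m / 2) s with h1 | h1
  · rw [min_eq_left h1, min_eq_left (h1.trans h)]; linarith
  · rw [min_eq_right h1]
    have h2 : min (m / 2) t ≤ t := min_le_right _ _
    rcases le_total s (-(m / 2)) with h3 | h3
    · rw [max_eq_left h3]
      rcases le_total (-(m / 2)) (min (m / 2) t) with h4 | h4
      · rw [max_eq_right h4]; linarith
      · rw [max_eq_left h4]; linarith
    · rw [max_eq_right h3]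
      have h4 : s ≤ min (m / 2) t := le_min h1 h
      rw [max_eq_right (h3.trans h4)]; linarith

lemma continuous_clampM (m : ℝ) : Continuous (clampM m) := by
  unfold clampM; fun_prop

lemma continuous_Xc (m : ℝ) : Continuous (Xc m) := by
  have := continuous_clampM m
  unfold Xc; fun_prop

lemma Xc_of_mem (hm : 0 < m) {s : ℝ} (h : s ∈ Icc (-(m / 2)) (m / 2)) : Xc m s = s / m := by
  unfold Xc
  rw [clampM_of_mem h]
  field_simp
  ring

lemma Xc_of_le (hm : 0 < m) {s : ℝ} (h : s ≤ -(m / 2)) : Xc m s = s + (m - 1) / 2 := by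
  unfold Xc
  rw [clampM_of_le h]
  field_simp
  ring

lemma Xc_of_ge (hm : 0 < m) {s : ℝ} (h : m / 2 ≤ s) : Xc m s = s - (m - 1) / 2 := by
  unfold Xc
  rw [clampM_of_ge hm h]
  field_simp

lemma Xc_neg (hm : 0 < m) (s : ℝ) : Xc m (-s) = - Xc m s := by
  unfold Xc
  rw [clampM_neg hm]; ring

/-- clamping the first coordinate -/
lemma clampH_Xc (hm : 1 ≤ m) (s : ℝ) : clampH (Xc m s) = clampM m s / m := by
  have hm0 : 0 < m := by linarith
  rcases le_total s (-(m / 2)) with h | h
  · rw [Xc_of_le hm0 h, clampM_of_le h, clampH_of_le (by linarith)]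
    field_simp
  · rcases le_total s (m / 2) with h' | h'
    · rw [Xc_of_mem hm0 ⟨h, h'⟩, clampM_of_mem ⟨h, h'⟩, clampH_of_mem]
      constructor
      · rw [le_div_iff₀ hm0]; linarith
      · rw [div_le_iff₀ hm0]; linarith
    · rw [Xc_of_ge hm0 h', clampM_of_ge hm0 h', clampH_of_ge (by linarith)]
      field_simp

end clamp

section curve

variable {k : ℕ} {η : ℝ}

lemma one_le_mf (k : ℕ) (η : ℝ) : 1 ≤ mf k η := by
  unfold mf
  rw [Real.one_le_sqrt]
  nlinarith [sq_nonneg (4 * k * η)]

lemma one_lt_mf (hk : 0 < k) (hη : 0 < η) : 1 < mf k η := by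
  have hk' : (0:ℝ) < k := by exact_mod_cast hk
  unfold mf
  rw [Real.lt_sqrt (by norm_num)]
  have : 0 < 4 * k * η := by positivity
  nlinarith [sq_nonneg (4 * k * η), mul_pos this this]

lemma mf_sq (k : ℕ) (η : ℝ) : mf k η ^ 2 = 1 + (4 * k * η) ^ 2 := by
  unfold mf
  rw [Real.sq_sqrt (by positivity)]

lemma le_mf (k : ℕ) (η : ℝ) : 4 * k * η ≤ mf k η := by
  unfold mf
  apply Real.le_sqrt_of_sq_le
  linarith

lemma continuous_mf (k : ℕ) : Continuous (mf k) := by
  unfold mf; fun_prop

lemma continuous_gam (k : ℕ) (η : ℝ) : Continuous (gam k η) := by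
  have h1 := continuous_Xc (mf k η)
  have h2 := W_continuous k
  unfold gam
  fun_prop

lemma gam_neg (k : ℕ) (η s : ℝ) : gam k η (-s) = (-(gam k η s).1, (gam k η s).2) := by
  have hm : 0 < mf k η := lt_of_lt_of_le one_pos (one_le_mf k η)
  unfold gam
  rw [Xc_neg hm, W_neg]

/-- key distance computation, for ordered parameters -/
lemma gam_dist_le (hη : 0 ≤ η) {s t : ℝ} (h : s ≤ t) :
    ((gam k η t).1 - (gam k η s).1) ^ 2 + ((gam k η t).2 - (gam k η s).2) ^ 2 ≤ (t - s) ^ 2 := by
  set m := mf k η with hm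
  have hm1 : 1 ≤ m := one_le_mf k η
  have hm0 : 0 < m := by linarith
  set c := clampM m t - clampM m s with hc
  have hc0 : 0 ≤ c := sub_nonneg.2 (clampM_mono m h)
  have hc1 : c ≤ t - s := clampM_sub_le h
  have e1 : (gam k η t).1 - (gam k η s).1 = (t - s) - c + c / m := by
    simp only [gam, Xc, ← hm, hc]
    field_simp
    ring
  have e2 : |(gam k η t).2 - (gam k η s).2| ≤ (4 * k * η) * (c / m) := by
    simp only [gam, ← hm]
    rw [← mul_sub, abs_mul, abs_of_nonneg hη]
    have h1 := W_lip k (Xc m t) (Xc m s)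
    have hcm : 0 ≤ c / m := by positivity
    rw [clampH_Xc hm1, clampH_Xc hm1, ← sub_div, ← hc, abs_of_nonneg hcm] at h1
    calc η * |W k (Xc m t) - W k (Xc m s)| ≤ η * (4 * k * (c / m)) := by gcongr
      _ = _ := by ring
  have e3 : ((gam k η t).2 - (gam k η s).2) ^ 2 ≤ ((4 * k * η) * (c / m)) ^ 2 := by
    rw [← sq_abs]
    gcongr
  have e4 : ((4 * k * η) * (c / m)) ^ 2 = (m ^ 2 - 1) * (c / m) ^ 2 := by
    have := mf_sq k η
    rw [← hm] at this
    rw [mul_pow, this]; ring
  have e5 : (m ^ 2 - 1) * (c / m) ^ 2 = c ^ 2 - (c / m) ^ 2 := by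
    field_simp
  rw [e1]
  have e6 : c / m ≤ c := div_le_self hc0 hm1
  have e7 : 0 ≤ c / m := by positivity
  nlinarith

/-- the first coordinate increases at speed at least `1/m` -/
lemma gam_fst_ge {s t : ℝ} (h : s ≤ t) :
    (t - s) / mf k η ≤ (gam k η t).1 - (gam k η s).1 := by
  set m := mf k η with hm
  have hm1 : 1 ≤ m := one_le_mf k η
  have hm0 : 0 < m := by linarith
  set c := clampM m t - clampM m s with hc
  have hc1 : c ≤ t - s := clampM_sub_le h
  have e1 : (gam k η t).1 - (gam k η s).1 = (t - s) - c + c / m := by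
    simp only [gam, Xc, ← hm, hc]
    field_simp
    ring
  rw [e1, div_le_iff₀ hm0]
  have : ((t - s) - c + c / m) * m = ((t - s) - c) * m + c := by field_simp
  rw [this]
  nlinarith

lemma pdist_comm (p q : ℝ × ℝ) : pdist p q = pdist q p := by
  unfold pdist; congr 1; ring

lemma abs_fst_le_pdist (p q : ℝ × ℝ) : |p.1 - q.1| ≤ pdist p q := by
  unfold pdist
  apply Real.abs_le_sqrt
  nlinarith [sq_nonneg (p.2 - q.2)]

lemma gam_pdist_le (hη : 0 ≤ η) (s t : ℝ) : pdist (gam k η s) (gam k η t) ≤ |s - t| := by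
  wlog h : s ≤ t generalizing s t
  · rw [pdist_comm, abs_sub_comm]
    exact this t s (le_of_not_ge h)
  rw [pdist_comm, abs_sub_comm, abs_of_nonneg (sub_nonneg.2 h)]
  unfold pdist
  rw [Real.sqrt_le_left (sub_nonneg.2 h)]
  exact gam_dist_le hη h

lemma gam_pdist_ge (s t : ℝ) : 1 / mf k η * |s - t| ≤ pdist (gam k η s) (gam k η t) := by
  wlog h : s ≤ t generalizing s t
  · rw [pdist_comm, abs_sub_comm]
    exact this t s (le_of_not_ge h)
  rw [pdist_comm, abs_sub_comm, abs_of_nonneg (sub_nonneg.2 h)]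
  refine le_trans ?_ (abs_fst_le_pdist _ _)
  refine le_trans ?_ (le_abs_self _)
  have := gam_fst_ge (k := k) (η := η) h
  calc 1 / mf k η * (t - s) = (t - s) / mf k η := by ring
    _ ≤ _ := this

lemma gam_A1 (hk : 0 < k) (hη : 0 < η) : A1 (gam k η) := by
  have hm := one_lt_mf hk hη
  refine ⟨1 / mf k η, ⟨by positivity, ?_⟩, gam_pdist_ge⟩
  rw [div_lt_one (by linarith)]
  exact hm

lemma gam_of_ge {s : ℝ} (hs : mf k η / 2 ≤ s) :
    gam k η s = (s - (mf k η - 1) / 2, 0) := by
  have hm1 : 1 ≤ mf k η := one_le_mf k η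
  unfold gam
  rw [Xc_of_ge (by linarith) hs, W_of_ge k (by linarith), mul_zero]

lemma gam_of_le {s : ℝ} (hs : s ≤ -(mf k η / 2)) :
    gam k η s = (s + (mf k η - 1) / 2, 0) := by
  have hm1 : 1 ≤ mf k η := one_le_mf k η
  unfold gam
  rw [Xc_of_le (by linarith) hs, W_of_le k (by linarith), mul_zero]

lemma gam_A3 (hk : 0 < k) (hη : 0 < η) : A3 (gam k η) := by
  have hm := one_lt_mf hk hη
  refine ⟨mf k η / 2, -(mf k η / 2), ?_⟩
  rw [gam_of_ge le_rfl, gam_of_le le_rfl]
  unfold pdist
  have e : (mf k η / 2 - (mf k η - 1) / 2 - (-(mf k η / 2) + (mf k η - 1) / 2)) ^ 2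
      + ((0:ℝ) - 0) ^ 2 = 1 := by ring
  rw [e, Real.sqrt_one]
  rw [show mf k η / 2 - -(mf k η / 2) = mf k η by ring, abs_of_pos (by linarith)]
  exact hm

/-- condition (a2) for curves with two arms on the same line -/
lemma A2_of_arms {γ : ℝ → ℝ × ℝ} {R c : ℝ} (hR : 0 < R) (hp : ∀ s, R ≤ s → γ s = (s - c, 0))
    (hn : ∀ s, s ≤ -R → γ s = (s + c, 0)) : A2 γ := by
  -- constants: `μ = 1`, `ω = 1/2`
  refine ⟨(1 + (4 * R) ^ 2), by positivity, 1, by norm_num, 1 / 2, ⟨by norm_num, by norm_num⟩, ?_⟩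
  intro s t hst h1 h2
  have hd0 : 0 < |s - t| := abs_pos.2 (sub_ne_zero.2 hst)
  have hrhs0 : 0 ≤ (1 + (4 * R) ^ 2) * (1 + |s + t| ^ (2 * (1:ℝ))) ^ (-(1 / 2) : ℝ) := by positivity
  by_cases hbig : R ≤ |s| ∧ R ≤ |t|
  · -- same arm
    have hdist : pdist (γ s) (γ t) = |s - t| := by
      have hpos : 0 < s / t := by linarith
      rcases le_or_gt 0 t with ht | ht
      · have ht' : 0 < t := by
          rcases ht.eq_or_lt with h | h
          · rw [← h, div_zero] at hpos; exact absurd hpos (lt_irrefl _)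
          · exact h
        have hs' : 0 < s := by
          have := mul_pos hpos ht'
          rwa [div_mul_cancel₀ _ ht'.ne'] at this
        rw [abs_of_pos hs', abs_of_pos ht'] at hbig
        rw [hp _ hbig.1, hp _ hbig.2]
        unfold pdist
        rw [show (s - c - (t - c)) ^ 2 + ((0:ℝ) - 0) ^ 2
          = (s - t) ^ 2 by ring, Real.sqrt_sq_eq_abs]
      · have hs' : s < 0 := by
          have := mul_neg_of_pos_of_neg hpos ht
          rwa [div_mul_cancel₀ _ ht.ne] at this
        rw [abs_of_neg hs', abs_of_neg ht] at hbig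
        rw [hn _ (by linarith [hbig.1]), hn _ (by linarith [hbig.2])]
        unfold pdist
        rw [show (s + c - (t + c)) ^ 2 + ((0:ℝ) - 0) ^ 2
          = (s - t) ^ 2 by ring, Real.sqrt_sq_eq_abs]
    rw [hdist, div_self hd0.ne', sub_self]
    exact hrhs0
  · -- bounded region
    have hle1 : 1 - pdist (γ s) (γ t) / |s - t| ≤ 1 := by
      have : 0 ≤ pdist (γ s) (γ t) / |s - t| := by
        unfold pdist; positivity
      linarith
    refine hle1.trans ?_
    have hst_le : |s + t| ≤ 4 * R := by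
      have ht0 : t ≠ 0 := by
        rintro rfl
        rw [div_zero] at h1; norm_num at h1
      have hpos : 0 < s / t := by linarith
      have habs : |s| = s / t * |t| := by
        rw [← abs_of_pos hpos, abs_div, div_mul_cancel₀ _ (abs_pos.2 ht0).ne']
      have h2' : s / t < 2 := by
        have : ((1 / 2 : ℝ))⁻¹ = 2 := by norm_num
        linarith
      have ht' : 0 < |t| := abs_pos.2 ht0
      have b1 : |s| ≤ 2 * |t| := by rw [habs]; nlinarith
      have b2 : |t| ≤ 2 * |s| := by rw [habs]; nlinarith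
      have b3 : |s| < R ∨ |t| < R := by
        by_contra hcon
        push Not at hcon
        exact hbig hcon
      have b4 : |s + t| ≤ |s| + |t| := abs_add_le _ _
      rcases b3 with h | h <;> linarith
    have e1 : |s + t| ^ (2 * (1:ℝ)) ≤ (4 * R) ^ 2 := by
      have : |s + t| ^ (2 * (1:ℝ)) = |s + t| ^ 2 := by
        rw [mul_one]; exact_mod_cast Real.rpow_natCast |s + t| 2
      rw [this]
      gcongr
    set B := 1 + |s + t| ^ (2 * (1:ℝ)) with hB
    have hB1 : 1 ≤ B := by
      have : 0 ≤ |s + t| ^ (2 * (1:ℝ)) := by positivity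
      linarith
    have hB2 : B ≤ 1 + (4 * R) ^ 2 := by linarith
    calc (1:ℝ) = B * B ^ (-1 : ℝ) := by
          rw [Real.rpow_neg_one]; field_simp
      _ ≤ (1 + (4 * R) ^ 2) * B ^ (-(1 / 2) : ℝ) := by
          apply mul_le_mul hB2 _ (by positivity) (by positivity)
          exact Real.rpow_le_rpow_of_exponent_le hB1 (by norm_num)

lemma gam_A2 : A2 (gam k η) :=
  A2_of_arms (R := mf k η / 2) (by linarith [one_le_mf k η]) (fun _ hs => gam_of_ge hs)
    (fun _ hs => by rw [gam_of_le hs])

/-- nodes of the wave -/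
noncomputable def node (k j : ℕ) : ℝ := -(1 / 2) + (j : ℝ) / (4 * k : ℝ)

lemma node_zero (k : ℕ) : node k 0 = -(1 / 2) := by simp [node]

lemma node_last (hk : 0 < k) : node k (4 * k) = 1 / 2 := by
  have hk' : (0:ℝ) < k := by exact_mod_cast hk
  unfold node; push_cast; field_simp; norm_num

/-- between break points the curve is an affine map of unit speed -/
lemma gam_affine (hk : 0 < k) {a b : ℝ}
    (hS : ∀ j ≤ 4 * k, mf k η * node k j ∉ Ioo a b) :
    ∃ v w : ℝ × ℝ, v.1 ^ 2 + v.2 ^ 2 = 1 ∧ ∀ s ∈ Icc a b, gam k η s = w + s • v := by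
  have hk' : (0:ℝ) < k := by exact_mod_cast hk
  set m := mf k η with hm
  have hm1 : 1 ≤ m := one_le_mf k η
  have hm0 : 0 < m := by linarith
  have hS0 : -(m / 2) ∉ Ioo a b := by
    have := hS 0 (Nat.zero_le _)
    rwa [node_zero, show m * -(1 / 2) = -(m / 2) by ring] at this
  have hS1 : m / 2 ∉ Ioo a b := by
    have := hS (4 * k) le_rfl
    rwa [node_last hk, show m * (1 / 2) = m / 2 by ring] at this
  rcases le_or_gt b (-(m / 2)) with hb | hb
  · refine ⟨(1, 0), ((m - 1) / 2, 0), by norm_num, fun s hs => ?_⟩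
    rw [gam_of_le (by rw [← hm]; linarith [hs.2]), ← hm]
    ext <;> simp; ring
  rcases le_or_gt (m / 2) a with ha | ha
  · refine ⟨(1, 0), (-((m - 1) / 2), 0), by norm_num, fun s hs => ?_⟩
    rw [gam_of_ge (by rw [← hm]; linarith [hs.1]), ← hm]
    ext <;> simp; ring
  have ha' : -(m / 2) ≤ a := by
    by_contra hcon
    push Not at hcon
    exact hS0 ⟨hcon, hb⟩
  have hb' : b ≤ m / 2 := by
    by_contra hcon
    push Not at hcon
    exact hS1 ⟨ha, hcon⟩
  -- the index of the piece
  have hx0 : 0 ≤ (a / m + 1 / 2) * (4 * k) := by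
    have : -(1 / 2) ≤ a / m := by rw [le_div_iff₀ hm0]; linarith
    have h2 : 0 ≤ a / m + 1 / 2 := by linarith
    positivity
  set j := ⌊(a / m + 1 / 2) * (4 * k)⌋₊ with hj
  have hj1 : (j:ℝ) ≤ (a / m + 1 / 2) * (4 * k) := Nat.floor_le hx0
  have hj2 : (a / m + 1 / 2) * (4 * k) < (j:ℝ) + 1 := Nat.lt_floor_add_one _
  have hn1 : node k j ≤ a / m := by
    unfold node
    have : (j:ℝ) / (4 * k) ≤ a / m + 1 / 2 := by rw [div_le_iff₀ (by positivity)]; exact hj1
    linarith
  have hn2 : a / m < node k (j + 1) := by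
    unfold node
    push_cast
    have : a / m + 1 / 2 < ((j:ℝ) + 1) / (4 * k) := by
      rw [lt_div_iff₀ (by positivity)]; exact hj2
    linarith
  have hj4 : j < 4 * k := by
    have h1 : a / m < 1 / 2 := by rw [div_lt_iff₀ hm0]; linarith
    have h2 : (j:ℝ) < 4 * k := by nlinarith
    exact_mod_cast h2
  have hb2 : b ≤ m * node k (j + 1) := by
    by_contra hcon
    push Not at hcon
    apply hS (j + 1) (by omega)
    refine ⟨?_, hcon⟩
    rw [div_lt_iff₀ hm0] at hn2
    linarith
  have ha2 : m * node k j ≤ a := by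
    rw [le_div_iff₀ hm0] at hn1
    linarith
  have hmem : ∀ s ∈ Icc a b, s / m ∈ Icc (node k j) (node k (j + 1)) := by
    intro s hs
    constructor
    · rw [le_div_iff₀ hm0]; linarith [hs.1]
    · rw [div_le_iff₀ hm0]; linarith [hs.2]
  have hXc : ∀ s ∈ Icc a b, Xc m s = s / m := by
    intro s hs
    exact Xc_of_mem hm0 ⟨by linarith [hs.1], by linarith [hs.2]⟩
  have hsq := mf_sq k η
  rw [← hm] at hsq
  rcases Nat.even_or_odd' j with ⟨i, hi | hi⟩
  · refine ⟨(1 / m, 4 * k * η / m), (0, - (η * (4 * k * node k j))), ?_, fun s hs => ?_⟩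
    · simp only
      field_simp
      rw [hsq]
      ring
    · have h1 := W_even_piece (x := s / m) hk (i := i) (by omega) (by
        have := hmem s hs
        rw [hi] at this
        exact this)
      unfold gam
      rw [← hm, hXc s hs, h1]
      ext
      · simp; ring
      · simp only [Prod.snd_add, Prod.smul_snd, smul_eq_mul, hi, node]
        ring
  · refine ⟨(1 / m, - (4 * k * η / m)), (0, η * (4 * k * node k (j + 1))), ?_, fun s hs => ?_⟩
    · simp only
      field_simp
      rw [hsq]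
      ring
    · have h1 := W_odd_piece (x := s / m) hk (i := i) (by omega) (by
        have := hmem s hs
        rw [hi] at this
        exact this)
      unfold gam
      rw [← hm, hXc s hs, h1]
      ext
      · simp; ring
      · simp only [Prod.snd_add, Prod.smul_snd, smul_eq_mul, hi, node]
        ring

theorem gam_arc (hk : 0 < k) (hη : 0 ≤ η) : IsArcCurve (gam k η) where
  continuous := continuous_gam k η
  dist_le := gam_pdist_le hη
  piecewise := by
    classical
    set S : Finset ℝ := (Finset.range (4 * k + 1)).image fun j => mf k η * node k j with hS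
    have hnot : ∀ a b : ℝ, (∀ s ∈ S, s ∉ Ioo a b) → ∀ j ≤ 4 * k, mf k η * node k j ∉ Ioo a b := by
      intro a b h j hj
      apply h
      rw [hS, Finset.mem_image]
      exact ⟨j, by rw [Finset.mem_range]; omega, rfl⟩
    refine ⟨S, ?_, ?_⟩
    · intro a b _ h
      obtain ⟨v, w, -, hvw⟩ := gam_affine hk (hnot a b h)
      have : ContDiffOn ℝ 1 (fun s : ℝ => w + s • v) (Icc a b) := by fun_prop
      exact this.congr hvw
    · intro s hs
      have hopen : IsOpen ((S : Set ℝ)ᶜ) := S.finite_toSet.isClosed.isOpen_compl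
      obtain ⟨ε, hε, hball⟩ := Metric.isOpen_iff.1 hopen s (by simpa using hs)
      obtain ⟨v, w, hv, hvw⟩ := gam_affine (η := η) hk (a := s - ε) (b := s + ε)
        (hnot _ _ (by
          intro t ht htm
          have : t ∈ Metric.ball s ε := by
            rw [Metric.mem_ball, Real.dist_eq, abs_lt]
            constructor <;> linarith [htm.1, htm.2]
          exact hball this ht))
      refine ⟨v, ?_, hv⟩
      have h1 : HasDerivAt (fun s : ℝ => w + s • v) v s := by
        have := ((hasDerivAt_id' s).smul_const v).const_add w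
        simpa using this
      refine h1.congr_of_eventuallyEq ?_
      have : Icc (s - ε) (s + ε) ∈ 𝓝 s := Icc_mem_nhds (by linarith) (by linarith)
      filter_upwards [this] with t ht
      exact hvw t ht

/-- change of variables from arc length to the first coordinate -/
lemma integral_comp_Xc {m : ℝ} (hm : 1 ≤ m) {f : ℝ → ℝ} (hf : Continuous f) {T : ℝ}
    (hT : 1 / 2 ≤ T) (h0 : ∀ x, T ≤ |x| → f x = 0) :
    ∫ s, f (Xc m s) = (∫ x in (-T)..T, f x) + (m - 1) * ∫ x in (-(1 / 2) : ℝ)..(1 / 2), f x := by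
  have hm0 : 0 < m := by linarith
  have hX := continuous_Xc m
  set S : ℝ := T + (m - 1) / 2 with hS
  have hSm : m / 2 ≤ S := by rw [hS]; linarith
  have hc : Continuous fun s => f (Xc m s) := hf.comp hX
  have h1 : ∫ s, f (Xc m s) = ∫ s in Ioc (-S) S, f (Xc m s) := by
    symm
    apply setIntegral_eq_integral_of_forall_compl_eq_zero
    intro s hs
    apply h0
    by_contra hcon
    push Not at hcon
    apply hs
    rw [abs_lt] at hcon
    rcases le_total s (-(m / 2)) with h | h
    · rw [Xc_of_le hm0 h] at hcon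
      exact ⟨by linarith [hcon.1], by linarith⟩
    · rcases le_total s (m / 2) with h' | h'
      · refine ⟨?_, by linarith⟩
        rcases hSm.eq_or_lt with h2 | h2
        · rcases h.eq_or_lt with h3 | h3
          · exfalso
            rw [← h3, Xc_of_le hm0 le_rfl] at hcon
            linarith [hcon.1]
          · linarith
        · linarith
      · rw [Xc_of_ge hm0 h'] at hcon
        exact ⟨by linarith, by linarith [hcon.2]⟩
  rw [h1, ← intervalIntegral.integral_of_le (by linarith)]
  have hi : ∀ a b : ℝ, IntervalIntegrable (fun s => f (Xc m s)) volume a b := fun a b =>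
    hc.intervalIntegrable _ _
  have hif : ∀ a b : ℝ, IntervalIntegrable f volume a b := fun a b => hf.intervalIntegrable _ _
  rw [← integral_add_adjacent_intervals (hi (-S) (-(m / 2))) (hi (-(m / 2)) S),
    ← integral_add_adjacent_intervals (hi (-(m / 2)) (m / 2)) (hi (m / 2) S)]
  have e1 : ∫ s in (-S)..(-(m / 2)), f (Xc m s) = ∫ x in (-T)..(-(1 / 2)), f x := by
    have : ∫ s in (-S)..(-(m / 2)), f (Xc m s)
        = ∫ s in (-S)..(-(m / 2)), f (s + (m - 1) / 2) := by
      apply integral_congr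
      intro s hs
      rw [uIcc_of_le (by linarith)] at hs
      simp only
      rw [Xc_of_le hm0 hs.2]
    rw [this, integral_comp_add_right]
    congr 1
    · rw [hS]; ring
    · ring
  have e2 : ∫ s in (-(m / 2))..(m / 2), f (Xc m s) = m * ∫ x in (-(1 / 2) : ℝ)..(1 / 2), f x := by
    have : ∫ s in (-(m / 2))..(m / 2), f (Xc m s) = ∫ s in (-(m / 2))..(m / 2), f (s / m) := by
      apply integral_congr
      intro s hs
      rw [uIcc_of_le (by linarith)] at hs
      simp only
      rw [Xc_of_mem hm0 hs]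
    rw [this, integral_comp_div _ hm0.ne', smul_eq_mul]
    congr 2
    · field_simp
    · field_simp
  have e3 : ∫ s in (m / 2)..S, f (Xc m s) = ∫ x in (1 / 2)..T, f x := by
    have : ∫ s in (m / 2)..S, f (Xc m s) = ∫ s in (m / 2)..S, f (s - (m - 1) / 2) := by
      apply integral_congr
      intro s hs
      rw [uIcc_of_le (by linarith)] at hs
      simp only
      rw [Xc_of_ge hm0 hs.1]
    rw [this, integral_comp_sub_right]
    congr 1
    · ring
    · rw [hS]; ring
  rw [e1, e2, e3, ← integral_add_adjacent_intervals (hif (-T) (-(1 / 2))) (hif (-(1 / 2)) T),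
    ← integral_add_adjacent_intervals (hif (-(1 / 2)) (1 / 2)) (hif (1 / 2) T)]
  ring

end curve

end Pool.Agent.Helper97.Leaky
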