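import Pool.Agent.Helper97.Leaky.Cross

open MeasureTheory Filter Topology Set
open scoped InnerProductSpace ComplexConjugate

namespace Pool.Agent.Helper97.Leaky

/-! ### parity -/

/-- reflection -/
noncomputable def refl : ℝ × ℝ ≃ᵐ ℝ × ℝ :=
  MeasurableEquiv.prodCongr (MeasurableEquiv.neg ℝ) (MeasurableEquiv.refl ℝ)

lemma refl_apply (p : ℝ × ℝ) : refl p = (-p.1, p.2) := rfl

lemma refl_mp : MeasurePreserving refl (volume : Measure (ℝ × ℝ)) volume := by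
  have h1 : MeasurePreserving (fun x : ℝ => -x) volume volume := Measure.measurePreserving_neg _
  have h2 : MeasurePreserving (id : ℝ → ℝ) volume volume := MeasurePreserving.id _
  exact h1.prod h2

lemma integral_odd {f : ℝ × ℝ → ℝ} (hf : ∀ x y, f (-x, y) = - f (x, y)) : ∫ p, f p = 0 := by
  have h1 : ∫ p, f (refl p) = ∫ p, f p := refl_mp.integral_comp refl.measurableEmbedding f
  have h2 : ∫ p, f (refl p) = - ∫ p, f p := by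
    rw [← integral_neg]
    congr 1
    ext p
    rw [refl_apply, hf]
  linarith

lemma integral_odd1 {f : ℝ → ℝ} (hf : ∀ x, f (-x) = - f x) : ∫ x, f x = 0 := by
  have h1 : ∫ x, f (-x) = ∫ x, f x := integral_neg_eq_self f volume
  have h2 : ∫ x, f (-x) = - ∫ x, f x := by
    rw [← integral_neg]
    congr 1
    ext x
    rw [hf]
  linarith

variable {σ : ℝ}

lemma dX_parity (φ : Wsp σ) (x y : ℝ) :
    dX (φ : ℝ × ℝ → ℝ) (-x, y) = - σ * dX (φ : ℝ × ℝ → ℝ) (x, y) := by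
  have h1 : HasDerivAt (fun t => (φ : ℝ × ℝ → ℝ) (-t, y)) (- dX (φ : ℝ × ℝ → ℝ) (-x, y)) x :=
    ((derivX (tstOf φ).1 (-x) y).scomp x (hasDerivAt_neg x)).congr_deriv (by simp)
  have h2 : HasDerivAt (fun t => (φ : ℝ × ℝ → ℝ) (-t, y)) (σ * dX (φ : ℝ × ℝ → ℝ) (x, y)) x := by
    have e : (fun t => (φ : ℝ × ℝ → ℝ) (-t, y)) = fun t => σ * (φ : ℝ × ℝ → ℝ) (t, y) :=
      funext fun t => φ.2.2 t y
    rw [e]
    exact (derivX (tstOf φ).1 x y).const_mul σ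
  have := h1.unique h2
  linarith

lemma dY_parity (φ : Wsp σ) (x y : ℝ) :
    dY (φ : ℝ × ℝ → ℝ) (-x, y) = σ * dY (φ : ℝ × ℝ → ℝ) (x, y) := by
  have h1 := derivY (tstOf φ).1 (-x) y
  have h2 : HasDerivAt (fun t => (φ : ℝ × ℝ → ℝ) (-x, t)) (σ * dY (φ : ℝ × ℝ → ℝ) (x, y)) y := by
    have e : (fun t => (φ : ℝ × ℝ → ℝ) (-x, t)) = fun t => σ * (φ : ℝ × ℝ → ℝ) (x, t) :=
      funext fun t => φ.2.2 x t
    rw [e]
    exact (derivY (tstOf φ).1 x y).const_mul σ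
  exact h1.unique h2

/-- even and odd test functions are orthogonal -/
lemma orth0 (hσ : σ ^ 2 = 1) (φ : Wsp σ) (χ : Wsp (-σ)) :
    ∫ p, (φ : ℝ × ℝ → ℝ) p * (χ : ℝ × ℝ → ℝ) p = 0 := by
  apply integral_odd
  intro x y
  rw [φ.2.2 x y, χ.2.2 x y]
  linear_combination (-((φ : ℝ × ℝ → ℝ) (x, y) * (χ : ℝ × ℝ → ℝ) (x, y))) * hσ

lemma orthJ (hσ : σ ^ 2 = 1) (φ : Wsp σ) (χ : Wsp (-σ)) : ⟪J σ φ, J (-σ) χ⟫_ℝ = 0 := by
  rw [inner_J, orth0 hσ]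
  have h1 : ∫ p, dX (φ : ℝ × ℝ → ℝ) p * dX (χ : ℝ × ℝ → ℝ) p = 0 := by
    apply integral_odd
    intro x y
    rw [dX_parity φ, dX_parity χ]
    linear_combination (-(dX (φ : ℝ × ℝ → ℝ) (x, y) * dX (χ : ℝ × ℝ → ℝ) (x, y))) * hσ
  have h2 : ∫ p, dY (φ : ℝ × ℝ → ℝ) p * dY (χ : ℝ × ℝ → ℝ) p = 0 := by
    apply integral_odd
    intro x y
    rw [dY_parity φ, dY_parity χ]
    linear_combination (-(dY (φ : ℝ × ℝ → ℝ) (x, y) * dY (χ : ℝ × ℝ → ℝ) (x, y))) * hσ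
  rw [h1, h2]
  ring

lemma orthTr (hσ : σ ^ 2 = 1) (k : ℕ) (η : ℝ) (φ : Wsp σ) (χ : Wsp (-σ)) :
    ⟪tr σ k η φ, tr (-σ) k η χ⟫_ℝ = 0 := by
  rw [inner_tr]
  apply integral_odd1
  intro s
  rw [gam_neg]
  have h1 := φ.2.2 (gam k η s).1 (gam k η s).2
  have h2 := χ.2.2 (gam k η s).1 (gam k η s).2
  rw [h1, h2]
  linear_combination (-((φ : ℝ × ℝ → ℝ) (gam k η s) * (χ : ℝ × ℝ → ℝ) (gam k η s))) * hσ

/-- parity part of a test function -/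
noncomputable def part (σ : ℝ) (χ : ℝ × ℝ → ℝ) : ℝ × ℝ → ℝ :=
  fun p => (χ p + σ * χ (-p.1, p.2)) / 2

lemma part_mem (hσ : σ ^ 2 = 1) {χ : ℝ × ℝ → ℝ} (h : Tst χ) : part σ χ ∈ Wsp σ := by
  have hcd : ContDiff ℝ 1 fun p : ℝ × ℝ => χ (-p.1, p.2) := by
    have h1 := h.1
    fun_prop
  have hcs : HasCompactSupport fun p : ℝ × ℝ => χ (-p.1, p.2) := by
    obtain ⟨T, _, hB⟩ := h.exists_Bx 0
    apply HasCompactSupport.intro (K := Icc (-T) T ×ˢ Icc (-T) T)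
      (isCompact_Icc.prod isCompact_Icc)
    intro p hp
    apply hB.zero
    by_contra hcon
    push Not at hcon
    apply hp
    rw [abs_neg] at hcon
    have h1 := abs_lt.1 hcon.1
    have h2 := abs_lt.1 hcon.2
    exact ⟨⟨h1.1.le, h1.2.le⟩, ⟨h2.1.le, h2.2.le⟩⟩
  have e : part σ χ = (1 / 2 : ℝ) • (χ + σ • fun p : ℝ × ℝ => χ (-p.1, p.2)) := by
    ext p
    simp only [part, Pi.smul_apply, Pi.add_apply, smul_eq_mul]
    ring
  refine ⟨?_, fun x y => ?_⟩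
  · rw [e]
    exact (h.add (Tst.smul ⟨hcd, hcs⟩ σ)).smul _
  · simp only [part, neg_neg]
    linear_combination (-(χ (-x, y) / 2)) * hσ

lemma part_add (σ : ℝ) (χ : ℝ × ℝ → ℝ) : part σ χ + part (-σ) χ = χ := by
  ext p
  simp only [part, Pi.add_apply]
  ring

/-! ### the eigenvalue equation for real test functions -/

/-- orthogonality passes to the closure -/
lemma inner_opp (hσ : σ ^ 2 = 1) (u : Hs σ) (χ : Wsp (-σ)) : ⟪(u : Amb), J (-σ) χ⟫_ℝ = 0 := by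
  obtain ⟨φ, hφ⟩ := exists_seq u
  have hc : Continuous fun u : Hs σ => ⟪(u : Amb), J (-σ) χ⟫_ℝ := by fun_prop
  have h1 := (hc.tendsto u).comp hφ
  have h2 : ((fun u : Hs σ => ⟪(u : Amb), J (-σ) χ⟫_ℝ) ∘ fun n => e σ (φ n)) = fun _ => 0 := by
    ext n
    simp only [Function.comp_apply, e_coe]
    exact orthJ hσ _ _
  rw [h2] at h1
  exact (tendsto_nhds_unique h1 tendsto_const_nhds)

lemma inner_opp_tr (hσ : σ ^ 2 = 1) {k : ℕ} {η : ℝ} (hη : 0 ≤ η) (hη4 : η ≤ 4) (u : Hs σ)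
    (χ : Wsp (-σ)) : ⟪Tr σ k η u, tr (-σ) k η χ⟫_ℝ = 0 := by
  obtain ⟨φ, hφ⟩ := exists_seq u
  have hc : Continuous fun u : Hs σ => ⟪Tr σ k η u, tr (-σ) k η χ⟫_ℝ := by fun_prop
  have h1 := (hc.tendsto u).comp hφ
  have h2 : ((fun u : Hs σ => ⟪Tr σ k η u, tr (-σ) k η χ⟫_ℝ) ∘ fun n => e σ (φ n))
      = fun _ => 0 := by
    ext n
    simp only [Function.comp_apply]
    rw [Tr_e hη hη4]
    exact orthTr hσ k η _ _
  rw [h2] at h1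
  exact (tendsto_nhds_unique h1 tendsto_const_nhds)

/-- inner product with a test function, written as integrals -/
lemma inner_Amb (u : Amb) (χ : Wsp σ) : ⟪u, J σ χ⟫_ℝ
    = (∫ p, u 0 p * (χ : ℝ × ℝ → ℝ) p) + (∫ p, u 1 p * dX (χ : ℝ × ℝ → ℝ) p)
      + ∫ p, u 2 p * dY (χ : ℝ × ℝ → ℝ) p := by
  rw [PiLp.inner_apply, Fin.sum_univ_three, J_0, J_1, J_2, inner_Lp_toLp, inner_Lp_toLp,
    inner_Lp_toLp]

/-- products of `L²` functions with test functions are integrable -/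
lemma integrable_mul_L2 {α : Type*} [MeasurableSpace α] {μ : Measure α} (u : Lp ℝ 2 μ)
    {g : α → ℝ} (hg : MemLp g 2 μ) : Integrable (fun x => u x * g x) μ :=
  (Lp.memLp u).integrable_mul hg

/-- **eigenvalue equation** against all real test functions -/
theorem eigen_real (hσ : σ ^ 2 = 1) {k : ℕ} {η : ℝ} (hη : 0 ≤ η) (hη4 : η ≤ 4) {lam : ℝ}
    (u : Hs σ) (hu : ∀ v, ⟪Tr σ k η u, Tr σ k η v⟫_ℝ = lam * ⟪u, v⟫_ℝ) {χ : ℝ × ℝ → ℝ}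
    (hχ : Tst χ) :
    ∫ s, (Tr σ k η u) s * χ (gam k η s)
      = lam * ((∫ p, (u : Amb) 0 p * χ p) + (∫ p, (u : Amb) 1 p * dX χ p)
        + ∫ p, (u : Amb) 2 p * dY χ p) := by
  have hσ' : (-σ) ^ 2 = 1 := by rw [neg_sq]; exact hσ
  set χ1 : Wsp σ := ⟨part σ χ, part_mem hσ hχ⟩ with hχ1
  set χ2 : Wsp (-σ) := ⟨part (-σ) χ, part_mem hσ' hχ⟩ with hχ2
  have hsum : (χ1 : ℝ × ℝ → ℝ) + (χ2 : ℝ × ℝ → ℝ) = χ := part_add σ χ
  have hp : ∀ p, χ p = (χ1 : ℝ × ℝ → ℝ) p + (χ2 : ℝ × ℝ → ℝ) p := fun p => by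
    rw [← hsum]; rfl
  have hpX : ∀ p, dX χ p = dX (χ1 : ℝ × ℝ → ℝ) p + dX (χ2 : ℝ × ℝ → ℝ) p := fun p => by
    rw [← hsum, dX_add (tstOf χ1).1 (tstOf χ2).1]; rfl
  have hpY : ∀ p, dY χ p = dY (χ1 : ℝ × ℝ → ℝ) p + dY (χ2 : ℝ × ℝ → ℝ) p := fun p => by
    rw [← hsum, dY_add (tstOf χ1).1 (tstOf χ2).1]; rfl
  -- equations for the two parts
  have q1 : ∫ s, (Tr σ k η u) s * (χ1 : ℝ × ℝ → ℝ) (gam k η s)
      = lam * ((∫ p, (u : Amb) 0 p * (χ1 : ℝ × ℝ → ℝ) p)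
        + (∫ p, (u : Amb) 1 p * dX (χ1 : ℝ × ℝ → ℝ) p)
        + ∫ p, (u : Amb) 2 p * dY (χ1 : ℝ × ℝ → ℝ) p) := by
    have h1 := hu (e σ χ1)
    rw [Tr_e hη hη4] at h1
    have h2 : ⟪Tr σ k η u, tr σ k η χ1⟫_ℝ
        = ∫ s, (Tr σ k η u) s * (χ1 : ℝ × ℝ → ℝ) (gam k η s) :=
      inner_Lp_toLp _ (gam_memLp (tstOf χ1) k η)
    have h3 : ⟪u, e σ χ1⟫_ℝ = ⟪(u : Amb), J σ χ1⟫_ℝ := rfl
    rw [h2, h3, inner_Amb] at h1
    exact h1
  have q2 : ∫ s, (Tr σ k η u) s * (χ2 : ℝ × ℝ → ℝ) (gam k η s) = 0 := by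
    have h2 : ⟪Tr σ k η u, tr (-σ) k η χ2⟫_ℝ
        = ∫ s, (Tr σ k η u) s * (χ2 : ℝ × ℝ → ℝ) (gam k η s) :=
      inner_Lp_toLp _ (gam_memLp (tstOf χ2) k η)
    rw [← h2]
    exact inner_opp_tr hσ hη hη4 u χ2
  have q3 : (∫ p, (u : Amb) 0 p * (χ2 : ℝ × ℝ → ℝ) p)
        + (∫ p, (u : Amb) 1 p * dX (χ2 : ℝ × ℝ → ℝ) p)
        + ∫ p, (u : Amb) 2 p * dY (χ2 : ℝ × ℝ → ℝ) p = 0 := by
    rw [← inner_Amb]
    exact inner_opp hσ u χ2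
  -- split all integrals
  have s0 : ∫ s, (Tr σ k η u) s * χ (gam k η s)
      = (∫ s, (Tr σ k η u) s * (χ1 : ℝ × ℝ → ℝ) (gam k η s))
        + ∫ s, (Tr σ k η u) s * (χ2 : ℝ × ℝ → ℝ) (gam k η s) := by
    rw [← MeasureTheory.integral_add (integrable_mul_L2 _ (gam_memLp (tstOf χ1) k η))
      (integrable_mul_L2 _ (gam_memLp (tstOf χ2) k η))]
    congr 1; ext s; rw [hp]; ring
  have s1 : ∫ p, (u : Amb) 0 p * χ p = (∫ p, (u : Amb) 0 p * (χ1 : ℝ × ℝ → ℝ) p)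
      + ∫ p, (u : Amb) 0 p * (χ2 : ℝ × ℝ → ℝ) p := by
    rw [← MeasureTheory.integral_add (integrable_mul_L2 _ (tstOf χ1).memLp)
      (integrable_mul_L2 _ (tstOf χ2).memLp)]
    congr 1; ext p; rw [hp]; ring
  have s2 : ∫ p, (u : Amb) 1 p * dX χ p = (∫ p, (u : Amb) 1 p * dX (χ1 : ℝ × ℝ → ℝ) p)
      + ∫ p, (u : Amb) 1 p * dX (χ2 : ℝ × ℝ → ℝ) p := by
    rw [← MeasureTheory.integral_add (integrable_mul_L2 _ (tstOf χ1).memLpX)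
      (integrable_mul_L2 _ (tstOf χ2).memLpX)]
    congr 1; ext p; rw [hpX]; ring
  have s3 : ∫ p, (u : Amb) 2 p * dY χ p = (∫ p, (u : Amb) 2 p * dY (χ1 : ℝ × ℝ → ℝ) p)
      + ∫ p, (u : Amb) 2 p * dY (χ2 : ℝ × ℝ → ℝ) p := by
    rw [← MeasureTheory.integral_add (integrable_mul_L2 _ (tstOf χ1).memLpY)
      (integrable_mul_L2 _ (tstOf χ2).memLpY)]
    congr 1; ext p; rw [hpY]; ring
  rw [s0, s1, s2, s3, q1, q2]
  linear_combination (-lam) * q3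

/-- the function component does not vanish -/
lemma comp_ne_zero {k : ℕ} {η : ℝ} (hη : 0 ≤ η) (hη4 : η ≤ 4) {lam : ℝ} (hlam : 0 < lam)
    (u : Hs σ) (hu1 : ‖u‖ = 1)
    (hu : ∀ v, ⟪Tr σ k η u, Tr σ k η v⟫_ℝ = lam * ⟪u, v⟫_ℝ) : (u : Amb) 0 ≠ 0 := by
  intro h0
  have h1 : ‖Tr σ k η u‖ ^ 2 = lam := by
    rw [← real_inner_self_eq_norm_sq, hu u, real_inner_self_eq_norm_sq, hu1]; ring
  have hm := one_le_mf k η
  have h2 := Tr_kappa (k := k) hη hη4 (κ := mf k η / lam) (by positivity) u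
  rw [h0, norm_zero, hu1, h1] at h2
  have h3 : mf k η / 2 * (mf k η / lam * 0 ^ 2 + (mf k η / lam)⁻¹ * 1 ^ 2) = lam / 2 := by
    have : mf k η ≠ 0 := by positivity
    field_simp
    ring
  rw [h3] at h2
  linarith

/-- function components of opposite parity are orthogonal -/
lemma comp_orth (hσ : σ ^ 2 = 1) (u : Hs σ) (v : Hs (-σ)) : ⟪(u : Amb) 0, (v : Amb) 0⟫_ℝ = 0 := by
  have step1 : ∀ χ : Wsp (-σ), ⟪(u : Amb) 0, J (-σ) χ 0⟫_ℝ = 0 := by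
    intro χ
    obtain ⟨φ, hφ⟩ := exists_seq u
    have hc0 : Continuous fun u : Hs σ => (u : Amb) 0 :=
      (PiLp.continuous_apply 2 _ 0).comp continuous_subtype_val
    have hc : Continuous fun u : Hs σ => ⟪(u : Amb) 0, J (-σ) χ 0⟫_ℝ := by fun_prop
    have h1 := (hc.tendsto u).comp hφ
    have h2 : ((fun u : Hs σ => ⟪(u : Amb) 0, J (-σ) χ 0⟫_ℝ) ∘ fun n => e σ (φ n))
        = fun _ => 0 := by
      ext n
      simp only [Function.comp_apply, e_coe]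
      rw [J_0, J_0, inner_toLp]
      exact orth0 hσ _ _
    rw [h2] at h1
    exact (tendsto_nhds_unique h1 tendsto_const_nhds)
  obtain ⟨χ, hχ⟩ := exists_seq v
  have hc0 : Continuous fun v : Hs (-σ) => (v : Amb) 0 :=
    (PiLp.continuous_apply 2 _ 0).comp continuous_subtype_val
  have hc : Continuous fun v : Hs (-σ) => ⟪(u : Amb) 0, (v : Amb) 0⟫_ℝ := by fun_prop
  have h1 := (hc.tendsto v).comp hχ
  have h2 : ((fun v : Hs (-σ) => ⟪(u : Amb) 0, (v : Amb) 0⟫_ℝ) ∘ fun n => e (-σ) (χ n))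
      = fun _ => 0 := by
    ext n
    simp only [Function.comp_apply, e_coe]
    exact step1 _
  rw [h2] at h1
  exact (tendsto_nhds_unique h1 tendsto_const_nhds)

end Pool.Agent.Helper97.Leaky
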