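import Pool.Agent.Helper97.Leaky.Curve

open MeasureTheory Filter Topology Set intervalIntegral

namespace Pool.Agent.Helper97.Leaky

/-- trace form -/
noncomputable def bform (k : ℕ) (η : ℝ) (φ : ℝ × ℝ → ℝ) : ℝ := ∫ s, φ (gam k η s) ^ 2

/-- averaged form -/
noncomputable def beta (η : ℝ) (φ : ℝ × ℝ → ℝ) : ℝ :=
  1 / η * I2 (fun p => φ p ^ 2) (-(1 / 2)) (1 / 2) 0 η

namespace Bx

variable {φ : ℝ × ℝ → ℝ} {T : ℝ} {k : ℕ} {η : ℝ}

lemma b_eq (h : Bx T φ) (hT : 4 ≤ T) : bform k η φ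
    = (∫ x in (-T)..T, φ (x, η * W k x) ^ 2)
      + (mf k η - 1) * ∫ x in (-(1 / 2) : ℝ)..(1 / 2), φ (x, η * W k x) ^ 2 := by
  have hc := h.cont
  have hW := W_continuous k
  have := integral_comp_Xc (one_le_mf k η) (f := fun x => φ (x, η * W k x) ^ 2) (by fun_prop)
    (T := T) (by linarith) (fun x hx => by rw [h.zero _ (Or.inl hx)]; ring)
  exact this

lemma W_mem (hη : 0 ≤ η) (hη4 : η ≤ 4) (hT : 4 ≤ T) (x : ℝ) : η * W k x ∈ Icc (-T) T := by
  have h1 := W_nonneg k x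
  have h2 := W_le_one k x
  constructor
  · have : 0 ≤ η * W k x := by positivity
    linarith
  · nlinarith

lemma W_mem' (hη : 0 ≤ η) (x : ℝ) : η * W k x ∈ Icc 0 η := by
  have h1 := W_nonneg k x
  have h2 := W_le_one k x
  constructor
  · positivity
  · nlinarith

lemma N_nonneg (φ : ℝ × ℝ → ℝ) : 0 ≤ N φ := integral_nonneg fun p => by positivity

/-- trace bound with a parameter -/
lemma trace_kappa (h : Bx T φ) {F : ℝ → ℝ} (hF : Continuous F) {a b κ : ℝ} (hκ : 0 < κ)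
    (ha : -T ≤ a) (hab : a ≤ b) (hb : b ≤ T)
    (hFT : ∀ x ∈ Icc a b, F x ∈ Icc (-T) T) :
    ∫ x in a..b, φ (x, F x) ^ 2 ≤ 1 / 2 * (κ * (∫ p, φ p ^ 2) + κ⁻¹ * N φ) := by
  have h1 := h.cont
  have h2 := h.contX
  have h3 := h.contY
  have hT := h.pos
  have c1 : Continuous fun p : ℝ × ℝ => φ p ^ 2 := by fun_prop
  have c3 : Continuous fun p : ℝ × ℝ => dY φ p ^ 2 := by fun_prop
  have hc : Continuous fun p : ℝ × ℝ => κ * φ p ^ 2 + κ⁻¹ * dY φ p ^ 2 := by fun_prop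
  have hc2 := cont_inner hc (-T) T
  have s1 : ∫ x in a..b, φ (x, F x) ^ 2
      ≤ 1 / 2 * I2 (fun p => κ * φ p ^ 2 + κ⁻¹ * dY φ p ^ 2) a b (-T) T := by
    unfold I2
    rw [← intervalIntegral.integral_const_mul]
    apply integral_mono_on hab
    · apply Continuous.intervalIntegrable; fun_prop
    · apply Continuous.intervalIntegrable
      exact continuous_const.mul hc2
    · intro x hx
      exact h.slice hκ x (hFT x hx)
  refine s1.trans ?_
  gcongr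
  have s2 : I2 (fun p => κ * φ p ^ 2 + κ⁻¹ * dY φ p ^ 2) a b (-T) T
      ≤ I2 (fun p => κ * φ p ^ 2 + κ⁻¹ * dY φ p ^ 2) (-T) T (-T) T :=
    I2_mono_box hc (fun p => by positivity) ha hab hb le_rfl (by linarith) le_rfl
  refine s2.trans ?_
  rw [I2_add (by fun_prop) (by fun_prop), I2_const_mul, I2_const_mul]
  have e1 : ∫ p, φ p ^ 2 = I2 (fun p => φ p ^ 2) (-T) T (-T) T := by
    apply h.integral_eq c1
    intro p hp
    rw [h.zero p hp]; ring
  rw [e1]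
  have e2 : I2 (fun p => dY φ p ^ 2) (-T) T (-T) T ≤ N φ := by
    apply h.I2_le_N c3 (fun p => sq_nonneg _)
      (fun p => by nlinarith [sq_nonneg (dX φ p), sq_nonneg (φ p)]) <;> linarith
  gcongr

lemma b_kappa (h : Bx T φ) (hT : 4 ≤ T) (hη : 0 ≤ η) (hη4 : η ≤ 4) {κ : ℝ} (hκ : 0 < κ) :
    bform k η φ ≤ mf k η / 2 * (κ * (∫ p, φ p ^ 2) + κ⁻¹ * N φ) := by
  rw [h.b_eq hT]
  have hW := W_continuous k
  have b1 := h.trace_kappa (F := fun x => η * W k x) (by fun_prop) hκ le_rfl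
    (show -T ≤ T by linarith) le_rfl (fun x _ => W_mem hη hη4 hT x)
  have b2 := h.trace_kappa (F := fun x => η * W k x) (by fun_prop) hκ
    (show -T ≤ -(1 / 2) by linarith) (show (-(1 / 2) : ℝ) ≤ 1 / 2 by norm_num)
    (show 1 / 2 ≤ T by linarith) (fun x _ => W_mem hη hη4 hT x)
  have hm := one_le_mf k η
  have : (mf k η - 1) * ∫ x in (-(1 / 2) : ℝ)..(1 / 2), φ (x, η * W k x) ^ 2
      ≤ (mf k η - 1) * (1 / 2 * (κ * (∫ p, φ p ^ 2) + κ⁻¹ * N φ)) :=
    mul_le_mul_of_nonneg_left b2 (by linarith)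
  linarith

lemma b_le (h : Bx T φ) (hT : 4 ≤ T) (hη : 0 ≤ η) (hη4 : η ≤ 4) :
    bform k η φ ≤ mf k η / 2 * N φ := by
  rw [h.b_eq hT]
  have hW := W_continuous k
  have b1 := h.trace_le_N (F := fun x => η * W k x) (by fun_prop) le_rfl
    (show -T ≤ T by linarith) le_rfl (fun x _ => W_mem hη hη4 hT x)
  have b2 := h.trace_le_N (F := fun x => η * W k x) (by fun_prop)
    (show -T ≤ -(1 / 2) by linarith) (show (-(1 / 2) : ℝ) ≤ 1 / 2 by norm_num)
    (show 1 / 2 ≤ T by linarith) (fun x _ => W_mem hη hη4 hT x)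
  have hm := one_le_mf k η
  have : (mf k η - 1) * ∫ x in (-(1 / 2) : ℝ)..(1 / 2), φ (x, η * W k x) ^ 2
      ≤ (mf k η - 1) * (1 / 2 * N φ) :=
    mul_le_mul_of_nonneg_left b2 (by linarith)
  linarith

/-- closeness of the forms for two heights -/
lemma b_close (h : Bx T φ) (hT : 4 ≤ T) (hη : 0 ≤ η) (hη4 : η ≤ 4) {η' : ℝ} (hη' : 0 ≤ η')
    (hη4' : η' ≤ 4) {θ : ℝ} (hθ : 0 < θ) :
    |bform k η' φ - bform k η φ|
      ≤ (mf k η * (θ + θ⁻¹ * |η' - η| / 2) + |mf k η' - mf k η| / 2) * N φ := by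
  rw [h.b_eq hT, h.b_eq hT]
  have hW := W_continuous k
  have hD : ∀ x, |η' * W k x - η * W k x| ≤ |η' - η| := by
    intro x
    rw [← sub_mul, abs_mul, abs_of_nonneg (W_nonneg k x)]
    have := W_le_one k x
    nlinarith [abs_nonneg (η' - η)]
  have c1 := h.close (F := fun x => η' * W k x) (G := fun x => η * W k x) (by fun_prop)
    (by fun_prop) le_rfl (show -T ≤ T by linarith) le_rfl (fun x _ => W_mem hη' hη4' hT x)
    (fun x _ => W_mem hη hη4 hT x) hθ (fun x _ => hD x)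
  have c2 := h.close (F := fun x => η' * W k x) (G := fun x => η * W k x) (by fun_prop)
    (by fun_prop) (show -T ≤ -(1 / 2) by linarith) (show (-(1 / 2) : ℝ) ≤ 1 / 2 by norm_num)
    (show 1 / 2 ≤ T by linarith) (fun x _ => W_mem hη' hη4' hT x)
    (fun x _ => W_mem hη hη4 hT x) hθ (fun x _ => hD x)
  have b2 := h.trace_le_N (F := fun x => η' * W k x) (by fun_prop)
    (show -T ≤ -(1 / 2) by linarith) (show (-(1 / 2) : ℝ) ≤ 1 / 2 by norm_num)
    (show 1 / 2 ≤ T by linarith) (fun x _ => W_mem hη' hη4' hT x)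
  have b3 : 0 ≤ ∫ x in (-(1 / 2) : ℝ)..(1 / 2), φ (x, η' * W k x) ^ 2 :=
    integral_nonneg (by norm_num) fun x _ => sq_nonneg _
  have hm := one_le_mf k η
  set a' := ∫ x in (-T)..T, φ (x, η' * W k x) ^ 2
  set a := ∫ x in (-T)..T, φ (x, η * W k x) ^ 2
  set c' := ∫ x in (-(1 / 2) : ℝ)..(1 / 2), φ (x, η' * W k x) ^ 2
  set c := ∫ x in (-(1 / 2) : ℝ)..(1 / 2), φ (x, η * W k x) ^ 2
  set ρ := (θ + θ⁻¹ * |η' - η| / 2) * N φ
  have e : a' + (mf k η' - 1) * c' - (a + (mf k η - 1) * c)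
      = (a' - a) + (mf k η - 1) * (c' - c) + (mf k η' - mf k η) * c' := by ring
  rw [e]
  have t1 : |(mf k η - 1) * (c' - c)| ≤ (mf k η - 1) * ρ := by
    rw [abs_mul, abs_of_nonneg (by linarith : (0:ℝ) ≤ mf k η - 1)]
    exact mul_le_mul_of_nonneg_left c2 (by linarith)
  have t2 : |(mf k η' - mf k η) * c'| ≤ |mf k η' - mf k η| * (1 / 2 * N φ) := by
    rw [abs_mul, abs_of_nonneg b3]
    exact mul_le_mul_of_nonneg_left b2 (abs_nonneg _)
  have t3 := abs_add_le ((a' - a) + (mf k η - 1) * (c' - c)) ((mf k η' - mf k η) * c')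
  have t4 := abs_add_le (a' - a) ((mf k η - 1) * (c' - c))
  calc |(a' - a) + (mf k η - 1) * (c' - c) + (mf k η' - mf k η) * c'|
      ≤ ρ + (mf k η - 1) * ρ + |mf k η' - mf k η| * (1 / 2 * N φ) := by linarith
    _ = _ := by ring

lemma b_lower (h : Bx T φ) (hT : 4 ≤ T) (hk : 0 < k) (hη : 0 < η) (hη4 : η ≤ 4) :
    (mf k η - 1) * (beta η φ - 1 / (4 * k * η) * N φ) ≤ bform k η φ := by
  rw [h.b_eq hT]
  have hh := h.homog hk hη (by linarith) (by linarith)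
  have h1 := (abs_le.1 hh).1
  have h2 : 0 ≤ ∫ x in (-T)..T, φ (x, η * W k x) ^ 2 :=
    integral_nonneg (by linarith) fun x _ => sq_nonneg _
  have hm := one_le_mf k η
  have h3 : (mf k η - 1) * (beta η φ - 1 / (4 * k * η) * N φ)
      ≤ (mf k η - 1) * ∫ x in (-(1 / 2) : ℝ)..(1 / 2), φ (x, η * W k x) ^ 2 := by
    apply mul_le_mul_of_nonneg_left _ (by linarith)
    unfold beta
    linarith
  linarith

lemma b_upper (h : Bx T φ) (hT : 4 ≤ T) (hk : 0 < k) (hη : 0 < η) (hη4 : η ≤ 4) :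
    bform k η φ ≤ 1 / 2 * N φ + (mf k η - 1) * (beta η φ + 1 / (4 * k * η) * N φ) := by
  rw [h.b_eq hT]
  have hW := W_continuous k
  have hh := h.homog hk hη (by linarith) (by linarith)
  have h1 := (abs_le.1 hh).2
  have h2 := h.trace_le_N (F := fun x => η * W k x) (by fun_prop) le_rfl
    (show -T ≤ T by linarith) le_rfl (fun x _ => W_mem hη.le hη4 hT x)
  have hm := one_le_mf k η
  have h3 : (mf k η - 1) * (∫ x in (-(1 / 2) : ℝ)..(1 / 2), φ (x, η * W k x) ^ 2)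
      ≤ (mf k η - 1) * (beta η φ + 1 / (4 * k * η) * N φ) := by
    apply mul_le_mul_of_nonneg_left _ (by linarith)
    unfold beta
    linarith
  linarith

end Bx

/-- bound modulo finitely many functionals -/
lemma b_ess {k : ℕ} (η : ℝ) (hη : 0 < η) (hη4 : η ≤ 4) : ∃ (n : ℕ) (C : ℝ), 0 ≤ C ∧ 0 < n ∧
    ∀ (φ : ℝ × ℝ → ℝ) (T : ℝ), Bx T φ → 4 ≤ T →
      bform k η φ ≤ 1 * N φ
        + C * ∑ i ∈ Finset.range n, ∑ j ∈ Finset.range n, (cell η n φ i j) ^ 2 := by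
  have hm := one_le_mf k η
  obtain ⟨n, C, hC, hn, H⟩ := Bx.ess η hη (1 / (2 * mf k η)) (by positivity)
  refine ⟨n, (mf k η - 1) * C, mul_nonneg (by linarith) hC, hn, fun φ T h hT => ?_⟩
  have hW := W_continuous k
  rw [h.b_eq hT]
  have h1 := H φ T h (by linarith) (by linarith) (fun x => η * W k x) (by fun_prop)
    (fun x _ => Bx.W_mem' hη.le x)
  have h2 := h.trace_le_N (F := fun x => η * W k x) (by fun_prop) le_rfl
    (show -T ≤ T by linarith) le_rfl (fun x _ => Bx.W_mem hη.le hη4 hT x)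
  have hN := Bx.N_nonneg φ
  have h3 : (mf k η - 1) * (∫ x in (-(1 / 2) : ℝ)..(1 / 2), φ (x, η * W k x) ^ 2)
      ≤ (mf k η - 1) * (1 / (2 * mf k η) * N φ
        + C * ∑ i ∈ Finset.range n, ∑ j ∈ Finset.range n, (cell η n φ i j) ^ 2) :=
    mul_le_mul_of_nonneg_left h1 (by linarith)
  have h4 : (mf k η - 1) * (1 / (2 * mf k η)) ≤ 1 / 2 := by
    have hm0 : 0 < mf k η := by linarith
    rw [mul_one_div, div_le_iff₀ (by positivity)]
    linarith
  have h5 : (mf k η - 1) * (1 / (2 * mf k η)) * N φ ≤ 1 / 2 * N φ :=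
    mul_le_mul_of_nonneg_right h4 hN
  nlinarith

end Pool.Agent.Helper97.Leaky
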