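import Pool.Agent.Helper97.Leaky.Wave

open MeasureTheory Filter Topology Set intervalIntegral

namespace Pool.Agent.Helper97.Leaky

section general

variable {φ : ℝ × ℝ → ℝ}

/-- differentiation of partial integrals -/
lemma deriv_int (hφ : ContDiff ℝ 1 φ) (a b y : ℝ) :
    HasDerivAt (fun y => ∫ x in a..b, φ (x, y)) (∫ x in a..b, dY φ (x, y)) y := by
  have h1 := hφ.continuous
  have h3 := cont_dY hφ
  have e : (fun y => ∫ x in a..b, φ (x, y))
      = fun y => (∫ x in a..b, φ (x, 0)) + ∫ t in (0:ℝ)..y, ∫ x in a..b, dY φ (x, t) := by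
    ext y
    have h4 : ∫ t in (0:ℝ)..y, ∫ x in a..b, dY φ (x, t)
        = ∫ x in a..b, ∫ t in (0:ℝ)..y, dY φ (x, t) := (I2_swap h3 a b 0 y).symm
    rw [h4, ← intervalIntegral.integral_add (ii' h1 _ _ _)
      ((cont_inner h3 0 y).intervalIntegrable _ _)]
    congr 1
    ext x
    rw [integral_eq_sub_of_hasDerivAt (fun t _ => derivY hφ x t) (ii h3 _ _ _)]
    ring
  rw [e]
  have hc := cont_inner' h3 a b
  exact (integral_hasDerivAt_right (hc.intervalIntegrable _ _)
    hc.stronglyMeasurable.stronglyMeasurableAtFilter hc.continuousAt).const_add _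

/-- Poincare inequality on a rectangle -/
lemma rect (hφ : ContDiff ℝ 1 φ) {x0 x1 y0 y1 : ℝ} (hx : x0 < x1) (hy : y0 < y1) :
    I2 (fun p => φ p ^ 2) x0 x1 y0 y1
      ≤ (x1 - x0) ^ 2 / 9 * I2 (fun p => dX φ p ^ 2) x0 x1 y0 y1
        + (y1 - y0) ^ 2 / 9 * I2 (fun p => dY φ p ^ 2) x0 x1 y0 y1
        + 1 / ((x1 - x0) * (y1 - y0)) * (I2 φ x0 x1 y0 y1) ^ 2 := by
  have h1 := hφ.continuous
  have h2 := cont_dX hφ
  have h3 := cont_dY hφ
  have hr1 : 0 < x1 - x0 := sub_pos.2 hx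
  have hr2 : 0 < y1 - y0 := sub_pos.2 hy
  have c1 : Continuous fun p : ℝ × ℝ => φ p ^ 2 := by fun_prop
  have c2 : Continuous fun p : ℝ × ℝ => dX φ p ^ 2 := by fun_prop
  have c3 : Continuous fun p : ℝ × ℝ => dY φ p ^ 2 := by fun_prop
  set M : ℝ → ℝ := fun y => ∫ x in x0..x1, φ (x, y) with hM
  set M' : ℝ → ℝ := fun y => ∫ x in x0..x1, dY φ (x, y) with hM'
  have cM : Continuous M := cont_inner' h1 _ _
  have cM' : Continuous M' := cont_inner' h3 _ _
  rw [I2_swap c1, I2_swap c2, I2_swap c3, I2_swap h1]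
  -- slicewise
  have s1 : ∫ y in y0..y1, ∫ x in x0..x1, φ (x, y) ^ 2
      ≤ ∫ y in y0..y1, ((x1 - x0) ^ 2 / 9 * (∫ x in x0..x1, dX φ (x, y) ^ 2)
        + 1 / (x1 - x0) * M y ^ 2) := by
    apply integral_mono_on hy.le ((cont_inner' c1 _ _).intervalIntegrable _ _)
    · apply Continuous.intervalIntegrable
      have := cont_inner' c2 x0 x1
      fun_prop
    · intro y _
      exact poincare (u := fun x => φ (x, y)) (u' := fun x => dX φ (x, y))
        (fun x => derivX hφ x y) (by fun_prop) hx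
  rw [intervalIntegral.integral_add (by
      apply Continuous.intervalIntegrable
      have := cont_inner' c2 x0 x1
      fun_prop) (by apply Continuous.intervalIntegrable; fun_prop),
    intervalIntegral.integral_const_mul, intervalIntegral.integral_const_mul] at s1
  have s2 := poincare (u := M) (u' := M') (fun y => deriv_int hφ x0 x1 y) cM' hy
  have s3 : ∫ y in y0..y1, M' y ^ 2
      ≤ (x1 - x0) * ∫ y in y0..y1, ∫ x in x0..x1, dY φ (x, y) ^ 2 := by
    rw [← intervalIntegral.integral_const_mul]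
    apply integral_mono_on hy.le (by apply Continuous.intervalIntegrable; fun_prop)
    · apply Continuous.intervalIntegrable
      have := cont_inner' c3 x0 x1
      fun_prop
    · intro y _
      exact cs_int (u := fun x => dY φ (x, y)) (by fun_prop) hx
  have s4 : 1 / (x1 - x0) * (∫ y in y0..y1, M y ^ 2)
      ≤ 1 / (x1 - x0) * ((y1 - y0) ^ 2 / 9
          * ((x1 - x0) * ∫ y in y0..y1, ∫ x in x0..x1, dY φ (x, y) ^ 2)
        + 1 / (y1 - y0) * (∫ y in y0..y1, M y) ^ 2) := by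
    gcongr
    refine s2.trans ?_
    gcongr
  have s5 : 1 / (x1 - x0) * ((y1 - y0) ^ 2 / 9
          * ((x1 - x0) * ∫ y in y0..y1, ∫ x in x0..x1, dY φ (x, y) ^ 2)
        + 1 / (y1 - y0) * (∫ y in y0..y1, M y) ^ 2)
      = (y1 - y0) ^ 2 / 9 * (∫ y in y0..y1, ∫ x in x0..x1, dY φ (x, y) ^ 2)
        + 1 / ((x1 - x0) * (y1 - y0)) * (∫ y in y0..y1, M y) ^ 2 := by
    field_simp
  rw [s5] at s4
  linarith

/-- decomposition of an integral over a box into cells -/
lemma I2_grid {f : ℝ × ℝ → ℝ} (hf : Continuous f) (x y : ℕ → ℝ) (n m : ℕ) :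
    I2 f (x 0) (x n) (y 0) (y m)
      = ∑ i ∈ Finset.range n, ∑ j ∈ Finset.range m, I2 f (x i) (x (i + 1)) (y j) (y (j + 1)) := by
  have h1 : I2 f (x 0) (x n) (y 0) (y m)
      = ∑ i ∈ Finset.range n, I2 f (x i) (x (i + 1)) (y 0) (y m) := by
    unfold I2
    rw [sum_integral_adjacent_intervals (fun j _ => (cont_inner hf _ _).intervalIntegrable _ _)]
  rw [h1]
  apply Finset.sum_congr rfl
  intro i _
  rw [I2_swap hf]
  rw [← sum_integral_adjacent_intervals (fun j _ => (cont_inner' hf _ _).intervalIntegrable _ _)]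
  apply Finset.sum_congr rfl
  intro j _
  rw [I2_swap hf]

/-- Poincare inequality on a grid -/
lemma grid (hφ : ContDiff ℝ 1 φ) {x y : ℕ → ℝ} {r s : ℝ} (hr : 0 < r) (hs : 0 < s) (n m : ℕ)
    (hx : ∀ i, x (i + 1) = x i + r) (hy : ∀ i, y (i + 1) = y i + s) :
    I2 (fun p => φ p ^ 2) (x 0) (x n) (y 0) (y m)
      ≤ r ^ 2 / 9 * I2 (fun p => dX φ p ^ 2) (x 0) (x n) (y 0) (y m)
        + s ^ 2 / 9 * I2 (fun p => dY φ p ^ 2) (x 0) (x n) (y 0) (y m)
        + 1 / (r * s) * ∑ i ∈ Finset.range n, ∑ j ∈ Finset.range m,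
            (I2 φ (x i) (x (i + 1)) (y j) (y (j + 1))) ^ 2 := by
  have h1 := hφ.continuous
  have h2 := cont_dX hφ
  have h3 := cont_dY hφ
  have c1 : Continuous fun p : ℝ × ℝ => φ p ^ 2 := by fun_prop
  have c2 : Continuous fun p : ℝ × ℝ => dX φ p ^ 2 := by fun_prop
  have c3 : Continuous fun p : ℝ × ℝ => dY φ p ^ 2 := by fun_prop
  rw [I2_grid c1, I2_grid c2, I2_grid c3]
  simp only [Finset.mul_sum, ← Finset.sum_add_distrib]
  apply Finset.sum_le_sum
  intro i _
  apply Finset.sum_le_sum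
  intro j _
  have := rect hφ (x0 := x i) (x1 := x (i + 1)) (y0 := y j) (y1 := y (j + 1))
    (by rw [hx]; linarith) (by rw [hy]; linarith)
  have e1 : x (i + 1) - x i = r := by rw [hx]; ring
  have e2 : y (j + 1) - y j = s := by rw [hy]; ring
  rw [e1, e2] at this
  exact this

end general

/-- cells of the box `[-1/2,1/2] x [0,η]` -/
noncomputable def cell (η : ℝ) (n : ℕ) (φ : ℝ × ℝ → ℝ) (i j : ℕ) : ℝ :=
  I2 φ (-(1 / 2) + i * (1 / n)) (-(1 / 2) + ((i + 1 : ℕ) : ℝ) * (1 / n)) (j * (η / n))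
    (((j + 1 : ℕ) : ℝ) * (η / n))

namespace Bx

variable {φ : ℝ × ℝ → ℝ} {T : ℝ}

/-- box average bound for the trace on a graph inside the box -/
lemma vert (h : Bx T φ) {F : ℝ → ℝ} (hF : Continuous F) {η t : ℝ} (hη : 0 < η) (ht : 0 < t)
    (hFm : ∀ x ∈ Icc (-(1 / 2) : ℝ) (1 / 2), F x ∈ Icc 0 η) :
    ∫ x in (-(1 / 2) : ℝ)..(1 / 2), φ (x, F x) ^ 2
      ≤ (1 / η + t⁻¹) * I2 (fun p => φ p ^ 2) (-(1 / 2)) (1 / 2) 0 η
        + t * I2 (fun p => dY φ p ^ 2) (-(1 / 2)) (1 / 2) 0 η := by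
  have h1 := h.cont
  have h3 := h.contY
  have c1 : Continuous fun p : ℝ × ℝ => φ p ^ 2 := by fun_prop
  have c3 : Continuous fun p : ℝ × ℝ => dY φ p ^ 2 := by fun_prop
  have cc1 := cont_inner c1 0 η
  have cc3 := cont_inner c3 0 η
  unfold I2
  rw [← intervalIntegral.integral_const_mul, ← intervalIntegral.integral_const_mul,
    ← intervalIntegral.integral_add (by apply Continuous.intervalIntegrable; fun_prop)
      (by apply Continuous.intervalIntegrable; fun_prop)]
  apply integral_mono_on (by norm_num)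
  · apply Continuous.intervalIntegrable; fun_prop
  · apply Continuous.intervalIntegrable; fun_prop
  · intro x hx
    have := avg_bound (u := fun t => φ (x, t)) (u' := fun t => dY φ (x, t))
      (fun t => derivY h.smooth x t) (by fun_prop) (c := 0) (d := η) (t := t) hη.le ht (hFm x hx)
    rw [sub_zero, intervalIntegral.integral_add (by apply Continuous.intervalIntegrable; fun_prop)
      (by apply Continuous.intervalIntegrable; fun_prop), intervalIntegral.integral_const_mul,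
      intervalIntegral.integral_const_mul] at this
    have h4 := (abs_le.1 this).2
    have h5 : η * φ (x, F x) ^ 2 ≤ η * ((1 / η + t⁻¹) * (∫ y in (0:ℝ)..η, φ (x, y) ^ 2)
        + t * ∫ y in (0:ℝ)..η, dY φ (x, y) ^ 2) := by
      have e : η * ((1 / η + t⁻¹) * (∫ y in (0:ℝ)..η, φ (x, y) ^ 2)
        + t * ∫ y in (0:ℝ)..η, dY φ (x, y) ^ 2) = (∫ y in (0:ℝ)..η, φ (x, y) ^ 2)
          + η * (t⁻¹ * (∫ y in (0:ℝ)..η, φ (x, y) ^ 2) + t * ∫ y in (0:ℝ)..η, dY φ (x, y) ^ 2) := by
        field_simp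
        ring
      rw [e]
      linarith
    exact le_of_mul_le_mul_left h5 hη

/-- essential bound for the part of the trace form on the zigzag -/
lemma ess (η : ℝ) (hη : 0 < η) (ε : ℝ) (hε : 0 < ε) : ∃ (n : ℕ) (C : ℝ), 0 ≤ C ∧ 0 < n ∧
    ∀ (φ : ℝ × ℝ → ℝ) (T : ℝ), Bx T φ → 1 / 2 ≤ T → η ≤ T → ∀ F : ℝ → ℝ, Continuous F →
      (∀ x ∈ Icc (-(1 / 2) : ℝ) (1 / 2), F x ∈ Icc 0 η) →
      ∫ x in (-(1 / 2) : ℝ)..(1 / 2), φ (x, F x) ^ 2
        ≤ ε * N φ + C * ∑ i ∈ Finset.range n, ∑ j ∈ Finset.range n, (cell η n φ i j) ^ 2 := by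
  set A : ℝ := 1 / η + (ε / 2)⁻¹ with hA
  have hA0 : 0 < A := by positivity
  obtain ⟨n, hn⟩ := exists_nat_gt (max 1 (A * (1 + η ^ 2) / ε))
  have hn1 : (1:ℝ) < n := (le_max_left _ _).trans_lt hn
  have hn2 : A * (1 + η ^ 2) / ε < n := (le_max_right _ _).trans_lt hn
  have hn0 : (0:ℝ) < n := by linarith
  have hn0' : 0 < n := by exact_mod_cast hn0
  set r : ℝ := 1 / n with hr
  set s : ℝ := η / n with hs
  have hr0 : 0 < r := by positivity
  have hs0 : 0 < s := by positivity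
  refine ⟨n, A * (1 / (r * s)), by positivity, hn0', ?_⟩
  intro φ T h hT hηT F hF hFm
  have h1 := h.cont
  have h2 := h.contX
  have h3 := h.contY
  have hv := h.vert hF hη (half_pos hε) hFm
  have hg := grid h.smooth (x := fun i => -(1 / 2) + i * (1 / n)) (y := fun j => j * (η / n))
    hr0 hs0 n n (by intro i; push_cast; rw [hr]; ring) (by intro i; push_cast; rw [hs]; ring)
  have e1 : (-(1 / 2) + ((0:ℕ) : ℝ) * (1 / n) : ℝ) = -(1 / 2) := by simp
  have e2 : (-(1 / 2) + (n : ℝ) * (1 / n) : ℝ) = 1 / 2 := by field_simp; ring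
  have e3 : (((0:ℕ) : ℝ) * (η / n) : ℝ) = 0 := by simp
  have e4 : ((n : ℝ) * (η / n) : ℝ) = η := by field_simp
  simp only [e1, e2, e3, e4] at hg
  -- energies
  have c2 : Continuous fun p : ℝ × ℝ => dX φ p ^ 2 := by fun_prop
  have c3 : Continuous fun p : ℝ × ℝ => dY φ p ^ 2 := by fun_prop
  have hX : I2 (fun p => dX φ p ^ 2) (-(1 / 2)) (1 / 2) 0 η ≤ N φ := by
    apply h.I2_le_N c2 (fun p => sq_nonneg _)
      (fun p => by nlinarith [sq_nonneg (dY φ p), sq_nonneg (φ p)]) <;> linarith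
  have hY : I2 (fun p => dY φ p ^ 2) (-(1 / 2)) (1 / 2) 0 η ≤ N φ := by
    apply h.I2_le_N c3 (fun p => sq_nonneg _)
      (fun p => by nlinarith [sq_nonneg (dX φ p), sq_nonneg (φ p)]) <;> linarith
  have hN0 : 0 ≤ N φ := (I2_nonneg (by norm_num) hη.le (fun p => sq_nonneg _)).trans hX
  set Sg := ∑ i ∈ Finset.range n, ∑ j ∈ Finset.range n, (cell η n φ i j) ^ 2 with hSg
  have hg' : I2 (fun p => φ p ^ 2) (-(1 / 2)) (1 / 2) 0 η
      ≤ r ^ 2 / 9 * N φ + s ^ 2 / 9 * N φ + 1 / (r * s) * Sg := by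
    refine hg.trans ?_
    have : ∑ i ∈ Finset.range n, ∑ j ∈ Finset.range n,
        I2 φ (-(1 / 2) + ↑i * (1 / ↑n)) (-(1 / 2) + ↑(i + 1) * (1 / ↑n)) (↑j * (η / ↑n))
          (↑(j + 1) * (η / ↑n)) ^ 2 = Sg := rfl
    rw [this]
    gcongr
  have hsmall : A * (r ^ 2 / 9 + s ^ 2 / 9) ≤ ε / 2 := by
    have h4 : A * (1 + η ^ 2) < n * ε := by rwa [div_lt_iff₀ hε] at hn2
    have h5 : r ^ 2 / 9 + s ^ 2 / 9 = (1 + η ^ 2) / (9 * n ^ 2) := by
      rw [hr, hs]; field_simp
    rw [h5]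
    have h6 : A * ((1 + η ^ 2) / (9 * n ^ 2)) = A * (1 + η ^ 2) / (9 * n ^ 2) := by ring
    rw [h6, div_le_iff₀ (by positivity)]
    nlinarith [mul_pos hε hn0]
  have h7 : A * I2 (fun p => φ p ^ 2) (-(1 / 2)) (1 / 2) 0 η
      ≤ A * (r ^ 2 / 9 * N φ + s ^ 2 / 9 * N φ + 1 / (r * s) * Sg) := by gcongr
  have h8 : ε / 2 * I2 (fun p => dY φ p ^ 2) (-(1 / 2)) (1 / 2) 0 η ≤ ε / 2 * N φ := by gcongr
  have h9 : A * (r ^ 2 / 9 + s ^ 2 / 9) * N φ ≤ ε / 2 * N φ := by gcongr
  calc ∫ x in (-(1 / 2) : ℝ)..(1 / 2), φ (x, F x) ^ 2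
      ≤ A * I2 (fun p => φ p ^ 2) (-(1 / 2)) (1 / 2) 0 η
        + ε / 2 * I2 (fun p => dY φ p ^ 2) (-(1 / 2)) (1 / 2) 0 η := hv
    _ ≤ A * (r ^ 2 / 9 * N φ + s ^ 2 / 9 * N φ + 1 / (r * s) * Sg) + ε / 2 * N φ := by
        linarith
    _ = A * (r ^ 2 / 9 + s ^ 2 / 9) * N φ + ε / 2 * N φ + A * (1 / (r * s)) * Sg := by ring
    _ ≤ ε / 2 * N φ + ε / 2 * N φ + A * (1 / (r * s)) * Sg := by linarith
    _ = _ := by ring

/-- bound for odd functions on the box -/
lemma odd_box (h : Bx T φ) (ho : ∀ x y, φ (-x, y) = - φ (x, y)) {η : ℝ} (hη : 0 < η)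
    (hT : 1 / 2 ≤ T) (hηT : η ≤ T) :
    9 * I2 (fun p => φ p ^ 2) (-(1 / 2)) (1 / 2) 0 η ≤ N φ := by
  have h1 := h.cont
  have h2 := h.contX
  have h3 := h.contY
  have c1 : Continuous fun p : ℝ × ℝ => φ p ^ 2 := by fun_prop
  have c2 : Continuous fun p : ℝ × ℝ => dX φ p ^ 2 := by fun_prop
  have s1 : I2 (fun p => φ p ^ 2) (-(1 / 2)) (1 / 2) 0 η
      ≤ 1 / 8 * I2 (fun p => dX φ p ^ 2) (-(1 / 2)) (1 / 2) 0 η := by
    rw [I2_swap c1, I2_swap c2, ← intervalIntegral.integral_const_mul]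
    apply integral_mono_on hη.le ((cont_inner' c1 _ _).intervalIntegrable _ _)
    · apply Continuous.intervalIntegrable
      have := cont_inner' c2 (-(1 / 2)) (1 / 2)
      fun_prop
    · intro y _
      have := odd_bound (u := fun x => φ (x, y)) (u' := fun x => dX φ (x, y))
        (fun x => derivX h.smooth x y) (by fun_prop) (a := 1 / 2) (by norm_num) (fun x => ho x y)
      calc ∫ x in (-(1 / 2) : ℝ)..(1 / 2), φ (x, y) ^ 2
          ≤ (1 / 2) ^ 2 / 2 * ∫ x in (-(1 / 2) : ℝ)..(1 / 2), dX φ (x, y) ^ 2 := this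
        _ = _ := by norm_num
  have s2 : I2 (fun p => φ p ^ 2 + dX φ p ^ 2) (-(1 / 2)) (1 / 2) 0 η ≤ N φ := by
    apply h.I2_le_N (by fun_prop) (fun p => by positivity)
      (fun p => by nlinarith [sq_nonneg (dY φ p)]) <;> linarith
  rw [I2_add c1 c2] at s2
  linarith

/-- **wide case**: bound for even functions modulo one functional -/
lemma even_box (h : Bx T φ) (he : ∀ x y, φ (-x, y) = φ (x, y)) {η : ℝ} (hη : 0 < η)
    (hη1 : η ≤ 1 / 2) (hT : 1 / 2 ≤ T) :
    1 / η * I2 (fun p => φ p ^ 2) (-(1 / 2)) (1 / 2) 0 η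
      ≤ 1 / 12 * N φ + 1 / η ^ 2 * (I2 φ (-(1 / 2)) (1 / 2) 0 η) ^ 2 := by
  have h1 := h.cont
  have h2 := h.contX
  have h3 := h.contY
  have hηT : η ≤ T := hη1.trans hT
  have hT0 := h.pos
  have c1 : Continuous fun p : ℝ × ℝ => φ p ^ 2 := by fun_prop
  have c2 : Continuous fun p : ℝ × ℝ => dX φ p ^ 2 := by fun_prop
  have c3 : Continuous fun p : ℝ × ℝ => dY φ p ^ 2 := by fun_prop
  -- means
  set M : ℝ → ℝ := fun y => ∫ x in (-(1 / 2) : ℝ)..(1 / 2), φ (x, y) with hM
  set M' : ℝ → ℝ := fun y => ∫ x in (-(1 / 2) : ℝ)..(1 / 2), dY φ (x, y) with hM'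
  have cM : Continuous M := cont_inner' h1 _ _
  have cM' : Continuous M' := cont_inner' h3 _ _
  have dM : ∀ y, HasDerivAt M (M' y) y := fun y => deriv_int h.smooth _ _ y
  -- energies of slices
  set A : ℝ → ℝ := fun y => ∫ x in (-(1 / 2) : ℝ)..(1 / 2), φ (x, y) ^ 2 with hA
  set B : ℝ → ℝ := fun y => ∫ x in (-(1 / 2) : ℝ)..(1 / 2), dX φ (x, y) ^ 2 with hB
  set D : ℝ → ℝ := fun y => ∫ x in (-(1 / 2) : ℝ)..(1 / 2), dY φ (x, y) ^ 2 with hD
  have cA : Continuous A := cont_inner' c1 _ _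
  have cB : Continuous B := cont_inner' c2 _ _
  have cD : Continuous D := cont_inner' c3 _ _
  -- variance identities
  have hV : ∀ y, ∫ x in (-(1 / 2) : ℝ)..(1 / 2), (φ (x, y) - M y) ^ 2 = A y - M y ^ 2 := by
    intro y
    have e : ∫ x in (-(1 / 2) : ℝ)..(1 / 2), (φ (x, y) - M y) ^ 2
        = ∫ x in (-(1 / 2) : ℝ)..(1 / 2), (φ (x, y) ^ 2 - (2 * M y) * φ (x, y) + M y ^ 2) := by
      congr 1; ext x; ring
    rw [e, intervalIntegral.integral_add (by apply Continuous.intervalIntegrable; fun_prop)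
      (by simp), intervalIntegral.integral_sub (by apply Continuous.intervalIntegrable; fun_prop)
      (by apply Continuous.intervalIntegrable; fun_prop), intervalIntegral.integral_const_mul,
      intervalIntegral.integral_const, smul_eq_mul]
    simp only [hA, hM]
    ring
  have hW : ∀ y, ∫ x in (-(1 / 2) : ℝ)..(1 / 2), (dY φ (x, y) - M' y) ^ 2 = D y - M' y ^ 2 := by
    intro y
    have e : ∫ x in (-(1 / 2) : ℝ)..(1 / 2), (dY φ (x, y) - M' y) ^ 2
        = ∫ x in (-(1 / 2) : ℝ)..(1 / 2), (dY φ (x, y) ^ 2 - (2 * M' y) * dY φ (x, y) + M' y ^ 2) := by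
      congr 1; ext x; ring
    rw [e, intervalIntegral.integral_add (by apply Continuous.intervalIntegrable; fun_prop)
      (by simp), intervalIntegral.integral_sub (by apply Continuous.intervalIntegrable; fun_prop)
      (by apply Continuous.intervalIntegrable; fun_prop), intervalIntegral.integral_const_mul,
      intervalIntegral.integral_const, smul_eq_mul]
    simp only [hD, hM']
    ring
  -- bound of the variance by horizontal energy
  have hV9 : ∀ y, 36 * (A y - M y ^ 2) ≤ B y := by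
    intro y
    have := poincare_even (u := fun x => φ (x, y)) (u' := fun x => dX φ (x, y))
      (fun x => derivX h.smooth x y) (by fun_prop) (a := 1 / 2) (by norm_num) (fun x => he x y)
    have e : A y ≤ (1 / 2) ^ 2 / 9 * B y + 1 / (2 * (1 / 2)) * M y ^ 2 := this
    linarith
  -- sup bound of the variance
  have hsup : ∀ y ∈ Icc (-T) T, A y - M y ^ 2
      ≤ 1 / 12 * ∫ t in (-T)..T, (A t + B t + D t - M' t ^ 2) := by
    intro y hy
    set ψ : ℝ × ℝ → ℝ := fun p => 6 * (φ p - M p.2) ^ 2 + 6⁻¹ * (dY φ p - M' p.2) ^ 2 with hψ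
    have cψ : Continuous ψ := by simp only [hψ]; fun_prop
    have hp : ∀ x, (φ (x, y) - M y) ^ 2 ≤ 1 / 2 * ∫ t in (-T)..T, ψ (x, t) := by
      intro x
      apply sup_bound (u := fun t => φ (x, t) - M t) (u' := fun t => dY φ (x, t) - M' t)
        (fun t => (derivY h.smooth x t).sub (dM t)) (by fun_prop) (by norm_num : (0:ℝ) < 6) _ _ hy
      · have : M (-T) = 0 := by
          simp only [hM]
          rw [intervalIntegral.integral_congr (g := fun _ => (0:ℝ))]
          · simp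
          · intro x _
            exact h.zero _ (Or.inr (by simp [abs_of_pos hT0]))
        rw [this, h.zero _ (Or.inr (by simp [abs_of_pos hT0]))]; ring
      · have : M T = 0 := by
          simp only [hM]
          rw [intervalIntegral.integral_congr (g := fun _ => (0:ℝ))]
          · simp
          · intro x _
            exact h.zero _ (Or.inr (by simp [abs_of_pos hT0]))
        rw [this, h.zero _ (Or.inr (by simp [abs_of_pos hT0]))]; ring
    rw [← hV y]
    calc ∫ x in (-(1 / 2) : ℝ)..(1 / 2), (φ (x, y) - M y) ^ 2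
        ≤ ∫ x in (-(1 / 2) : ℝ)..(1 / 2), 1 / 2 * ∫ t in (-T)..T, ψ (x, t) := by
          apply integral_mono_on (by norm_num)
          · apply Continuous.intervalIntegrable; fun_prop
          · apply Continuous.intervalIntegrable
            have := cont_inner cψ (-T) T
            fun_prop
          · intro x _; exact hp x
      _ = 1 / 2 * I2 ψ (-(1 / 2)) (1 / 2) (-T) T := by
          rw [intervalIntegral.integral_const_mul]; rfl
      _ = 1 / 2 * ∫ t in (-T)..T, ∫ x in (-(1 / 2) : ℝ)..(1 / 2), ψ (x, t) := by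
          rw [I2_swap cψ]
      _ = 1 / 2 * ∫ t in (-T)..T, (6 * (A t - M t ^ 2) + 6⁻¹ * (D t - M' t ^ 2)) := by
          congr 2
          ext t
          simp only [hψ]
          rw [intervalIntegral.integral_add (by apply Continuous.intervalIntegrable; fun_prop)
            (by apply Continuous.intervalIntegrable; fun_prop),
            intervalIntegral.integral_const_mul, intervalIntegral.integral_const_mul, hV, hW]
      _ ≤ 1 / 2 * ∫ t in (-T)..T, (6⁻¹ * (A t + B t + D t - M' t ^ 2)) := by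
          apply mul_le_mul_of_nonneg_left _ (by norm_num)
          apply integral_mono_on (by linarith)
          · apply Continuous.intervalIntegrable; fun_prop
          · apply Continuous.intervalIntegrable; fun_prop
          · intro t _
            have h5 := hV9 t
            have h6 : 0 ≤ A t := integral_nonneg (by norm_num) fun x _ => sq_nonneg _
            linarith
      _ = _ := by rw [intervalIntegral.integral_const_mul]; ring
  -- the mean part
  have hmean := poincare (u := M) (u' := M') dM cM' hη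
  rw [sub_zero] at hmean
  -- the total energy
  have hE : ∫ t in (-T)..T, (A t + B t + D t) ≤ N φ := by
    have e : ∫ t in (-T)..T, (A t + B t + D t)
        = I2 (fun p => φ p ^ 2 + dX φ p ^ 2 + dY φ p ^ 2) (-(1 / 2)) (1 / 2) (-T) T := by
      rw [I2_swap (by fun_prop)]
      congr 1
      ext t
      rw [intervalIntegral.integral_add (by apply Continuous.intervalIntegrable; fun_prop)
            (by apply Continuous.intervalIntegrable; fun_prop),
          intervalIntegral.integral_add (by apply Continuous.intervalIntegrable; fun_prop)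
            (by apply Continuous.intervalIntegrable; fun_prop)]
    rw [e]
    apply h.I2_le_N (by fun_prop) (fun p => by positivity) (fun p => le_rfl) <;> linarith
  have hE2 : ∫ t in (-T)..T, (A t + B t + D t - M' t ^ 2)
      = (∫ t in (-T)..T, (A t + B t + D t)) - ∫ t in (-T)..T, M' t ^ 2 :=
    intervalIntegral.integral_sub (by apply Continuous.intervalIntegrable; fun_prop)
      (by apply Continuous.intervalIntegrable; fun_prop)
  have hM'le : ∫ t in (0:ℝ)..η, M' t ^ 2 ≤ ∫ t in (-T)..T, M' t ^ 2 := by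
    apply integral_mono_interval (by linarith) hη.le hηT
      (Eventually.of_forall fun t => sq_nonneg _)
    apply Continuous.intervalIntegrable; fun_prop
  have hM'0 : 0 ≤ ∫ t in (0:ℝ)..η, M' t ^ 2 := integral_nonneg hη.le fun t _ => sq_nonneg _
  -- assemble
  have hAint : I2 (fun p => φ p ^ 2) (-(1 / 2)) (1 / 2) 0 η = ∫ y in (0:ℝ)..η, A y := I2_swap c1 _ _ _ _
  have hlint : I2 φ (-(1 / 2)) (1 / 2) 0 η = ∫ y in (0:ℝ)..η, M y := I2_swap h1 _ _ _ _
  have hsplit : ∫ y in (0:ℝ)..η, A y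
      = (∫ y in (0:ℝ)..η, (A y - M y ^ 2)) + ∫ y in (0:ℝ)..η, M y ^ 2 := by
    rw [← intervalIntegral.integral_add (by apply Continuous.intervalIntegrable; fun_prop)
      (by apply Continuous.intervalIntegrable; fun_prop)]
    congr 1; ext y; ring
  have hvar : ∫ y in (0:ℝ)..η, (A y - M y ^ 2)
      ≤ η * (1 / 12 * ∫ t in (-T)..T, (A t + B t + D t - M' t ^ 2)) := by
    calc ∫ y in (0:ℝ)..η, (A y - M y ^ 2)
        ≤ ∫ _y in (0:ℝ)..η, (1 / 12 * ∫ t in (-T)..T, (A t + B t + D t - M' t ^ 2)) := by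
          apply integral_mono_on hη.le (by apply Continuous.intervalIntegrable; fun_prop)
            (by simp)
          intro y hy
          exact hsup y ⟨by linarith [hy.1], by linarith [hy.2]⟩
      _ = _ := by rw [intervalIntegral.integral_const, smul_eq_mul, sub_zero]
  rw [hAint, hlint, hsplit]
  have hlast : 1 / η * (∫ y in (0:ℝ)..η, M y ^ 2)
      ≤ η / 9 * (∫ t in (0:ℝ)..η, M' t ^ 2) + 1 / η ^ 2 * (∫ y in (0:ℝ)..η, M y) ^ 2 := by
    calc 1 / η * (∫ y in (0:ℝ)..η, M y ^ 2)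
        ≤ 1 / η * (η ^ 2 / 9 * (∫ t in (0:ℝ)..η, M' t ^ 2)
          + 1 / η * (∫ y in (0:ℝ)..η, M y) ^ 2) := by gcongr
      _ = _ := by field_simp
  have hfirst : 1 / η * (∫ y in (0:ℝ)..η, (A y - M y ^ 2))
      ≤ 1 / 12 * ∫ t in (-T)..T, (A t + B t + D t - M' t ^ 2) := by
    calc 1 / η * (∫ y in (0:ℝ)..η, (A y - M y ^ 2))
        ≤ 1 / η * (η * (1 / 12 * ∫ t in (-T)..T, (A t + B t + D t - M' t ^ 2))) := by gcongr
      _ = _ := by field_simp
  rw [hE2] at hfirst
  have hcoef : η / 9 * (∫ t in (0:ℝ)..η, M' t ^ 2) ≤ 1 / 12 * ∫ t in (0:ℝ)..η, M' t ^ 2 := by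
    apply mul_le_mul_of_nonneg_right _ hM'0
    linarith
  rw [mul_add]
  linarith

end Bx

end Pool.Agent.Helper97.Leaky
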