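import Mathlib

open MeasureTheory Filter Topology Set intervalIntegral

namespace Pool.Agent.Helper97.Leaky

section OneDim

variable {u u' : ℝ → ℝ}

lemma cont_of_deriv (hu : ∀ x, HasDerivAt u (u' x) x) : Continuous u :=
  continuous_iff_continuousAt.2 fun x => (hu x).continuousAt

lemma hasDerivAt_sq (hu : ∀ x, HasDerivAt u (u' x) x) (x : ℝ) :
    HasDerivAt (fun x => u x ^ 2) (2 * u x * u' x) x := by
  exact ((hu x).pow 2).congr_deriv (by simp)

lemma abs_two_mul_le {t : ℝ} (ht : 0 < t) (a b : ℝ) : |2 * a * b| ≤ t⁻¹ * a ^ 2 + t * b ^ 2 := by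
  have h1 : 0 ≤ t⁻¹ * (a - t * b) ^ 2 := by positivity
  have h2 : 0 ≤ t⁻¹ * (a + t * b) ^ 2 := by positivity
  have e1 : t⁻¹ * (a - t * b) ^ 2 = t⁻¹ * a ^ 2 + t * b ^ 2 - 2 * a * b := by field_simp; ring
  have e2 : t⁻¹ * (a + t * b) ^ 2 = t⁻¹ * a ^ 2 + t * b ^ 2 + 2 * a * b := by field_simp; ring
  rw [abs_le]
  constructor <;> linarith

/-- oscillation of the square on an interval -/
lemma osc (hu : ∀ x, HasDerivAt u (u' x) x) (hc : Continuous u') {c d t : ℝ}
    (ht : 0 < t) {y z : ℝ} (hy : y ∈ Icc c d) (hz : z ∈ Icc c d) :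
    |u y ^ 2 - u z ^ 2| ≤ ∫ x in c..d, (t⁻¹ * u x ^ 2 + t * u' x ^ 2) := by
  have hcu := cont_of_deriv hu
  wlog hyz : z ≤ y generalizing y z
  · rw [abs_sub_comm]
    exact this hz hy (le_of_not_ge hyz)
  have h1 : ∫ x in z..y, 2 * u x * u' x = u y ^ 2 - u z ^ 2 :=
    integral_eq_sub_of_hasDerivAt (fun x _ => hasDerivAt_sq hu x)
      (by apply Continuous.intervalIntegrable; fun_prop)
  rw [← h1]
  calc |∫ x in z..y, 2 * u x * u' x| ≤ ∫ x in z..y, |2 * u x * u' x| :=
        abs_integral_le_integral_abs hyz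
    _ ≤ ∫ x in z..y, (t⁻¹ * u x ^ 2 + t * u' x ^ 2) := by
        apply integral_mono_on hyz
        · apply Continuous.intervalIntegrable; fun_prop
        · apply Continuous.intervalIntegrable; fun_prop
        · intro x _; exact abs_two_mul_le ht _ _
    _ ≤ ∫ x in c..d, (t⁻¹ * u x ^ 2 + t * u' x ^ 2) := by
        apply integral_mono_interval hz.1 hyz hy.2
        · exact Filter.Eventually.of_forall fun x => by positivity
        · apply Continuous.intervalIntegrable; fun_prop

/-- sup bound for functions vanishing at the end points -/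
lemma sup_bound (hu : ∀ x, HasDerivAt u (u' x) x) (hc : Continuous u') {c d κ : ℝ}
    (hκ : 0 < κ) (h0 : u c = 0) (h1 : u d = 0) {y : ℝ} (hy : y ∈ Icc c d) :
    u y ^ 2 ≤ 1 / 2 * ∫ x in c..d, (κ * u x ^ 2 + κ⁻¹ * u' x ^ 2) := by
  have hcu := cont_of_deriv hu
  have hi : ∀ a b : ℝ, IntervalIntegrable (fun x => 2 * u x * u' x) volume a b := fun a b => by
    apply Continuous.intervalIntegrable; fun_prop
  have hia : ∀ a b : ℝ, IntervalIntegrable (fun x => |2 * u x * u' x|) volume a b := fun a b => by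
    apply Continuous.intervalIntegrable; fun_prop
  have e1 : ∫ x in c..y, 2 * u x * u' x = u y ^ 2 := by
    rw [integral_eq_sub_of_hasDerivAt (fun x _ => hasDerivAt_sq hu x) (hi _ _), h0]; ring
  have e2 : ∫ x in y..d, 2 * u x * u' x = - u y ^ 2 := by
    rw [integral_eq_sub_of_hasDerivAt (fun x _ => hasDerivAt_sq hu x) (hi _ _), h1]; ring
  have b1 : ∫ x in c..y, 2 * u x * u' x ≤ ∫ x in c..y, |2 * u x * u' x| :=
    (le_abs_self _).trans (abs_integral_le_integral_abs hy.1)
  have b2 : - ∫ x in y..d, 2 * u x * u' x ≤ ∫ x in y..d, |2 * u x * u' x| :=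
    (neg_le_abs _).trans (abs_integral_le_integral_abs hy.2)
  have b3 : (∫ x in c..y, |2 * u x * u' x|) + ∫ x in y..d, |2 * u x * u' x|
      = ∫ x in c..d, |2 * u x * u' x| := integral_add_adjacent_intervals (hia _ _) (hia _ _)
  have b4 : ∫ x in c..d, |2 * u x * u' x| ≤ ∫ x in c..d, (κ * u x ^ 2 + κ⁻¹ * u' x ^ 2) := by
    apply integral_mono_on (hy.1.trans hy.2) (hia _ _)
    · apply Continuous.intervalIntegrable; fun_prop
    · intro x _
      have := abs_two_mul_le (inv_pos.2 hκ) (u x) (u' x)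
      rwa [inv_inv] at this
  rw [e1] at b1
  rw [e2] at b2
  linarith

/-- comparison with the average of the square -/
lemma avg_bound (hu : ∀ x, HasDerivAt u (u' x) x) (hc : Continuous u') {c d t : ℝ} (hcd : c ≤ d)
    (ht : 0 < t) {y : ℝ} (hy : y ∈ Icc c d) :
    |(d - c) * u y ^ 2 - ∫ x in c..d, u x ^ 2|
      ≤ (d - c) * ∫ x in c..d, (t⁻¹ * u x ^ 2 + t * u' x ^ 2) := by
  have hcu := cont_of_deriv hu
  have h1 : (d - c) * u y ^ 2 - ∫ x in c..d, u x ^ 2 = ∫ x in c..d, (u y ^ 2 - u x ^ 2) := by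
    rw [intervalIntegral.integral_sub (by simp)
      (by apply Continuous.intervalIntegrable; fun_prop)]
    simp
  rw [h1, ← Real.norm_eq_abs]
  have h2 := norm_integral_le_of_norm_le_const (a := c) (b := d)
    (f := fun x => u y ^ 2 - u x ^ 2)
    (C := ∫ x in c..d, (t⁻¹ * u x ^ 2 + t * u' x ^ 2)) (by
      intro x hx
      rw [uIoc_of_le hcd] at hx
      rw [Real.norm_eq_abs]
      exact osc hu hc ht hy ⟨hx.1.le, hx.2⟩)
  rw [abs_of_nonneg (sub_nonneg.2 hcd)] at h2
  linarith

/-- Dirichlet-Wirtinger inequality with constant `9` instead of `π²` -/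
lemma dirichlet (hu : ∀ x, HasDerivAt u (u' x) x) (hc : Continuous u') {c d : ℝ} (hcd : c < d)
    (h0 : u c = 0) (h1 : u d = 0) :
    9 / (d - c) ^ 2 * ∫ x in c..d, u x ^ 2 ≤ ∫ x in c..d, u' x ^ 2 := by
  have hcu := cont_of_deriv hu
  have hr : 0 < d - c := sub_pos.2 hcd
  set p : ℝ := 3 / (d - c) with hp
  have hp0 : 0 < p := by positivity
  set m : ℝ := (c + d) / 2 with hm
  have hcos : ∀ x ∈ Icc c d, 0 < Real.cos (p * (x - m)) := by
    intro x hx
    apply Real.cos_pos_of_mem_Ioo
    have h3 : p * (d - c) = 3 := by rw [hp]; field_simp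
    have hpi := Real.pi_gt_three
    have hx1 := hx.1
    have hx2 := hx.2
    constructor
    · have : p * (x - m) ≥ p * (c - m) := by gcongr
      have h4 : p * (c - m) = - (3 / 2) := by rw [hm]; linear_combination (-1/2) * h3
      linarith
    · have : p * (x - m) ≤ p * (d - m) := by gcongr
      have h4 : p * (d - m) = 3 / 2 := by rw [hm]; linear_combination (1/2) * h3
      linarith
  -- the weight
  set w : ℝ → ℝ := fun x => - p * (Real.sin (p * (x - m)) / Real.cos (p * (x - m))) with hw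
  have hwd : ∀ x ∈ Icc c d, HasDerivAt w (- p ^ 2 - w x ^ 2) x := by
    intro x hx
    have hcx := (hcos x hx).ne'
    have h2 : HasDerivAt (fun x => p * (x - m)) p x :=
      (((hasDerivAt_id' x).sub_const m).const_mul p).congr_deriv (by ring)
    have hsin : HasDerivAt (fun x => Real.sin (p * (x - m))) (Real.cos (p * (x - m)) * p) x :=
      (Real.hasDerivAt_sin _).comp x h2
    have hcos' : HasDerivAt (fun x => Real.cos (p * (x - m))) (-Real.sin (p * (x - m)) * p) x :=
      (Real.hasDerivAt_cos _).comp x h2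
    have h3 := (hsin.div hcos' hcx).const_mul (-p)
    refine h3.congr_deriv ?_
    have hwx : w x = - p * (Real.sin (p * (x - m)) / Real.cos (p * (x - m))) := rfl
    rw [hwx]
    field_simp
    ring
  have hwc : ContinuousOn w (Icc c d) := fun x hx => (hwd x hx).continuousAt.continuousWithinAt
  have hGd : ∀ x ∈ uIcc c d, HasDerivAt (fun x => w x * u x ^ 2)
      ((- p ^ 2 - w x ^ 2) * u x ^ 2 + w x * (2 * u x * u' x)) x := by
    intro x hx
    rw [uIcc_of_le hcd.le] at hx
    exact (hwd x hx).mul (hasDerivAt_sq hu x)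
  have hgi : IntervalIntegrable (fun x => (- p ^ 2 - w x ^ 2) * u x ^ 2 + w x * (2 * u x * u' x))
      volume c d := by
    apply ContinuousOn.intervalIntegrable
    rw [uIcc_of_le hcd.le]
    have h1 : ContinuousOn u (Icc c d) := hcu.continuousOn
    have h2 : ContinuousOn u' (Icc c d) := hc.continuousOn
    fun_prop
  have hG : ∫ x in c..d, ((- p ^ 2 - w x ^ 2) * u x ^ 2 + w x * (2 * u x * u' x)) = 0 := by
    rw [integral_eq_sub_of_hasDerivAt hGd hgi, h0, h1]; ring
  have hle : ∫ x in c..d, ((- p ^ 2 - w x ^ 2) * u x ^ 2 + w x * (2 * u x * u' x))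
      ≤ ∫ x in c..d, (u' x ^ 2 - p ^ 2 * u x ^ 2) := by
    apply integral_mono_on hcd.le hgi
    · apply Continuous.intervalIntegrable; fun_prop
    · intro x _
      nlinarith [sq_nonneg (u' x - w x * u x)]
  rw [hG, intervalIntegral.integral_sub (by apply Continuous.intervalIntegrable; fun_prop)
    (by apply Continuous.intervalIntegrable; fun_prop), intervalIntegral.integral_const_mul] at hle
  have hp2 : p ^ 2 = 9 / (d - c) ^ 2 := by rw [hp]; field_simp; norm_num
  rw [hp2] at hle
  linarith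

/-- Poincare inequality -/
lemma poincare (hu : ∀ x, HasDerivAt u (u' x) x) (hc : Continuous u') {c d : ℝ} (hcd : c < d) :
    ∫ x in c..d, u x ^ 2 ≤ (d - c) ^ 2 / 9 * (∫ x in c..d, u' x ^ 2)
      + 1 / (d - c) * (∫ x in c..d, u x) ^ 2 := by
  have hcu := cont_of_deriv hu
  have hr : 0 < d - c := sub_pos.2 hcd
  set r := d - c with hrdef
  set m : ℝ := 1 / r * ∫ x in c..d, u x with hm
  have hmr : r * m = ∫ x in c..d, u x := by rw [hm]; field_simp
  set U : ℝ → ℝ := fun x => ∫ y in c..x, (u y - m) with hU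
  have hUd : ∀ x, HasDerivAt U (u x - m) x := fun x =>
    integral_hasDerivAt_right (by apply Continuous.intervalIntegrable; fun_prop)
      (by apply Continuous.stronglyMeasurableAtFilter; fun_prop)
      (by apply Continuous.continuousAt; fun_prop)
  have hUc : U c = 0 := by simp [hU]
  have hUd' : U d = 0 := by
    simp only [hU]
    rw [intervalIntegral.integral_sub (hcu.intervalIntegrable _ _) (by simp)]
    rw [intervalIntegral.integral_const, smul_eq_mul, ← hmr]
    ring
  have hUcont : Continuous U := cont_of_deriv hUd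
  have hD := dirichlet hUd (by fun_prop) hcd hUc hUd'
  rw [← hrdef] at hD
  -- integration by parts
  have hparts : ∫ x in c..d, (u x - m) ^ 2 = - ∫ x in c..d, u' x * U x := by
    have h1 : ∀ x ∈ uIcc c d, HasDerivAt (fun x => (u x - m) * U x)
        (u' x * U x + (u x - m) * (u x - m)) x := fun x _ =>
      ((hu x).sub_const m).mul (hUd x)
    have h2 := integral_eq_sub_of_hasDerivAt h1 (by apply Continuous.intervalIntegrable; fun_prop)
    rw [hUc, hUd', intervalIntegral.integral_add (by apply Continuous.intervalIntegrable; fun_prop)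
      (by apply Continuous.intervalIntegrable; fun_prop)] at h2
    have h3 : ∫ x in c..d, (u x - m) ^ 2 = ∫ x in c..d, (u x - m) * (u x - m) := by
      congr 1; ext x; ring
    rw [h3]
    linarith
  have hbound : - ∫ x in c..d, u' x * U x
      ≤ ∫ x in c..d, (r ^ 2 / 18 * u' x ^ 2 + 9 / (2 * r ^ 2) * U x ^ 2) := by
    rw [← intervalIntegral.integral_neg]
    apply integral_mono_on hcd.le
    · apply Continuous.intervalIntegrable; fun_prop
    · apply Continuous.intervalIntegrable; fun_prop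
    · intro x _
      have h1 : 0 ≤ 1 / (18 * r ^ 2) * (r ^ 2 * u' x + 9 * U x) ^ 2 := by positivity
      have h2 : 1 / (18 * r ^ 2) * (r ^ 2 * u' x + 9 * U x) ^ 2
          = r ^ 2 / 18 * u' x ^ 2 + 9 / (2 * r ^ 2) * U x ^ 2 + u' x * U x := by
        field_simp; ring
      linarith
  rw [intervalIntegral.integral_add (by apply Continuous.intervalIntegrable; fun_prop)
      (by apply Continuous.intervalIntegrable; fun_prop), intervalIntegral.integral_const_mul,
      intervalIntegral.integral_const_mul] at hbound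
  have hexp : ∫ x in c..d, (u x - m) ^ 2 = (∫ x in c..d, u x ^ 2) - r * m ^ 2 := by
    have h1 : ∫ x in c..d, (u x - m) ^ 2 = ∫ x in c..d, (u x ^ 2 - (2 * m) * u x + m ^ 2) := by
      congr 1; ext x; ring
    rw [h1, intervalIntegral.integral_add (by apply Continuous.intervalIntegrable; fun_prop)
      (by simp), intervalIntegral.integral_sub (by apply Continuous.intervalIntegrable; fun_prop)
      (by apply Continuous.intervalIntegrable; fun_prop), intervalIntegral.integral_const_mul,
      intervalIntegral.integral_const, ← hmr, smul_eq_mul]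
    ring
  have hD' : 9 / (2 * r ^ 2) * (∫ x in c..d, U x ^ 2) ≤ 1 / 2 * ∫ x in c..d, (u x - m) ^ 2 := by
    have : 9 / (2 * r ^ 2) * (∫ x in c..d, U x ^ 2) = 1 / 2 * (9 / r ^ 2 * ∫ x in c..d, U x ^ 2) := by
      field_simp
    rw [this]
    gcongr
  have hfin : 1 / r * (∫ x in c..d, u x) ^ 2 = r * m ^ 2 := by
    rw [← hmr]; field_simp
  rw [hfin]
  rw [← hparts] at hbound
  linarith

/-- Poincare inequality for even functions -/
lemma poincare_even (hu : ∀ x, HasDerivAt u (u' x) x) (hc : Continuous u') {a : ℝ} (ha : 0 < a)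
    (he : ∀ x, u (-x) = u x) :
    ∫ x in (-a)..a, u x ^ 2 ≤ a ^ 2 / 9 * (∫ x in (-a)..a, u' x ^ 2)
      + 1 / (2 * a) * (∫ x in (-a)..a, u x) ^ 2 := by
  have hcu := cont_of_deriv hu
  have h1 := poincare hu hc (neg_lt_zero.2 ha)
  have h2 := poincare hu hc ha
  rw [sub_neg_eq_add, zero_add] at h1
  rw [sub_zero] at h2
  have e0 : ∀ f : ℝ → ℝ, Continuous f → ∫ x in (-a)..a, f x
      = (∫ x in (-a)..0, f x) + ∫ x in (0:ℝ)..a, f x := fun f hf =>
    (integral_add_adjacent_intervals (hf.intervalIntegrable _ _) (hf.intervalIntegrable _ _)).symm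
  have e1 : ∫ x in (-a)..0, u x = ∫ x in (0:ℝ)..a, u x := by
    have := integral_comp_neg (a := 0) (b := a) u
    simp only [he, neg_zero] at this
    exact this.symm
  rw [e0 _ (by fun_prop), e0 _ (by fun_prop), e0 _ hcu, e1]
  rw [e1] at h1
  have h3 : 1 / (2 * a) * ((∫ x in (0:ℝ)..a, u x) + ∫ x in (0:ℝ)..a, u x) ^ 2
      = 2 * (1 / a * (∫ x in (0:ℝ)..a, u x) ^ 2) := by
    field_simp; ring
  rw [h3]
  linarith

/-- Cauchy-Schwarz on an interval from a zero -/
lemma sq_le_of_zero (hu : ∀ x, HasDerivAt u (u' x) x) (hc : Continuous u') (h0 : u 0 = 0)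
    {x : ℝ} (hx : 0 ≤ x) : u x ^ 2 ≤ x * ∫ y in (0:ℝ)..x, u' y ^ 2 := by
  rcases hx.eq_or_lt with rfl | hx
  · simp [h0]
  have e1 : ∫ y in (0:ℝ)..x, u' y = u x := by
    rw [integral_eq_sub_of_hasDerivAt (fun x _ => hu x) (hc.intervalIntegrable _ _), h0, sub_zero]
  have h1 : 0 ≤ ∫ y in (0:ℝ)..x, (u' y - u x / x) ^ 2 :=
    integral_nonneg hx.le fun y _ => sq_nonneg _
  have h2 : ∫ y in (0:ℝ)..x, (u' y - u x / x) ^ 2
      = (∫ y in (0:ℝ)..x, u' y ^ 2) - u x ^ 2 / x := by
    have h3 : ∫ y in (0:ℝ)..x, (u' y - u x / x) ^ 2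
        = ∫ y in (0:ℝ)..x, (u' y ^ 2 - (2 * (u x / x)) * u' y + (u x / x) ^ 2) := by
      congr 1; ext y; ring
    rw [h3, intervalIntegral.integral_add (by apply Continuous.intervalIntegrable; fun_prop)
      (by simp), intervalIntegral.integral_sub (by apply Continuous.intervalIntegrable; fun_prop)
      (by apply Continuous.intervalIntegrable; fun_prop), intervalIntegral.integral_const_mul,
      intervalIntegral.integral_const, e1, smul_eq_mul]
    field_simp
    ring
  rw [h2] at h1
  have h4 : u x ^ 2 = x * (u x ^ 2 / x) := by field_simp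
  rw [h4]
  gcongr
  linarith

lemma zero_bound (hu : ∀ x, HasDerivAt u (u' x) x) (hc : Continuous u') (h0 : u 0 = 0)
    {a : ℝ} (ha : 0 ≤ a) :
    ∫ x in (0:ℝ)..a, u x ^ 2 ≤ a ^ 2 / 2 * ∫ x in (0:ℝ)..a, u' x ^ 2 := by
  have hcu := cont_of_deriv hu
  calc ∫ x in (0:ℝ)..a, u x ^ 2 ≤ ∫ x in (0:ℝ)..a, x * ∫ y in (0:ℝ)..a, u' y ^ 2 := by
        apply integral_mono_on ha
        · apply Continuous.intervalIntegrable; fun_prop
        · apply Continuous.intervalIntegrable; fun_prop
        · intro x hx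
          refine (sq_le_of_zero hu hc h0 hx.1).trans ?_
          apply mul_le_mul_of_nonneg_left _ hx.1
          apply integral_mono_interval le_rfl hx.1 hx.2
          · exact Filter.Eventually.of_forall fun y => sq_nonneg _
          · apply Continuous.intervalIntegrable; fun_prop
    _ = _ := by
        rw [intervalIntegral.integral_mul_const, integral_id]
        ring

/-- bound for odd functions -/
lemma odd_bound (hu : ∀ x, HasDerivAt u (u' x) x) (hc : Continuous u') {a : ℝ} (ha : 0 ≤ a)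
    (ho : ∀ x, u (-x) = - u x) :
    ∫ x in (-a)..a, u x ^ 2 ≤ a ^ 2 / 2 * ∫ x in (-a)..a, u' x ^ 2 := by
  have hcu := cont_of_deriv hu
  have h0 : u 0 = 0 := by
    have := ho 0
    rw [neg_zero] at this
    linarith
  have hd' : ∀ x, u' (-x) = u' x := by
    intro x
    have h1 : HasDerivAt (fun x => u (-x)) (-u' (-x)) x :=
      ((hu (-x)).scomp x (hasDerivAt_neg x)).congr_deriv (by simp)
    have h2 : HasDerivAt (fun x => u (-x)) (-u' x) x := by
      have : (fun x => u (-x)) = fun x => - u x := funext ho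
      rw [this]
      exact (hu x).neg
    have := h1.unique h2
    linarith
  have e0 : ∀ f : ℝ → ℝ, Continuous f → (∀ x, f (-x) = f x) → ∫ x in (-a)..a, f x
      = 2 * ∫ x in (0:ℝ)..a, f x := by
    intro f hf hfe
    rw [← integral_add_adjacent_intervals (hf.intervalIntegrable (-a) 0)
      (hf.intervalIntegrable 0 a)]
    have := integral_comp_neg (a := 0) (b := a) f
    simp only [hfe, neg_zero] at this
    rw [← this]; ring
  rw [e0 (fun x => u x ^ 2) (by fun_prop) (fun x => by simp [ho]),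
    e0 (fun x => u' x ^ 2) (by fun_prop) (fun x => by simp [hd'])]
  have := zero_bound hu hc h0 ha
  linarith

end OneDim

end Pool.Agent.Helper97.Leaky
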