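import Pool.Agent.Helper97.Leaky.Cplx

open MeasureTheory Filter Topology Set
open scoped InnerProductSpace ComplexConjugate

namespace Pool.Agent.Helper97.Leaky

/-- scaled curve -/
noncomputable def scurve (t : ℝ) (γ : ℝ → ℝ × ℝ) (s : ℝ) : ℝ × ℝ := t • γ (t⁻¹ • s)

lemma pdist_smul {t : ℝ} (ht : 0 ≤ t) (p q : ℝ × ℝ) : pdist (t • p) (t • q) = t * pdist p q := by
  unfold pdist
  have e : ((t • p).1 - (t • q).1) ^ 2 + ((t • p).2 - (t • q).2) ^ 2
      = t ^ 2 * ((p.1 - q.1) ^ 2 + (p.2 - q.2) ^ 2) := by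
    simp only [Prod.smul_fst, Prod.smul_snd, smul_eq_mul]
    ring
  rw [e, Real.sqrt_mul (by positivity), Real.sqrt_sq ht]

lemma abs_scale {t : ℝ} (ht : 0 < t) (s s' : ℝ) : t * |t⁻¹ • s - t⁻¹ • s'| = |s - s'| := by
  rw [← smul_sub, smul_eq_mul, abs_mul, abs_of_pos (inv_pos.2 ht)]
  field_simp

lemma IsArcCurve.scale {γ : ℝ → ℝ × ℝ} (h : IsArcCurve γ) {t : ℝ} (ht : 0 < t) :
    IsArcCurve (scurve t γ) where
  continuous := by
    have := h.continuous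
    unfold scurve
    fun_prop
  dist_le := by
    intro s s'
    unfold scurve
    rw [pdist_smul ht.le, ← abs_scale ht s s']
    gcongr
    exact h.dist_le _ _
  piecewise := by
    classical
    obtain ⟨S, h1, h2⟩ := h.piecewise
    refine ⟨S.image fun s => t * s, ?_, ?_⟩
    · intro a b hab hS
      have hab' : t⁻¹ • a < t⁻¹ • b := by
        rw [smul_eq_mul, smul_eq_mul]
        exact mul_lt_mul_of_pos_left hab (inv_pos.2 ht)
      have h3 := h1 (t⁻¹ • a) (t⁻¹ • b) hab' (by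
        intro s hs hmem
        apply hS (t * s) (Finset.mem_image.2 ⟨s, hs, rfl⟩)
        rw [smul_eq_mul, smul_eq_mul] at hmem
        constructor
        · have := mul_lt_mul_of_pos_left hmem.1 ht
          rwa [mul_inv_cancel_left₀ ht.ne'] at this
        · have := mul_lt_mul_of_pos_left hmem.2 ht
          rwa [mul_inv_cancel_left₀ ht.ne'] at this)
      have h4 : ContDiffOn ℝ 1 (fun s : ℝ => γ (t⁻¹ • s)) (Icc a b) := by
        apply h3.comp (t := Icc (t⁻¹ • a) (t⁻¹ • b)) (f := fun s : ℝ => t⁻¹ • s)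
        · fun_prop
        · intro s hs
          simp only [smul_eq_mul]
          exact ⟨mul_le_mul_of_nonneg_left hs.1 (inv_pos.2 ht).le,
            mul_le_mul_of_nonneg_left hs.2 (inv_pos.2 ht).le⟩
      exact h4.const_smul t
    · intro s hs
      have hs' : t⁻¹ • s ∉ S := by
        intro hmem
        apply hs
        rw [Finset.mem_image]
        exact ⟨t⁻¹ • s, hmem, by rw [smul_eq_mul, mul_inv_cancel_left₀ ht.ne']⟩
      obtain ⟨v, hv, hv1⟩ := h2 _ hs'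
      refine ⟨v, ?_, hv1⟩
      have h3 : HasDerivAt (fun s : ℝ => t⁻¹ • s) t⁻¹ s := by
        simpa using (hasDerivAt_id' s).const_mul t⁻¹
      have h4 := (hv.scomp s h3).const_smul t
      unfold scurve
      refine h4.congr_deriv ?_
      rw [smul_smul, mul_inv_cancel₀ ht.ne', one_smul]

lemma A1.scale {γ : ℝ → ℝ × ℝ} (h : A1 γ) {t : ℝ} (ht : 0 < t) : A1 (scurve t γ) := by
  obtain ⟨c, hc, h1⟩ := h
  refine ⟨c, hc, fun s s' => ?_⟩
  unfold scurve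
  rw [pdist_smul ht.le, ← abs_scale ht s s']
  have := h1 (t⁻¹ • s) (t⁻¹ • s')
  calc c * (t * |t⁻¹ • s - t⁻¹ • s'|) = t * (c * |t⁻¹ • s - t⁻¹ • s'|) := by ring
    _ ≤ _ := by gcongr

lemma A3.scale {γ : ℝ → ℝ × ℝ} (h : A3 γ) {t : ℝ} (ht : 0 < t) : A3 (scurve t γ) := by
  obtain ⟨s, s', h1⟩ := h
  refine ⟨t * s, t * s', ?_⟩
  unfold scurve
  rw [pdist_smul ht.le, smul_eq_mul, smul_eq_mul, inv_mul_cancel_left₀ ht.ne',
    inv_mul_cancel_left₀ ht.ne', ← mul_sub, abs_mul, abs_of_pos ht]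
  exact mul_lt_mul_of_pos_left h1 ht

/-! ### scaling of `L²` norms -/

section norm

variable {E : Type*} [NormedAddCommGroup E] [NormedSpace ℝ E] [MeasurableSpace E] [BorelSpace E]
  [FiniteDimensional ℝ E] (μ : Measure E) [μ.IsAddHaarMeasure]

lemma aesm_map {t : ℝ} (ht : 0 < t) {F : E → ℂ} (hF : AEStronglyMeasurable F μ) :
    AEStronglyMeasurable F (Measure.map (fun x : E => t⁻¹ • x) μ) := by
  have hmap := Measure.map_addHaar_smul μ (inv_pos.2 ht).ne'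
  rw [hmap]
  exact hF.smul_measure _

lemma eLpNorm_scale {t : ℝ} (ht : 0 < t) {F : E → ℂ} (hF : AEStronglyMeasurable F μ) :
    eLpNorm (fun x => F (t⁻¹ • x)) 2 μ
      = ENNReal.ofReal |((t⁻¹) ^ Module.finrank ℝ E)⁻¹| ^ (1 / (2:ENNReal)).toReal
        • eLpNorm F 2 μ := by
  have hmap := Measure.map_addHaar_smul μ (inv_pos.2 ht).ne'
  have h1 := eLpNorm_map_measure (p := 2) (aesm_map μ ht hF)
    (by fun_prop : AEMeasurable (fun x : E => t⁻¹ • x) μ)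
  have h2 : eLpNorm (fun x => F (t⁻¹ • x)) 2 μ
      = eLpNorm F 2 (Measure.map (fun x : E => t⁻¹ • x) μ) := h1.symm
  rw [h2, hmap, eLpNorm_smul_measure_of_ne_top (by norm_num)]

lemma MemLp.scale {t : ℝ} (ht : 0 < t) {F : E → ℂ} (hF : MemLp F 2 μ) :
    MemLp (fun x => F (t⁻¹ • x)) 2 μ := by
  have hmap := Measure.map_addHaar_smul μ (inv_pos.2 ht).ne'
  have h1 : MemLp F 2 (Measure.map (fun x : E => t⁻¹ • x) μ) := by
    rw [hmap]
    exact MeasureTheory.MemLp.smul_measure hF ENNReal.ofReal_ne_top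
  exact (memLp_map_measure_iff (aesm_map μ ht hF.1) (by fun_prop)).1 h1

end norm

lemma L2Lim.scale {X : Type} [NormedAddCommGroup X] [NormedSpace ℝ X] [MeasureSpace X]
    [BorelSpace X] [FiniteDimensional ℝ X] [(volume : Measure X).IsAddHaarMeasure] {t : ℝ}
    (ht : 0 < t) (c : ℂ) {f : ℕ → X → ℂ} {g : X → ℂ} (hf : ∀ n, Continuous (f n))
    (h : L2Lim f g) :
    L2Lim (fun n x => c * f n (t⁻¹ • x)) (fun x => c * g (t⁻¹ • x)) := by
  refine ⟨(MemLp.scale volume ht h.1).const_mul c, ?_⟩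
  have h1 : ∀ n, eLpNorm (fun x => c * f n (t⁻¹ • x) - c * g (t⁻¹ • x)) 2 (volume : Measure X)
      = ‖c‖ₑ * (ENNReal.ofReal |((t⁻¹) ^ Module.finrank ℝ X)⁻¹| ^ (1 / (2:ENNReal)).toReal
        • eLpNorm (fun x => f n x - g x) 2 (volume : Measure X)) := by
    intro n
    have hm : AEStronglyMeasurable (fun x => f n x - g x) (volume : Measure X) :=
      (hf n).aestronglyMeasurable.sub h.1.1
    rw [← eLpNorm_scale volume ht hm, ← eLpNorm_const_smul]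
    congr 1
    ext x
    simp only [Pi.smul_apply, smul_eq_mul]
    ring
  simp only [h1, smul_eq_mul]
  have h2 := h.2
  have h3 : Tendsto (fun n => ENNReal.ofReal |((t⁻¹) ^ Module.finrank ℝ X)⁻¹| ^ (1 / (2:ENNReal)).toReal
        * eLpNorm (fun x => f n x - g x) 2 (volume : Measure X)) atTop (𝓝 0) := by
    have := ENNReal.Tendsto.const_mul (a := ENNReal.ofReal |((t⁻¹) ^ Module.finrank ℝ X)⁻¹|
      ^ (1 / (2:ENNReal)).toReal) h2 (Or.inr (ENNReal.rpow_ne_top_of_nonneg (by positivity)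
        ENNReal.ofReal_ne_top))
    simpa using this
  have := ENNReal.Tendsto.const_mul (a := ‖c‖ₑ) h3 (Or.inr enorm_ne_top)
  simpa using this

lemma d1_comp_smul {φ : ℝ × ℝ → ℂ} (hφ : ContDiff ℝ 1 φ) (r : ℝ) (p : ℝ × ℝ) :
    d1 (fun p => φ (r • p)) p = (r : ℂ) * d1 φ (r • p) := by
  have h1 : HasFDerivAt φ (fderiv ℝ φ (r • p)) (r • p) :=
    (hφ.differentiable (by norm_num) _).hasFDerivAt
  have h2 : HasFDerivAt (fun p : ℝ × ℝ => r • p) (r • ContinuousLinearMap.id ℝ (ℝ × ℝ)) p :=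
    (hasFDerivAt_id p).const_smul r
  have h3 := h1.comp p h2
  unfold d1
  have h4 : fderiv ℝ (fun p => φ (r • p)) p
      = (fderiv ℝ φ (r • p)) ∘L (r • ContinuousLinearMap.id ℝ (ℝ × ℝ)) := h3.fderiv
  rw [h4]
  simp only [ContinuousLinearMap.comp_apply, smul_apply,
    ContinuousLinearMap.id_apply, map_smul]
  rw [Complex.real_smul]

lemma d2_comp_smul {φ : ℝ × ℝ → ℂ} (hφ : ContDiff ℝ 1 φ) (r : ℝ) (p : ℝ × ℝ) :
    d2 (fun p => φ (r • p)) p = (r : ℂ) * d2 φ (r • p) := by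
  have h1 : HasFDerivAt φ (fderiv ℝ φ (r • p)) (r • p) :=
    (hφ.differentiable (by norm_num) _).hasFDerivAt
  have h2 : HasFDerivAt (fun p : ℝ × ℝ => r • p) (r • ContinuousLinearMap.id ℝ (ℝ × ℝ)) p :=
    (hasFDerivAt_id p).const_smul r
  have h3 := h1.comp p h2
  unfold d2
  have h4 : fderiv ℝ (fun p => φ (r • p)) p
      = (fderiv ℝ φ (r • p)) ∘L (r • ContinuousLinearMap.id ℝ (ℝ × ℝ)) := h3.fderiv
  rw [h4]
  simp only [ContinuousLinearMap.comp_apply, smul_apply,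
    ContinuousLinearMap.id_apply, map_smul]
  rw [Complex.real_smul]

lemma IsTest.comp_smul {φ : ℝ × ℝ → ℂ} (h : IsTest φ) {r : ℝ} (hr : r ≠ 0) :
    IsTest (fun p => φ (r • p)) := by
  refine ⟨?_, h.2.comp_homeomorph (Homeomorph.smul (Units.mk0 r hr))⟩
  have h1 := h.1
  fun_prop

lemma cont_d1 {φ : ℝ × ℝ → ℂ} (hφ : ContDiff ℝ 1 φ) : Continuous (d1 φ) := by
  have := hφ.continuous_fderiv (by norm_num)
  unfold d1
  fun_prop

lemma cont_d2 {φ : ℝ × ℝ → ℂ} (hφ : ContDiff ℝ 1 φ) : Continuous (d2 φ) := by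
  have := hφ.continuous_fderiv (by norm_num)
  unfold d2
  fun_prop

lemma int2 (F : ℝ × ℝ → ℂ) {t : ℝ} (ht : 0 < t) :
    ∫ p, F (t⁻¹ • p) = (t : ℂ) ^ 2 * ∫ p, F p := by
  rw [Measure.integral_comp_inv_smul_of_nonneg volume F ht.le,
    show Module.finrank ℝ (ℝ × ℝ) = 2 by simp, Complex.real_smul]
  push_cast
  ring

lemma int1 (F : ℝ → ℂ) {t : ℝ} (ht : 0 < t) :
    ∫ s, F (t⁻¹ • s) = (t : ℂ) * ∫ s, F s := by
  rw [Measure.integral_comp_inv_smul_of_nonneg volume F ht.le, Module.finrank_self, pow_one,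
    Complex.real_smul]

/-- scaling of eigenfunctions -/
theorem IsEigen.scale {α E : ℝ} {γ : ℝ → ℝ × ℝ} (hγ : Continuous γ) {ψ : ℝ × ℝ → ℂ}
    (h : IsEigen α γ E ψ) {t : ℝ} (ht : 0 < t) :
    IsEigen (α / t) (scurve t γ) (E / t ^ 2) (fun p => ψ (t⁻¹ • p)) := by
  have htc : (t : ℂ) ≠ 0 := by exact_mod_cast ht.ne'
  obtain ⟨ψ₁, ψ₂, τ, ⟨φ, hφ, l0, l1, l2, l3⟩, heq⟩ := h
  refine ⟨fun p => ((t⁻¹ : ℝ) : ℂ) * ψ₁ (t⁻¹ • p), fun p => ((t⁻¹ : ℝ) : ℂ) * ψ₂ (t⁻¹ • p),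
    fun s => τ (t⁻¹ • s), ⟨fun n p => φ n (t⁻¹ • p), ?_, ?_, ?_, ?_, ?_⟩, ?_⟩
  · intro n
    exact (hφ n).comp_smul (inv_pos.2 ht).ne'
  · have := l0.scale ht 1 (fun n => (hφ n).1.continuous)
    simpa only [one_mul] using this
  · have := l1.scale ht ((t⁻¹ : ℝ) : ℂ) (fun n => cont_d1 (hφ n).1)
    have e : (fun n => d1 (fun p => φ n (t⁻¹ • p)))
        = fun n x => ((t⁻¹ : ℝ) : ℂ) * d1 (φ n) (t⁻¹ • x) := by
      ext n p
      exact d1_comp_smul (hφ n).1 _ _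
    rw [e]
    exact this
  · have := l2.scale ht ((t⁻¹ : ℝ) : ℂ) (fun n => cont_d2 (hφ n).1)
    have e : (fun n => d2 (fun p => φ n (t⁻¹ • p)))
        = fun n x => ((t⁻¹ : ℝ) : ℂ) * d2 (φ n) (t⁻¹ • x) := by
      ext n p
      exact d2_comp_smul (hφ n).1 _ _
    rw [e]
    exact this
  · have := l3.scale ht 1 (fun n => ((hφ n).1.continuous.comp hγ))
    simp only [one_mul] at this
    have e : (fun n s => φ n (t⁻¹ • scurve t γ s)) = fun n s => φ n (γ (t⁻¹ • s)) := by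
      ext n s
      unfold scurve
      rw [smul_smul, inv_mul_cancel₀ ht.ne', one_smul]
    rw [e]
    exact this
  · intro χ hχ
    set χ' : ℝ × ℝ → ℂ := fun p => χ (t • p) with hχ'
    have hχ'T : IsTest χ' := hχ.comp_smul ht.ne'
    have hback : ∀ p, χ' (t⁻¹ • p) = χ p := by
      intro p
      simp only [hχ']
      rw [smul_smul, mul_inv_cancel₀ ht.ne', one_smul]
    have hbackf : (fun p => χ' (t⁻¹ • p)) = χ := funext hback
    have hd1 : ∀ p, d1 χ p = ((t⁻¹ : ℝ) : ℂ) * d1 χ' (t⁻¹ • p) := by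
      intro p
      conv_lhs => rw [← hbackf]
      exact d1_comp_smul hχ'T.1 _ _
    have hd2 : ∀ p, d2 χ p = ((t⁻¹ : ℝ) : ℂ) * d2 χ' (t⁻¹ • p) := by
      intro p
      conv_lhs => rw [← hbackf]
      exact d2_comp_smul hχ'T.1 _ _
    have h0 := heq χ' hχ'T
    -- gradient term
    set F1 : ℝ × ℝ → ℂ := fun q => conj (d1 χ' q) * ψ₁ q + conj (d2 χ' q) * ψ₂ q with hF1
    set F2 : ℝ → ℂ := fun r => conj (χ' (γ r)) * τ r with hF2
    set F3 : ℝ × ℝ → ℂ := fun q => conj (χ' q) * ψ q with hF3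
    have g1 : ∫ p, (conj (d1 χ p) * (((t⁻¹ : ℝ) : ℂ) * ψ₁ (t⁻¹ • p))
          + conj (d2 χ p) * (((t⁻¹ : ℝ) : ℂ) * ψ₂ (t⁻¹ • p))) = ∫ p, F1 p := by
      have e : ∀ p, (conj (d1 χ p) * (((t⁻¹ : ℝ) : ℂ) * ψ₁ (t⁻¹ • p))
          + conj (d2 χ p) * (((t⁻¹ : ℝ) : ℂ) * ψ₂ (t⁻¹ • p)))
          = (((t⁻¹ : ℝ) : ℂ) ^ 2) * F1 (t⁻¹ • p) := by
        intro p
        rw [hd1, hd2, map_mul, map_mul, Complex.conj_ofReal, hF1]
        ring
      simp only [e]
      rw [integral_const_mul, int2 F1 ht]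
      push_cast
      field_simp
    have g2 : ∫ s, conj (χ (scurve t γ s)) * τ (t⁻¹ • s) = (t : ℂ) * ∫ s, F2 s := by
      rw [← int1 F2 ht]
      rfl
    have g3 : ∫ p, conj (χ p) * ψ (t⁻¹ • p) = (t : ℂ) ^ 2 * ∫ p, F3 p := by
      rw [← int2 F3 ht]
      congr 1
      ext p
      rw [hF3]
      simp only
      rw [hback]
    rw [g1, g2, g3]
    push_cast
    have e1 : (α : ℂ) / (t : ℂ) * ((t : ℂ) * ∫ s, F2 s) = (α : ℂ) * ∫ s, F2 s := by
      field_simp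
    have e2 : (E : ℂ) / (t : ℂ) ^ 2 * ((t : ℂ) ^ 2 * ∫ p, F3 p) = (E : ℂ) * ∫ p, F3 p := by
      field_simp
    rw [e1, e2]
    exact h0

/-- eigenfunctions up to null sets -/
lemma IsEigen.congr {α E : ℝ} {γ : ℝ → ℝ × ℝ} {ψ ψ' : ℝ × ℝ → ℂ} (h : IsEigen α γ E ψ)
    (hψ : ψ' =ᵐ[volume] ψ) : IsEigen α γ E ψ' := by
  obtain ⟨ψ₁, ψ₂, τ, ⟨φ, hφ, l0, l1, l2, l3⟩, heq⟩ := h
  refine ⟨ψ₁, ψ₂, τ, ⟨φ, hφ, ⟨l0.1.ae_eq hψ.symm, ?_⟩, l1, l2, l3⟩, fun χ hχ => ?_⟩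
  · refine l0.2.congr fun n => ?_
    apply eLpNorm_congr_ae
    filter_upwards [hψ] with x hx
    rw [hx]
  · rw [heq χ hχ]
    congr 1
    apply integral_congr_ae
    filter_upwards [hψ] with x hx
    rw [hx]

/-- two orthogonal nonzero eigenfunctions -/
lemma two_eigen {α E : ℝ} {γ : ℝ → ℝ × ℝ} {f g : ℝ × ℝ → ℂ} (hf : IsEigen α γ E f)
    (hg : IsEigen α γ E g) (horth : ∫ p, conj (f p) * g p = 0)
    (hff : ∫ p, conj (f p) * f p ≠ 0) (hgg : ∫ p, conj (g p) * g p ≠ 0) :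
    ∃ ψ₁ ∈ eigenspace α γ E, ∃ ψ₂ ∈ eigenspace α γ E, LinearIndependent ℂ ![ψ₁, ψ₂] := by
  have mf : MemLp f 2 (volume : Measure (ℝ × ℝ)) := by
    obtain ⟨_, _, _, ⟨_, _, l0, _⟩, _⟩ := hf
    exact l0.1
  have mg : MemLp g 2 (volume : Measure (ℝ × ℝ)) := by
    obtain ⟨_, _, _, ⟨_, _, l0, _⟩, _⟩ := hg
    exact l0.1
  have hin : ∀ {a b : ℝ × ℝ → ℂ} (ha : MemLp a 2 (volume : Measure (ℝ × ℝ)))
      (hb : MemLp b 2 (volume : Measure (ℝ × ℝ))),
      (inner ℂ (ha.toLp a) (hb.toLp b) : ℂ) = ∫ p, conj (a p) * b p := by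
    intro a b ha hb
    rw [L2.inner_def]
    apply integral_congr_ae
    filter_upwards [ha.coeFn_toLp, hb.coeFn_toLp] with x h1 h2
    rw [h1, h2]
    simp [mul_comm]
  refine ⟨mf.toLp f, hf.congr mf.coeFn_toLp, mg.toLp g, hg.congr mg.coeFn_toLp, ?_⟩
  rw [LinearIndependent.pair_iff]
  intro s r hsr
  have h1 : (inner ℂ (mf.toLp f) (s • mf.toLp f + r • mg.toLp g) : ℂ) = 0 := by
    rw [hsr, inner_zero_right]
  have h2 : (inner ℂ (mg.toLp g) (s • mf.toLp f + r • mg.toLp g) : ℂ) = 0 := by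
    rw [hsr, inner_zero_right]
  have hgf : (inner ℂ (mg.toLp g) (mf.toLp f) : ℂ) = 0 := by
    rw [← inner_conj_symm, hin mf mg, horth, map_zero]
  rw [inner_add_right, inner_smul_right, inner_smul_right, hin mf mg, horth, mul_zero, add_zero,
    hin mf mf] at h1
  rw [inner_add_right, inner_smul_right, inner_smul_right, hgf, mul_zero, zero_add,
    hin mg mg] at h2
  constructor
  · rcases mul_eq_zero.1 h1 with h | h
    · exact h
    · exact absurd h hff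
  · rcases mul_eq_zero.1 h2 with h | h
    · exact h
    · exact absurd h hgg

end Pool.Agent.Helper97.Leaky
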