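import Pool.Agent.Helper97.Leaky.Forms
import Pool.Agent.Helper97.Leaky.Abs

open MeasureTheory Filter Topology Set intervalIntegral
open scoped InnerProductSpace

namespace Pool.Agent.Helper97.Leaky

/-! ### test functions of given parity -/

lemma dX_add {φ χ : ℝ × ℝ → ℝ} (hφ : ContDiff ℝ 1 φ) (hχ : ContDiff ℝ 1 χ) :
    dX (φ + χ) = dX φ + dX χ := by
  ext p
  simp only [dX, Pi.add_apply]
  rw [fderiv_add (hφ.differentiable (by norm_num) p) (hχ.differentiable (by norm_num) p)]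
  rfl

lemma dY_add {φ χ : ℝ × ℝ → ℝ} (hφ : ContDiff ℝ 1 φ) (hχ : ContDiff ℝ 1 χ) :
    dY (φ + χ) = dY φ + dY χ := by
  ext p
  simp only [dY, Pi.add_apply]
  rw [fderiv_add (hφ.differentiable (by norm_num) p) (hχ.differentiable (by norm_num) p)]
  rfl

lemma dX_smul {φ : ℝ × ℝ → ℝ} (hφ : ContDiff ℝ 1 φ) (c : ℝ) : dX (c • φ) = c • dX φ := by
  ext p
  simp only [dX, Pi.smul_apply]
  rw [fderiv_const_smul (hφ.differentiable (by norm_num) p)]
  rfl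

lemma dY_smul {φ : ℝ × ℝ → ℝ} (hφ : ContDiff ℝ 1 φ) (c : ℝ) : dY (c • φ) = c • dY φ := by
  ext p
  simp only [dY, Pi.smul_apply]
  rw [fderiv_const_smul (hφ.differentiable (by norm_num) p)]
  rfl

lemma Tst.add {φ χ : ℝ × ℝ → ℝ} (hφ : Tst φ) (hχ : Tst χ) : Tst (φ + χ) :=
  ⟨hφ.1.add hχ.1, hφ.2.add hχ.2⟩

lemma Tst.smul {φ : ℝ × ℝ → ℝ} (hφ : Tst φ) (c : ℝ) : Tst (c • φ) :=
  ⟨hφ.1.const_smul c, by
    have : HasCompactSupport (fun p => c • φ p) := hφ.2.smul_left (f := fun _ => c)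
    exact this⟩

/-- test functions with parity `σ` in the first variable -/
def Wsp (σ : ℝ) : Submodule ℝ (ℝ × ℝ → ℝ) where
  carrier := {φ | Tst φ ∧ ∀ x y, φ (-x, y) = σ * φ (x, y)}
  add_mem' := by
    intro φ χ hφ hχ
    refine ⟨hφ.1.add hχ.1, fun x y => ?_⟩
    simp only [Pi.add_apply, hφ.2 x y, hχ.2 x y]; ring
  zero_mem' := ⟨⟨contDiff_const, HasCompactSupport.zero⟩, fun x y => by simp⟩
  smul_mem' := by
    intro c φ hφ
    refine ⟨hφ.1.smul c, fun x y => ?_⟩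
    simp only [Pi.smul_apply, smul_eq_mul, hφ.2 x y]; ring

variable {σ : ℝ}

lemma tstOf (φ : Wsp σ) : Tst (φ : ℝ × ℝ → ℝ) := φ.2.1

lemma Tst.memLp {φ : ℝ × ℝ → ℝ} (h : Tst φ) : MemLp φ 2 (volume : Measure (ℝ × ℝ)) :=
  h.1.continuous.memLp_of_hasCompactSupport h.2

lemma Tst.hcsX {φ : ℝ × ℝ → ℝ} (h : Tst φ) : HasCompactSupport (dX φ) :=
  h.2.fderiv_apply ℝ (1, 0)

lemma Tst.hcsY {φ : ℝ × ℝ → ℝ} (h : Tst φ) : HasCompactSupport (dY φ) :=
  h.2.fderiv_apply ℝ (0, 1)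

lemma Tst.memLpX {φ : ℝ × ℝ → ℝ} (h : Tst φ) : MemLp (dX φ) 2 (volume : Measure (ℝ × ℝ)) :=
  (cont_dX h.1).memLp_of_hasCompactSupport h.hcsX

lemma Tst.memLpY {φ : ℝ × ℝ → ℝ} (h : Tst φ) : MemLp (dY φ) 2 (volume : Measure (ℝ × ℝ)) :=
  (cont_dY h.1).memLp_of_hasCompactSupport h.hcsY

lemma inner_toLp {α : Type*} [MeasurableSpace α] {μ : Measure α} {f g : α → ℝ}
    (hf : MemLp f 2 μ) (hg : MemLp g 2 μ) :
    ⟪hf.toLp f, hg.toLp g⟫_ℝ = ∫ x, f x * g x ∂μ := by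
  rw [L2.inner_def]
  apply MeasureTheory.integral_congr_ae
  filter_upwards [hf.coeFn_toLp, hg.coeFn_toLp] with x h1 h2
  rw [h1, h2]
  simp [mul_comm]

/-- inner product with an arbitrary element -/
lemma inner_Lp_toLp {α : Type*} [MeasurableSpace α] {μ : Measure α} {g : α → ℝ}
    (u : Lp ℝ 2 μ) (hg : MemLp g 2 μ) :
    ⟪u, hg.toLp g⟫_ℝ = ∫ x, u x * g x ∂μ := by
  rw [L2.inner_def]
  apply MeasureTheory.integral_congr_ae
  filter_upwards [hg.coeFn_toLp] with x h2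
  rw [h2]
  simp [mul_comm]

/-- the ambient Hilbert space -/
abbrev Amb := PiLp 2 (fun _ : Fin 3 => Lp ℝ 2 (volume : Measure (ℝ × ℝ)))

/-- the embedding of test functions: function and gradient -/
noncomputable def J (σ : ℝ) : Wsp σ →ₗ[ℝ] Amb where
  toFun φ := WithLp.toLp 2 ![(tstOf φ).memLp.toLp _, (tstOf φ).memLpX.toLp _, (tstOf φ).memLpY.toLp _]
  map_add' := by
    intro φ χ
    ext1 i
    fin_cases i
    · simp only [Fin.zero_eta, Fin.isValue, Matrix.cons_val_zero, WithLp.ofLp_add, Pi.add_apply]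
      rw [← MemLp.toLp_add]
      rfl
    · simp only [Fin.mk_one, Fin.isValue, Matrix.cons_val_one, Matrix.cons_val_zero,
        WithLp.ofLp_add, Pi.add_apply]
      rw [← MemLp.toLp_add]
      congr 1
      exact dX_add (tstOf φ).1 (tstOf χ).1
    · simp only [Fin.reduceFinMk, Fin.isValue, Matrix.cons_val, WithLp.ofLp_add, Pi.add_apply]
      rw [← MemLp.toLp_add]
      congr 1
      exact dY_add (tstOf φ).1 (tstOf χ).1
  map_smul' := by
    intro c φ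
    ext1 i
    fin_cases i
    · simp only [Fin.zero_eta, Fin.isValue, Matrix.cons_val_zero, WithLp.ofLp_smul, Pi.smul_apply,
        RingHom.id_apply]
      rw [← MemLp.toLp_const_smul]
      rfl
    · simp only [Fin.mk_one, Fin.isValue, Matrix.cons_val_one, Matrix.cons_val_zero,
        WithLp.ofLp_smul, Pi.smul_apply, RingHom.id_apply]
      rw [← MemLp.toLp_const_smul]
      congr 1
      exact dX_smul (tstOf φ).1 c
    · simp only [Fin.reduceFinMk, Fin.isValue, Matrix.cons_val, WithLp.ofLp_smul, Pi.smul_apply,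
        RingHom.id_apply]
      rw [← MemLp.toLp_const_smul]
      congr 1
      exact dY_smul (tstOf φ).1 c

lemma J_0 (φ : Wsp σ) : J σ φ 0 = (tstOf φ).memLp.toLp _ := rfl
lemma J_1 (φ : Wsp σ) : J σ φ 1 = (tstOf φ).memLpX.toLp _ := rfl
lemma J_2 (φ : Wsp σ) : J σ φ 2 = (tstOf φ).memLpY.toLp _ := rfl

lemma inner_J {σ' : ℝ} (φ : Wsp σ) (χ : Wsp σ') : ⟪J σ φ, J σ' χ⟫_ℝ
    = (∫ p, (φ : ℝ × ℝ → ℝ) p * (χ : ℝ × ℝ → ℝ) p)
      + (∫ p, dX (φ : ℝ × ℝ → ℝ) p * dX (χ : ℝ × ℝ → ℝ) p)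
      + ∫ p, dY (φ : ℝ × ℝ → ℝ) p * dY (χ : ℝ × ℝ → ℝ) p := by
  rw [PiLp.inner_apply, Fin.sum_univ_three, J_0, J_0, J_1, J_1, J_2, J_2, inner_toLp, inner_toLp,
    inner_toLp]

lemma integrable_sq_of_cs {f : ℝ × ℝ → ℝ} (hf : Continuous f) (hc : HasCompactSupport f) :
    Integrable (fun p => f p ^ 2) := by
  apply Continuous.integrable_of_hasCompactSupport (by fun_prop)
  have : (fun p => f p ^ 2) = (fun z : ℝ => z ^ 2) ∘ f := rfl
  rw [this]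
  exact hc.comp_left (by norm_num)

lemma Tst.N_eq {φ : ℝ × ℝ → ℝ} (h : Tst φ) :
    N φ = (∫ p, φ p ^ 2) + (∫ p, dX φ p ^ 2) + ∫ p, dY φ p ^ 2 := by
  have i1 := integrable_sq_of_cs h.1.continuous h.2
  have i2 := integrable_sq_of_cs (cont_dX h.1) h.hcsX
  have i3 := integrable_sq_of_cs (cont_dY h.1) h.hcsY
  have i12 : Integrable (fun p => φ p ^ 2 + dX φ p ^ 2) := i1.add i2
  unfold N
  rw [MeasureTheory.integral_add i12 i3, MeasureTheory.integral_add i1 i2]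

lemma norm_J_sq (φ : Wsp σ) : ‖J σ φ‖ ^ 2 = N (φ : ℝ × ℝ → ℝ) := by
  rw [← real_inner_self_eq_norm_sq, inner_J, (tstOf φ).N_eq]
  simp only [pow_two]

/-- the form domain of given parity as a Hilbert space -/
noncomputable abbrev Hs (σ : ℝ) : Submodule ℝ Amb := (LinearMap.range (J σ)).topologicalClosure

/-- test functions in the form domain -/
noncomputable def e (σ : ℝ) : Wsp σ →ₗ[ℝ] Hs σ :=
  (J σ).codRestrict _ fun φ =>
    (LinearMap.range (J σ)).le_topologicalClosure (LinearMap.mem_range_self _ φ)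

lemma e_coe (φ : Wsp σ) : ((e σ φ : Hs σ) : Amb) = J σ φ := rfl

lemma norm_e_sq (φ : Wsp σ) : ‖e σ φ‖ ^ 2 = N (φ : ℝ × ℝ → ℝ) := by
  rw [← norm_J_sq φ]; rfl

lemma exists_seq (u : Hs σ) : ∃ φ : ℕ → Wsp σ, Tendsto (fun n => e σ (φ n)) atTop (𝓝 u) := by
  have hu : (u : Amb) ∈ closure (LinearMap.range (J σ) : Set Amb) := u.2
  obtain ⟨x, hx, hlim⟩ := mem_closure_iff_seq_limit.1 hu
  choose φ hφ using hx
  refine ⟨φ, ?_⟩
  rw [tendsto_subtype_rng]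
  have : (fun n => ((e σ (φ n) : Hs σ) : Amb)) = x := by
    ext1 n
    rw [e_coe]
    exact hφ n
  rw [this]
  exact hlim

lemma dense_e : DenseRange (e σ) := by
  intro u
  obtain ⟨φ, hφ⟩ := exists_seq u
  exact mem_closure_of_tendsto hφ (Eventually.of_forall fun n => mem_range_self _)

/-- inequalities pass from test functions to the whole space -/
lemma nonneg_of_dense {G : Hs σ → ℝ} (hG : Continuous G) (h : ∀ φ : Wsp σ, 0 ≤ G (e σ φ))
    (u : Hs σ) : 0 ≤ G u := by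
  obtain ⟨φ, hφ⟩ := exists_seq u
  exact ge_of_tendsto' ((hG.tendsto u).comp hφ) fun n => h _

section ext

variable {F : Type*} [NormedAddCommGroup F] [NormedSpace ℝ F] [CompleteSpace F]

/-- extension of bounded linear maps -/
noncomputable def extend (f : Wsp σ →ₗ[ℝ] F) : Hs σ →L[ℝ] F := f.extendOfNorm (e σ)

lemma extend_e (f : Wsp σ →ₗ[ℝ] F) {C : ℝ} (h : ∀ φ, ‖f φ‖ ^ 2 ≤ C * N (φ : ℝ × ℝ → ℝ))
    (φ : Wsp σ) : extend f (e σ φ) = f φ := by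
  apply LinearMap.extendOfNorm_eq dense_e
  refine ⟨Real.sqrt C, fun χ => ?_⟩
  have h1 := h χ
  rw [← norm_e_sq] at h1
  by_cases hC : 0 ≤ C
  · rw [← Real.sqrt_sq (norm_nonneg (e σ χ)), ← Real.sqrt_mul hC]
    exact Real.le_sqrt_of_sq_le h1
  · push Not at hC
    have h2 : ‖f χ‖ ^ 2 ≤ 0 := by nlinarith [sq_nonneg ‖e σ χ‖]
    have h3 : ‖f χ‖ = 0 := by
      have := sq_nonneg ‖f χ‖
      exact pow_eq_zero_iff (two_ne_zero) |>.1 (le_antisymm h2 this)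
    rw [h3]
    positivity

end ext

/-! ### traces -/

lemma gam_cs {φ : ℝ × ℝ → ℝ} (h : Tst φ) (k : ℕ) (η : ℝ) :
    HasCompactSupport fun s => φ (gam k η s) := by
  obtain ⟨T, hT, hB⟩ := h.exists_Bx 4
  have hm := one_le_mf k η
  apply HasCompactSupport.intro (K := Icc (-(T + mf k η)) (T + mf k η)) isCompact_Icc
  intro s hs
  apply hB.zero
  left
  rw [mem_Icc, not_and_or, not_le, not_le] at hs
  simp only [gam]
  rcases hs with h1 | h1
  · rw [Xc_of_le (by linarith) (by linarith), le_abs]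
    right; linarith
  · rw [Xc_of_ge (by linarith) (by linarith), le_abs]
    left; linarith

lemma gam_memLp {φ : ℝ × ℝ → ℝ} (h : Tst φ) (k : ℕ) (η : ℝ) :
    MemLp (fun s => φ (gam k η s)) 2 (volume : Measure ℝ) :=
  (h.1.continuous.comp (continuous_gam k η)).memLp_of_hasCompactSupport (gam_cs h k η)

/-- trace on the curve -/
noncomputable def tr (σ : ℝ) (k : ℕ) (η : ℝ) : Wsp σ →ₗ[ℝ] Lp ℝ 2 (volume : Measure ℝ) where
  toFun φ := (gam_memLp (tstOf φ) k η).toLp _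
  map_add' := by
    intro φ χ
    rw [← MemLp.toLp_add]
    rfl
  map_smul' := by
    intro c φ
    rw [RingHom.id_apply, ← MemLp.toLp_const_smul]
    rfl

lemma inner_tr {σ' : ℝ} (k : ℕ) (η : ℝ) (φ : Wsp σ) (χ : Wsp σ') :
    ⟪tr σ k η φ, tr σ' k η χ⟫_ℝ
      = ∫ s, (φ : ℝ × ℝ → ℝ) (gam k η s) * (χ : ℝ × ℝ → ℝ) (gam k η s) :=
  inner_toLp (gam_memLp (tstOf φ) k η) (gam_memLp (tstOf χ) k η)

lemma norm_tr_sq (k : ℕ) (η : ℝ) (φ : Wsp σ) : ‖tr σ k η φ‖ ^ 2 = bform k η φ := by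
  rw [← real_inner_self_eq_norm_sq, inner_tr]
  unfold bform
  simp only [pow_two]

lemma norm_tr_le {k : ℕ} {η : ℝ} (hη : 0 ≤ η) (hη4 : η ≤ 4) (φ : Wsp σ) :
    ‖tr σ k η φ‖ ^ 2 ≤ mf k η / 2 * N (φ : ℝ × ℝ → ℝ) := by
  rw [norm_tr_sq]
  obtain ⟨T, hT, hB⟩ := (tstOf φ).exists_Bx 4
  exact hB.b_le hT hη hη4

/-- trace operator on the form domain -/
noncomputable def Tr (σ : ℝ) (k : ℕ) (η : ℝ) : Hs σ →L[ℝ] Lp ℝ 2 (volume : Measure ℝ) :=
  extend (tr σ k η)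

lemma Tr_e {k : ℕ} {η : ℝ} (hη : 0 ≤ η) (hη4 : η ≤ 4) (φ : Wsp σ) :
    Tr σ k η (e σ φ) = tr σ k η φ := extend_e _ (norm_tr_le hη hη4) φ

lemma norm_Tr_e_sq {k : ℕ} {η : ℝ} (hη : 0 ≤ η) (hη4 : η ≤ 4) (φ : Wsp σ) :
    ‖Tr σ k η (e σ φ)‖ ^ 2 = bform k η φ := by
  rw [Tr_e hη hη4, norm_tr_sq]

/-! ### continuity in the height -/

theorem formCont (k : ℕ) {a : ℝ} (ha : 0 ≤ a) : FormCont (Tr σ k) (Icc a 4) := by
  intro η hη ε hε
  have hm := one_le_mf k η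
  have hm0 : 0 < mf k η := by linarith
  set θ : ℝ := ε / (4 * mf k η) with hθ
  have hθ0 : 0 < θ := by positivity
  -- continuity of the arc length factor
  have hcont := (continuous_mf k).continuousAt (x := η)
  obtain ⟨δ1, hδ1, H1⟩ := Metric.continuousAt_iff.1 hcont ε hε
  set δ2 : ℝ := 2 * θ * (ε / (4 * mf k η)) with hδ2
  have hδ20 : 0 < δ2 := by positivity
  refine ⟨min δ1 δ2, lt_min hδ1 hδ20, fun η' hη' hd u => ?_⟩
  have h1 : |mf k η' - mf k η| < ε := by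
    have := H1 (x := η') (by rw [Real.dist_eq]; exact hd.trans_le (min_le_left _ _))
    rwa [Real.dist_eq] at this
  have h2 : |η' - η| ≤ δ2 := (hd.trans_le (min_le_right _ _)).le
  have hcoef : mf k η * (θ + θ⁻¹ * |η' - η| / 2) + |mf k η' - mf k η| / 2 ≤ ε := by
    have h3 : θ⁻¹ * |η' - η| / 2 ≤ ε / (4 * mf k η) := by
      calc θ⁻¹ * |η' - η| / 2 ≤ θ⁻¹ * δ2 / 2 := by gcongr
        _ = _ := by rw [hδ2]; field_simp
    calc mf k η * (θ + θ⁻¹ * |η' - η| / 2) + |mf k η' - mf k η| / 2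
        ≤ mf k η * (θ + ε / (4 * mf k η)) + ε / 2 := by gcongr
      _ = ε := by rw [hθ]; field_simp; norm_num
  have key : ∀ φ : Wsp σ, |‖Tr σ k η' (e σ φ)‖ ^ 2 - ‖Tr σ k η (e σ φ)‖ ^ 2|
      ≤ ε * ‖e σ φ‖ ^ 2 := by
    intro φ
    rw [norm_Tr_e_sq (by linarith [hη'.1]) hη'.2, norm_Tr_e_sq (by linarith [hη.1]) hη.2,
      norm_e_sq]
    obtain ⟨T, hT, hB⟩ := (tstOf φ).exists_Bx 4
    refine (hB.b_close hT (by linarith [hη.1]) hη.2 (by linarith [hη'.1]) hη'.2 hθ0).trans ?_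
    exact mul_le_mul_of_nonneg_right hcoef (Bx.N_nonneg _)
  have := nonneg_of_dense (σ := σ)
    (G := fun u => ε * ‖u‖ ^ 2 - |‖Tr σ k η' u‖ ^ 2 - ‖Tr σ k η u‖ ^ 2|) (by fun_prop)
    (fun φ => by linarith [key φ]) u
  linarith

/-! ### essential bound -/

lemma I2_sq_le {φ : ℝ × ℝ → ℝ} {T : ℝ} (h : Bx T φ) {a b c d : ℝ}
    (ha : -T ≤ a) (hab : a < b) (hb : b ≤ T) (hc : -T ≤ c) (hcd : c < d) (hd : d ≤ T) :
    I2 φ a b c d ^ 2 ≤ (b - a) * (d - c) * N φ := by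
  have h1 := h.cont
  have h2 := h.contX
  have h3 := h.contY
  have c1 : Continuous fun p : ℝ × ℝ => φ p ^ 2 := by fun_prop
  have hr1 : 0 < b - a := sub_pos.2 hab
  have hr2 : 0 < d - c := sub_pos.2 hcd
  have s1 : I2 φ a b c d ^ 2 ≤ (b - a) * ∫ x in a..b, (∫ y in c..d, φ (x, y)) ^ 2 :=
    cs_int (cont_inner h1 c d) hab
  have s2 : ∫ x in a..b, (∫ y in c..d, φ (x, y)) ^ 2
      ≤ ∫ x in a..b, (d - c) * ∫ y in c..d, φ (x, y) ^ 2 := by
    apply integral_mono_on hab.le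
    · apply Continuous.intervalIntegrable
      have := cont_inner h1 c d
      fun_prop
    · apply Continuous.intervalIntegrable
      exact continuous_const.mul (cont_inner c1 c d)
    · intro x _
      exact cs_int (u := fun y => φ (x, y)) (by fun_prop) hcd
  rw [intervalIntegral.integral_const_mul] at s2
  have s3 : I2 (fun p => φ p ^ 2) a b c d ≤ N φ := by
    apply h.I2_le_N c1 (fun p => sq_nonneg _)
      (fun p => by nlinarith [sq_nonneg (dX φ p), sq_nonneg (dY φ p)]) ha hab.le hb hc hcd.le hd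
  calc I2 φ a b c d ^ 2 ≤ (b - a) * ((d - c) * I2 (fun p => φ p ^ 2) a b c d) := by
        refine s1.trans ?_
        exact mul_le_mul_of_nonneg_left s2 hr1.le
    _ = (b - a) * (d - c) * I2 (fun p => φ p ^ 2) a b c d := by ring
    _ ≤ _ := by gcongr

lemma I2_lin_add {φ χ : ℝ × ℝ → ℝ} (hφ : Continuous φ) (hχ : Continuous χ) (a b c d : ℝ) :
    I2 (φ + χ) a b c d = I2 φ a b c d + I2 χ a b c d := I2_add hφ hχ a b c d

lemma I2_lin_smul (r : ℝ) (φ : ℝ × ℝ → ℝ) (a b c d : ℝ) :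
    I2 (r • φ) a b c d = r * I2 φ a b c d := I2_const_mul r a b c d

/-- the finite rank map -/
noncomputable def cells (σ η : ℝ) (n : ℕ) (C : ℝ) :
    Wsp σ →ₗ[ℝ] EuclideanSpace ℝ (Fin n × Fin n) where
  toFun φ := WithLp.toLp 2 fun q => Real.sqrt C * cell η n φ q.1 q.2
  map_add' := by
    intro φ χ
    ext q
    simp only [cell, Submodule.coe_add, WithLp.ofLp_add, Pi.add_apply]
    rw [I2_lin_add (tstOf φ).1.continuous (tstOf χ).1.continuous]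
    ring
  map_smul' := by
    intro c φ
    ext q
    simp only [cell, Submodule.coe_smul, WithLp.ofLp_smul, Pi.smul_apply, RingHom.id_apply,
      smul_eq_mul]
    rw [I2_lin_smul]
    ring

lemma norm_cells_sq {η : ℝ} {n : ℕ} {C : ℝ} (hC : 0 ≤ C) (φ : Wsp σ) :
    ‖cells σ η n C φ‖ ^ 2
      = C * ∑ i ∈ Finset.range n, ∑ j ∈ Finset.range n, (cell η n φ i j) ^ 2 := by
  rw [EuclideanSpace.norm_sq_eq, Fintype.sum_prod_type, Finset.mul_sum]
  rw [← Fin.sum_univ_eq_sum_range (fun i => C * ∑ j ∈ Finset.range n, (cell η n φ i j) ^ 2)]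
  apply Finset.sum_congr rfl
  intro i _
  rw [← Fin.sum_univ_eq_sum_range (fun j => (cell η n φ i j) ^ 2), Finset.mul_sum]
  apply Finset.sum_congr rfl
  intro j _
  simp only [cells, LinearMap.coe_mk, AddHom.coe_mk, Real.norm_eq_abs, sq_abs, mul_pow]
  rw [Real.sq_sqrt hC]

lemma cell_sq_le {φ : ℝ × ℝ → ℝ} {T : ℝ} (h : Bx T φ) (hT : 4 ≤ T) {η : ℝ} (hη : 0 < η)
    (hη4 : η ≤ 4) {n : ℕ} (hn : 0 < n) {i j : ℕ} (hi : i < n) (hj : j < n) :
    cell η n φ i j ^ 2 ≤ 4 * N φ := by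
  have hn' : (0:ℝ) < n := by exact_mod_cast hn
  have hi' : (i:ℝ) + 1 ≤ n := by exact_mod_cast hi
  have hj' : (j:ℝ) + 1 ≤ n := by exact_mod_cast hj
  have hn1 : (1:ℝ) ≤ n := by exact_mod_cast hn
  unfold cell
  push_cast
  have e1 : ((i:ℝ) + 1) * (1 / n) ≤ 1 := by
    rw [mul_one_div, div_le_one hn']; exact hi'
  have e2 : ((j:ℝ) + 1) * (η / n) ≤ η := by
    rw [mul_div_assoc', div_le_iff₀ hn']; nlinarith
  have e3 : (0:ℝ) ≤ i * (1 / n) := by positivity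
  have e4 : (0:ℝ) ≤ j * (η / n) := by positivity
  have e5 : (0:ℝ) < 1 / n := by positivity
  have e6 : (0:ℝ) < η / n := by positivity
  refine (I2_sq_le h (by linarith) (by nlinarith) (by linarith) (by linarith) (by nlinarith)
    (by linarith)).trans ?_
  apply mul_le_mul_of_nonneg_right _ (Bx.N_nonneg φ)
  have e7 : (-(1 / 2) + ((i:ℝ) + 1) * (1 / n) - (-(1 / 2) + i * (1 / n))) = 1 / n := by ring
  have e8 : (((j:ℝ) + 1) * (η / n) - j * (η / n)) = η / n := by ring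
  rw [e7, e8]
  have e9 : (1:ℝ) / n ≤ 1 := by rw [div_le_one hn']; exact hn1
  have e10 : η / n ≤ 4 := by rw [div_le_iff₀ hn']; nlinarith
  nlinarith

theorem essBound {k : ℕ} {η : ℝ} (hη : 0 < η) (hη4 : η ≤ 4) : EssBound (Tr σ k η) 1 := by
  obtain ⟨n, C, hC, hn, H⟩ := b_ess (k := k) η hη hη4
  have hb : ∀ φ : Wsp σ, ‖cells σ η n C φ‖ ^ 2 ≤ (C * (n * (n * 4))) * N (φ : ℝ × ℝ → ℝ) := by
    intro φ
    rw [norm_cells_sq hC]
    obtain ⟨T, hT, hB⟩ := (tstOf φ).exists_Bx 4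
    have h1 : ∑ i ∈ Finset.range n, ∑ j ∈ Finset.range n, (cell η n φ i j) ^ 2
        ≤ ∑ i ∈ Finset.range n, ∑ j ∈ Finset.range n, 4 * N (φ : ℝ × ℝ → ℝ) := by
      apply Finset.sum_le_sum
      intro i hi
      apply Finset.sum_le_sum
      intro j hj
      exact cell_sq_le hB hT hη hη4 hn (Finset.mem_range.1 hi) (Finset.mem_range.1 hj)
    simp only [Finset.sum_const, Finset.card_range, nsmul_eq_mul] at h1
    calc C * ∑ i ∈ Finset.range n, ∑ j ∈ Finset.range n, (cell η n φ i j) ^ 2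
        ≤ C * (n * (n * (4 * N (φ : ℝ × ℝ → ℝ)))) := by gcongr
      _ = _ := by ring
  refine ⟨n, extend (cells σ η n C), fun u => ?_⟩
  have key : ∀ φ : Wsp σ, ‖Tr σ k η (e σ φ)‖ ^ 2
      ≤ 1 * ‖e σ φ‖ ^ 2 + ‖extend (cells σ η n C) (e σ φ)‖ ^ 2 := by
    intro φ
    rw [norm_Tr_e_sq hη.le hη4, norm_e_sq, extend_e _ hb, norm_cells_sq hC]
    obtain ⟨T, hT, hB⟩ := (tstOf φ).exists_Bx 4
    exact H _ T hB hT
  have := nonneg_of_dense (σ := σ)
    (G := fun u => 1 * ‖u‖ ^ 2 + ‖extend (cells σ η n C) u‖ ^ 2 - ‖Tr σ k η u‖ ^ 2)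
    (by fun_prop) (fun φ => by linarith [key φ]) u
  linarith

/-! ### the functional of the wide case -/

/-- integral over the box -/
noncomputable def boxInt (σ η : ℝ) : Wsp σ →ₗ[ℝ] ℝ where
  toFun φ := I2 (φ : ℝ × ℝ → ℝ) (-(1 / 2)) (1 / 2) 0 η
  map_add' := by
    intro φ χ
    exact I2_lin_add (tstOf φ).1.continuous (tstOf χ).1.continuous _ _ _ _
  map_smul' := by
    intro c φ
    exact I2_lin_smul c φ _ _ _ _

lemma boxInt_le {η : ℝ} (hη : 0 < η) (hη4 : η ≤ 4) (φ : Wsp σ) :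
    ‖boxInt σ η φ‖ ^ 2 ≤ η * N (φ : ℝ × ℝ → ℝ) := by
  obtain ⟨T, hT, hB⟩ := (tstOf φ).exists_Bx 4
  have := I2_sq_le hB (a := -(1 / 2)) (b := 1 / 2) (c := 0) (d := η) (by linarith) (by norm_num)
    (by linarith) (by linarith) hη (by linarith)
  rw [Real.norm_eq_abs, sq_abs]
  calc (boxInt σ η φ) ^ 2 ≤ (1 / 2 - -(1 / 2)) * (η - 0) * N (φ : ℝ × ℝ → ℝ) := this
    _ = _ := by ring

/-- zeroth component bound: the trace is small if the function is small in `L²` -/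
lemma Tr_kappa {k : ℕ} {η : ℝ} (hη : 0 ≤ η) (hη4 : η ≤ 4) {κ : ℝ} (hκ : 0 < κ) (u : Hs σ) :
    ‖Tr σ k η u‖ ^ 2 ≤ mf k η / 2 * (κ * ‖(u : Amb) 0‖ ^ 2 + κ⁻¹ * ‖u‖ ^ 2) := by
  have key : ∀ φ : Wsp σ, ‖Tr σ k η (e σ φ)‖ ^ 2
      ≤ mf k η / 2 * (κ * ‖((e σ φ : Hs σ) : Amb) 0‖ ^ 2 + κ⁻¹ * ‖e σ φ‖ ^ 2) := by
    intro φ
    rw [norm_Tr_e_sq hη hη4, norm_e_sq, e_coe, J_0, ← real_inner_self_eq_norm_sq, inner_toLp]
    obtain ⟨T, hT, hB⟩ := (tstOf φ).exists_Bx 4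
    have := hB.b_kappa (k := k) hT hη hη4 hκ
    simp only [pow_two] at this ⊢
    exact this
  have hc : Continuous fun u : Hs σ => (u : Amb) 0 :=
    (PiLp.continuous_apply 2 _ 0).comp continuous_subtype_val
  have := nonneg_of_dense (σ := σ)
    (G := fun u => mf k η / 2 * (κ * ‖(u : Amb) 0‖ ^ 2 + κ⁻¹ * ‖u‖ ^ 2) - ‖Tr σ k η u‖ ^ 2)
    (by fun_prop) (fun φ => by linarith [key φ]) u
  linarith

end Pool.Agent.Helper97.Leaky
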