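import Pool.Agent.Helper97.Leaky.One

open MeasureTheory Filter Topology Set intervalIntegral

namespace Pool.Agent.Helper97.Leaky

/-- integral over the rectangle `[a,b] x [c,d]` -/
noncomputable def I2 (f : ℝ × ℝ → ℝ) (a b c d : ℝ) : ℝ := ∫ x in a..b, ∫ y in c..d, f (x, y)

section basic

variable {f g : ℝ × ℝ → ℝ}

lemma cont_inner (hf : Continuous f) (c d : ℝ) : Continuous fun x => ∫ y in c..d, f (x, y) := by
  apply intervalIntegral.continuous_parametric_intervalIntegral_of_continuous'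
  exact hf

lemma cont_inner' (hf : Continuous f) (a b : ℝ) : Continuous fun y => ∫ x in a..b, f (x, y) := by
  apply intervalIntegral.continuous_parametric_intervalIntegral_of_continuous'
  exact hf.comp continuous_swap

lemma ii (hf : Continuous f) (x c d : ℝ) : IntervalIntegrable (fun y => f (x, y)) volume c d := by
  apply Continuous.intervalIntegrable; fun_prop

lemma ii' (hf : Continuous f) (y c d : ℝ) : IntervalIntegrable (fun x => f (x, y)) volume c d := by
  apply Continuous.intervalIntegrable; fun_prop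

lemma I2_swap (hf : Continuous f) (a b c d : ℝ) :
    I2 f a b c d = ∫ y in c..d, ∫ x in a..b, f (x, y) := by
  unfold I2
  apply intervalIntegral_intervalIntegral_swap (F := fun x y => f (x, y))
  have h : IntegrableOn (fun p : ℝ × ℝ => f p) (uIcc a b ×ˢ uIcc c d) :=
    hf.continuousOn.integrableOn_compact (isCompact_uIcc.prod isCompact_uIcc)
  exact h.mono_set (prod_mono uIoc_subset_uIcc uIoc_subset_uIcc)

lemma I2_mono (hf : Continuous f) (hg : Continuous g) {a b c d : ℝ} (hab : a ≤ b) (hcd : c ≤ d)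
    (h : ∀ x ∈ Icc a b, ∀ y ∈ Icc c d, f (x, y) ≤ g (x, y)) : I2 f a b c d ≤ I2 g a b c d := by
  unfold I2
  apply integral_mono_on hab ((cont_inner hf c d).intervalIntegrable _ _)
    ((cont_inner hg c d).intervalIntegrable _ _)
  intro x hx
  exact integral_mono_on hcd (ii hf _ _ _) (ii hg _ _ _) (h x hx)

lemma I2_nonneg {a b c d : ℝ} (hab : a ≤ b) (hcd : c ≤ d) (h : ∀ p, 0 ≤ f p) :
    0 ≤ I2 f a b c d :=
  integral_nonneg hab fun _ _ => integral_nonneg hcd fun _ _ => h _

lemma I2_mono_box (hf : Continuous f) (h0 : ∀ p, 0 ≤ f p) {a b c d a' b' c' d' : ℝ}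
    (ha : a' ≤ a) (hab : a ≤ b) (hb : b ≤ b') (hc : c' ≤ c) (hcd : c ≤ d) (hd : d ≤ d') :
    I2 f a b c d ≤ I2 f a' b' c' d' := by
  unfold I2
  calc ∫ x in a..b, ∫ y in c..d, f (x, y) ≤ ∫ x in a..b, ∫ y in c'..d', f (x, y) := by
        apply integral_mono_on hab ((cont_inner hf c d).intervalIntegrable _ _)
          ((cont_inner hf c' d').intervalIntegrable _ _)
        intro x _
        exact integral_mono_interval hc hcd hd (Eventually.of_forall fun y => h0 _) (ii hf _ _ _)
    _ ≤ ∫ x in a'..b', ∫ y in c'..d', f (x, y) := by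
        apply integral_mono_interval ha hab hb (Eventually.of_forall fun x => ?_)
          ((cont_inner hf c' d').intervalIntegrable _ _)
        exact integral_nonneg (hc.trans (hcd.trans hd)) fun y _ => h0 _

lemma I2_add (hf : Continuous f) (hg : Continuous g) (a b c d : ℝ) :
    I2 (fun p => f p + g p) a b c d = I2 f a b c d + I2 g a b c d := by
  unfold I2
  rw [← intervalIntegral.integral_add ((cont_inner hf c d).intervalIntegrable _ _)
    ((cont_inner hg c d).intervalIntegrable _ _)]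
  congr 1
  ext x
  exact intervalIntegral.integral_add (ii hf _ _ _) (ii hg _ _ _)

lemma I2_const_mul (k : ℝ) (a b c d : ℝ) :
    I2 (fun p => k * f p) a b c d = k * I2 f a b c d := by
  unfold I2
  rw [← intervalIntegral.integral_const_mul]
  congr 1
  ext x
  exact intervalIntegral.integral_const_mul _ _

/-- Cauchy-Schwarz on an interval -/
lemma cs_int {u : ℝ → ℝ} (hu : Continuous u) {c d : ℝ} (hcd : c < d) :
    (∫ x in c..d, u x) ^ 2 ≤ (d - c) * ∫ x in c..d, u x ^ 2 := by
  have hr : 0 < d - c := sub_pos.2 hcd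
  set m := (∫ x in c..d, u x) / (d - c) with hm
  have hmr : ∫ x in c..d, u x = m * (d - c) := by rw [hm]; field_simp
  have h1 : 0 ≤ ∫ x in c..d, (u x - m) ^ 2 := integral_nonneg hcd.le fun x _ => sq_nonneg _
  have h2 : ∫ x in c..d, (u x - m) ^ 2 = (∫ x in c..d, u x ^ 2) - (d - c) * m ^ 2 := by
    have h3 : ∫ x in c..d, (u x - m) ^ 2 = ∫ x in c..d, (u x ^ 2 - (2 * m) * u x + m ^ 2) := by
      congr 1; ext x; ring
    rw [h3, intervalIntegral.integral_add (by apply Continuous.intervalIntegrable; fun_prop)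
      (by simp), intervalIntegral.integral_sub (by apply Continuous.intervalIntegrable; fun_prop)
      (by apply Continuous.intervalIntegrable; fun_prop), intervalIntegral.integral_const_mul,
      intervalIntegral.integral_const, hmr, smul_eq_mul]
    ring
  rw [h2] at h1
  rw [hmr]
  nlinarith

end basic

/-- A continuously differentiable function of compact support -/
def Tst (φ : ℝ × ℝ → ℝ) : Prop := ContDiff ℝ 1 φ ∧ HasCompactSupport φ

/-- first partial derivative -/
noncomputable def dX (φ : ℝ × ℝ → ℝ) (p : ℝ × ℝ) : ℝ := fderiv ℝ φ p (1, 0)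

/-- second partial derivative -/
noncomputable def dY (φ : ℝ × ℝ → ℝ) (p : ℝ × ℝ) : ℝ := fderiv ℝ φ p (0, 1)

/-- energy -/
noncomputable def N (φ : ℝ × ℝ → ℝ) : ℝ := ∫ p : ℝ × ℝ, (φ p ^ 2 + dX φ p ^ 2 + dY φ p ^ 2)

/-- `φ` is a test function with support inside the box of half side `T` -/
structure Bx (T : ℝ) (φ : ℝ × ℝ → ℝ) : Prop where
  smooth : ContDiff ℝ 1 φ
  pos : 0 < T
  zero : ∀ p : ℝ × ℝ, T ≤ |p.1| ∨ T ≤ |p.2| → φ p = 0
  zeroX : ∀ p : ℝ × ℝ, T ≤ |p.1| ∨ T ≤ |p.2| → dX φ p = 0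
  zeroY : ∀ p : ℝ × ℝ, T ≤ |p.1| ∨ T ≤ |p.2| → dY φ p = 0

section tst

variable {φ : ℝ × ℝ → ℝ}

lemma Tst.exists_Bx (hφ : Tst φ) (T0 : ℝ) : ∃ T, T0 ≤ T ∧ Bx T φ := by
  obtain ⟨R, hR⟩ := hφ.2.isCompact.isBounded.subset_closedBall (0 : ℝ × ℝ)
  have hnot : ∀ T, R < T → ∀ p : ℝ × ℝ, T ≤ |p.1| ∨ T ≤ |p.2| → p ∉ tsupport φ := by
    intro T hT p hp hmem
    have h1 := hR hmem
    rw [mem_closedBall_zero_iff, Prod.norm_def, Real.norm_eq_abs, Real.norm_eq_abs,
      max_le_iff] at h1
    rcases hp with h | h <;> linarith [h1.1, h1.2]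
  refine ⟨max (max T0 (R + 1)) 1, (le_max_left _ _).trans (le_max_left _ _), hφ.1, by positivity,
    ?_, ?_, ?_⟩
  · intro p hp
    exact image_eq_zero_of_notMem_tsupport (hnot _ (by
      have : R + 1 ≤ max (max T0 (R + 1)) 1 := (le_max_right _ _).trans (le_max_left _ _)
      linarith) p hp)
  · intro p hp
    have := fderiv_of_notMem_tsupport ℝ (hnot _ (by
      have : R + 1 ≤ max (max T0 (R + 1)) 1 := (le_max_right _ _).trans (le_max_left _ _)
      linarith) p hp)
    rw [dX, this]; rfl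
  · intro p hp
    have := fderiv_of_notMem_tsupport ℝ (hnot _ (by
      have : R + 1 ≤ max (max T0 (R + 1)) 1 := (le_max_right _ _).trans (le_max_left _ _)
      linarith) p hp)
    rw [dY, this]; rfl

lemma cont_dX (hφ : ContDiff ℝ 1 φ) : Continuous (dX φ) := by
  have := hφ.continuous_fderiv (by norm_num)
  unfold dX
  fun_prop

lemma cont_dY (hφ : ContDiff ℝ 1 φ) : Continuous (dY φ) := by
  have := hφ.continuous_fderiv (by norm_num)
  unfold dY
  fun_prop

lemma derivX (hφ : ContDiff ℝ 1 φ) (x y : ℝ) : HasDerivAt (fun t => φ (t, y)) (dX φ (x, y)) x := by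
  have h1 : HasFDerivAt φ (fderiv ℝ φ (x, y)) (x, y) :=
    (hφ.differentiable (by norm_num) (x, y)).hasFDerivAt
  have h2 : HasDerivAt (fun t : ℝ => (t, y)) ((1:ℝ), (0:ℝ)) x :=
    (hasDerivAt_id' x).prodMk (hasDerivAt_const x y)
  exact h1.comp_hasDerivAt x h2

lemma derivY (hφ : ContDiff ℝ 1 φ) (x y : ℝ) : HasDerivAt (fun t => φ (x, t)) (dY φ (x, y)) y := by
  have h1 : HasFDerivAt φ (fderiv ℝ φ (x, y)) (x, y) :=
    (hφ.differentiable (by norm_num) (x, y)).hasFDerivAt
  have h2 : HasDerivAt (fun t : ℝ => (x, t)) ((0:ℝ), (1:ℝ)) y :=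
    (hasDerivAt_const y x).prodMk (hasDerivAt_id' y)
  exact h1.comp_hasDerivAt y h2

end tst

namespace Bx

variable {φ : ℝ × ℝ → ℝ} {T : ℝ}

lemma cont (h : Bx T φ) : Continuous φ := h.smooth.continuous
lemma contX (h : Bx T φ) : Continuous (dX φ) := cont_dX h.smooth
lemma contY (h : Bx T φ) : Continuous (dY φ) := cont_dY h.smooth

/-- the energy is an integral over the box -/
lemma integral_eq (h : Bx T φ) {f : ℝ × ℝ → ℝ} (hf : Continuous f)
    (h0 : ∀ p : ℝ × ℝ, T ≤ |p.1| ∨ T ≤ |p.2| → f p = 0) :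
    ∫ p, f p = I2 f (-T) T (-T) T := by
  have hT := h.pos
  have h1 : ∫ p, f p = ∫ p in Ioc (-T) T ×ˢ Ioc (-T) T, f p := by
    symm
    apply setIntegral_eq_integral_of_forall_compl_eq_zero
    intro p hp
    apply h0
    by_contra hcon
    push Not at hcon
    apply hp
    have h2 := abs_lt.1 hcon.1
    have h3 := abs_lt.1 hcon.2
    exact ⟨⟨h2.1, h2.2.le⟩, ⟨h3.1, h3.2.le⟩⟩
  rw [h1, Measure.volume_eq_prod, setIntegral_prod]
  · unfold I2
    rw [intervalIntegral.integral_of_le (by linarith)]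
    congr 1
    ext x
    rw [intervalIntegral.integral_of_le (by linarith)]
  · have h2 : IntegrableOn f (Icc (-T) T ×ˢ Icc (-T) T) (volume : Measure (ℝ × ℝ)) :=
      hf.continuousOn.integrableOn_compact (isCompact_Icc.prod isCompact_Icc)
    rw [Measure.volume_eq_prod] at h2
    exact h2.mono_set (prod_mono Ioc_subset_Icc_self Ioc_subset_Icc_self)

lemma N_eq (h : Bx T φ) :
    N φ = I2 (fun p => φ p ^ 2 + dX φ p ^ 2 + dY φ p ^ 2) (-T) T (-T) T := by
  have h1 := h.cont
  have h2 := h.contX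
  have h3 := h.contY
  unfold N
  apply h.integral_eq (by fun_prop)
  intro p hp
  rw [h.zero p hp, h.zeroX p hp, h.zeroY p hp]; ring

/-- the energy bounds partial integrals over sub-boxes -/
lemma I2_le_N (h : Bx T φ) {f : ℝ × ℝ → ℝ} (hf : Continuous f) (h0 : ∀ p, 0 ≤ f p)
    (hle : ∀ p, f p ≤ φ p ^ 2 + dX φ p ^ 2 + dY φ p ^ 2) {a b c d : ℝ}
    (ha : -T ≤ a) (hab : a ≤ b) (hb : b ≤ T) (hc : -T ≤ c) (hcd : c ≤ d) (hd : d ≤ T) :
    I2 f a b c d ≤ N φ := by
  have h1 := h.cont
  have h2 := h.contX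
  have h3 := h.contY
  rw [h.N_eq]
  refine (I2_mono_box hf h0 ha hab hb hc hcd hd).trans ?_
  exact I2_mono hf (by fun_prop) (by linarith [h.pos]) (by linarith [h.pos]) fun x _ y _ => hle _

/-- slice sup bound -/
lemma slice (h : Bx T φ) {κ : ℝ} (hκ : 0 < κ) (x : ℝ) {y : ℝ} (hy : y ∈ Icc (-T) T) :
    φ (x, y) ^ 2 ≤ 1 / 2 * ∫ t in (-T)..T, (κ * φ (x, t) ^ 2 + κ⁻¹ * dY φ (x, t) ^ 2) := by
  have h3 := h.contY
  apply sup_bound (u := fun t => φ (x, t)) (u' := fun t => dY φ (x, t))
    (fun t => derivY h.smooth x t) (by fun_prop) hκ _ _ hy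
  · exact h.zero _ (Or.inr (by simp [abs_of_pos h.pos]))
  · exact h.zero _ (Or.inr (by simp [abs_of_pos h.pos]))

/-- trace bound on graphs -/
lemma trace (h : Bx T φ) {F : ℝ → ℝ} (hF : Continuous F) {a b : ℝ} (hab : a ≤ b)
    (hFT : ∀ x ∈ Icc a b, F x ∈ Icc (-T) T) :
    ∫ x in a..b, φ (x, F x) ^ 2
      ≤ 1 / 2 * I2 (fun p => φ p ^ 2 + dY φ p ^ 2) a b (-T) T := by
  have h1 := h.cont
  have h3 := h.contY
  unfold I2
  rw [← intervalIntegral.integral_const_mul]
  have hc : Continuous fun p : ℝ × ℝ => φ p ^ 2 + dY φ p ^ 2 := by fun_prop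
  have hc2 := cont_inner hc (-T) T
  apply integral_mono_on hab
  · apply Continuous.intervalIntegrable; fun_prop
  · apply Continuous.intervalIntegrable
    exact continuous_const.mul hc2
  · intro x hx
    have := h.slice (κ := 1) one_pos x (hFT x hx)
    simpa using this

/-- full trace bound -/
lemma trace_le_N (h : Bx T φ) {F : ℝ → ℝ} (hF : Continuous F) {a b : ℝ} (ha : -T ≤ a)
    (hab : a ≤ b) (hb : b ≤ T) (hFT : ∀ x ∈ Icc a b, F x ∈ Icc (-T) T) :
    ∫ x in a..b, φ (x, F x) ^ 2 ≤ 1 / 2 * N φ := by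
  have h1 := h.cont
  have h2 := h.contX
  have h3 := h.contY
  refine (h.trace hF hab hFT).trans ?_
  gcongr
  apply h.I2_le_N (by fun_prop) (fun p => by positivity) (fun p => by nlinarith [sq_nonneg (dX φ p)])
    ha hab hb le_rfl (by linarith [h.pos]) le_rfl

/-- closeness of the traces on two graphs -/
lemma close (h : Bx T φ) {F G : ℝ → ℝ} (hF : Continuous F) (hG : Continuous G) {a b : ℝ}
    (ha : -T ≤ a) (hab : a ≤ b) (hb : b ≤ T) (hFT : ∀ x ∈ Icc a b, F x ∈ Icc (-T) T)
    (hGT : ∀ x ∈ Icc a b, G x ∈ Icc (-T) T) {D θ : ℝ} (hθ : 0 < θ)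
    (hD : ∀ x ∈ Icc a b, |F x - G x| ≤ D) :
    |(∫ x in a..b, φ (x, F x) ^ 2) - ∫ x in a..b, φ (x, G x) ^ 2|
      ≤ (θ + θ⁻¹ * D / 2) * N φ := by
  have h1 := h.cont
  have h2 := h.contX
  have h3 := h.contY
  have hc : Continuous fun p : ℝ × ℝ => φ p ^ 2 + dY φ p ^ 2 := by fun_prop
  have hc2 := cont_inner hc (-T) T
  have hT := h.pos
  have hD0 : 0 ≤ D := (abs_nonneg _).trans (hD a ⟨le_rfl, hab⟩)
  -- pointwise bound
  have key : ∀ x ∈ Icc a b, |φ (x, F x) ^ 2 - φ (x, G x) ^ 2|
      ≤ (θ + θ⁻¹ * D / 2) * ∫ t in (-T)..T, (φ (x, t) ^ 2 + dY φ (x, t) ^ 2) := by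
    intro x hx
    set c := min (F x) (G x) with hcdef
    set d := max (F x) (G x) with hddef
    have hcd : c ≤ d := min_le_max
    have hdc : d - c ≤ D := by
      have := hD x hx
      rw [hcdef, hddef, max_sub_min_eq_abs]
      rw [abs_sub_comm]
      exact this
    have hcT : -T ≤ c := le_min (hFT x hx).1 (hGT x hx).1
    have hdT : d ≤ T := max_le (hFT x hx).2 (hGT x hx).2
    have ho := osc (u := fun t => φ (x, t)) (u' := fun t => dY φ (x, t))
      (fun t => derivY h.smooth x t) (by fun_prop) (c := c) (d := d) hθ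
      (y := F x) (z := G x) ⟨min_le_left _ _, le_max_left _ _⟩ ⟨min_le_right _ _, le_max_right _ _⟩
    refine ho.trans ?_
    set S := ∫ t in (-T)..T, (φ (x, t) ^ 2 + dY φ (x, t) ^ 2) with hS
    rw [intervalIntegral.integral_add (by apply Continuous.intervalIntegrable; fun_prop)
      (by apply Continuous.intervalIntegrable; fun_prop), intervalIntegral.integral_const_mul,
      intervalIntegral.integral_const_mul]
    have hS0 : 0 ≤ S := integral_nonneg (by linarith) fun t _ => by positivity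
    have b1 : ∫ t in c..d, φ (x, t) ^ 2 ≤ D * (1 / 2 * S) := by
      have hb : ∫ t in c..d, φ (x, t) ^ 2 ≤ ∫ t in c..d, (1 / 2 * S) := by
        apply integral_mono_on hcd
        · apply Continuous.intervalIntegrable; fun_prop
        · simp
        · intro t ht
          have := h.slice (κ := 1) one_pos x (y := t) ⟨hcT.trans ht.1, ht.2.trans hdT⟩
          simpa [hS] using this
      rw [intervalIntegral.integral_const, smul_eq_mul] at hb
      refine hb.trans ?_
      gcongr
    have b2 : ∫ t in c..d, dY φ (x, t) ^ 2 ≤ S := by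
      calc ∫ t in c..d, dY φ (x, t) ^ 2 ≤ ∫ t in (-T)..T, dY φ (x, t) ^ 2 := by
            apply integral_mono_interval hcT hcd hdT (Eventually.of_forall fun t => sq_nonneg _)
            apply Continuous.intervalIntegrable; fun_prop
        _ ≤ S := by
            apply integral_mono_on (by linarith)
            · apply Continuous.intervalIntegrable; fun_prop
            · apply Continuous.intervalIntegrable; fun_prop
            · intro t _; nlinarith [sq_nonneg (φ (x, t))]
    calc θ⁻¹ * (∫ t in c..d, φ (x, t) ^ 2) + θ * ∫ t in c..d, dY φ (x, t) ^ 2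
        ≤ θ⁻¹ * (D * (1 / 2 * S)) + θ * S := by gcongr
      _ = _ := by ring
  rw [← intervalIntegral.integral_sub (by apply Continuous.intervalIntegrable; fun_prop)
    (by apply Continuous.intervalIntegrable; fun_prop)]
  have hle : |∫ x in a..b, (φ (x, F x) ^ 2 - φ (x, G x) ^ 2)|
      ≤ ∫ x in a..b, (θ + θ⁻¹ * D / 2) * ∫ t in (-T)..T, (φ (x, t) ^ 2 + dY φ (x, t) ^ 2) := by
    refine (abs_integral_le_integral_abs hab).trans ?_
    apply integral_mono_on hab
    · apply Continuous.intervalIntegrable; fun_prop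
    · apply Continuous.intervalIntegrable
      exact continuous_const.mul hc2
    · exact key
  refine hle.trans ?_
  rw [intervalIntegral.integral_const_mul]
  have : ∫ x in a..b, ∫ t in (-T)..T, (φ (x, t) ^ 2 + dY φ (x, t) ^ 2)
      = I2 (fun p => φ p ^ 2 + dY φ p ^ 2) a b (-T) T := rfl
  rw [this]
  have hpos : 0 ≤ θ + θ⁻¹ * D / 2 := by positivity
  apply mul_le_mul_of_nonneg_left _ hpos
  exact h.I2_le_N (by fun_prop) (fun p => by positivity)
    (fun p => by nlinarith [sq_nonneg (dX φ p)]) ha hab hb le_rfl (by linarith [h.pos]) le_rfl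

end Bx

end Pool.Agent.Helper97.Leaky
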