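import Pool.Agent.Helper97.Leaky.Two

open MeasureTheory Filter Topology Set intervalIntegral

namespace Pool.Agent.Helper97.Leaky

/-- distance to the nearest integer -/
noncomputable def idist (t : ℝ) : ℝ := |t - round t|

lemma idist_nonneg (t : ℝ) : 0 ≤ idist t := abs_nonneg _

lemma idist_le_half (t : ℝ) : idist t ≤ 1 / 2 := abs_sub_round t

lemma idist_le (t : ℝ) (z : ℤ) : idist t ≤ |t - z| := round_le t z

lemma idist_lip (s t : ℝ) : |idist s - idist t| ≤ |s - t| := by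
  have h : ∀ a b : ℝ, idist a - idist b ≤ |a - b| := by
    intro a b
    have h1 := idist_le a (round b)
    have h2 : |a - round b| ≤ |a - b| + |b - round b| := abs_sub_le _ _ _
    unfold idist at *
    linarith
  rw [abs_le]
  constructor
  · have := h t s
    rw [abs_sub_comm] at this
    linarith
  · exact h s t

lemma idist_of_mem {t : ℝ} {n : ℤ} (h : |t - n| ≤ 1 / 2) : idist t = |t - n| := by
  apply le_antisymm (idist_le t n)
  by_cases hn : round t = n
  · unfold idist; rw [hn]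
  · have h1 : (1:ℝ) ≤ |(n:ℝ) - round t| := by
      have h2 : (1:ℤ) ≤ |n - round t| := Int.one_le_abs (sub_ne_zero.2 (Ne.symm hn))
      exact_mod_cast h2
    have h3 : |(n:ℝ) - round t| ≤ |(n:ℝ) - t| + |t - round t| := abs_sub_le _ _ _
    rw [abs_sub_comm (n:ℝ) t] at h3
    unfold idist
    linarith

lemma idist_neg (t : ℝ) : idist (-t) = idist t := by
  have h : |(-t) - ((-round t : ℤ) : ℝ)| = |t - round t| := by
    push_cast
    rw [← abs_neg]
    congr 1; ring
  rw [idist_of_mem (n := -round t) (by rw [h]; exact abs_sub_round t), h, idist]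

/-- clamp to `[-1/2, 1/2]` -/
noncomputable def clampH (x : ℝ) : ℝ := max (-(1 / 2)) (min (1 / 2) x)

lemma clampH_mem (x : ℝ) : clampH x ∈ Icc (-(1 / 2) : ℝ) (1 / 2) :=
  ⟨le_max_left _ _, max_le (by norm_num) (min_le_left _ _)⟩

lemma clampH_of_mem {x : ℝ} (h : x ∈ Icc (-(1 / 2) : ℝ) (1 / 2)) : clampH x = x := by
  unfold clampH
  rw [min_eq_right h.2, max_eq_right h.1]

lemma clampH_of_le {x : ℝ} (h : x ≤ -(1 / 2)) : clampH x = -(1 / 2) := by
  unfold clampH
  rw [max_eq_left]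
  exact (min_le_right _ _).trans h

lemma clampH_of_ge {x : ℝ} (h : 1 / 2 ≤ x) : clampH x = 1 / 2 := by
  unfold clampH
  rw [min_eq_left h, max_eq_right (by norm_num)]

lemma clampH_neg (x : ℝ) : clampH (-x) = - clampH x := by
  rcases le_total x (-(1 / 2)) with h | h
  · rw [clampH_of_le h, clampH_of_ge (by linarith)]; norm_num
  · rcases le_total x (1 / 2) with h' | h'
    · rw [clampH_of_mem ⟨h, h'⟩, clampH_of_mem ⟨by linarith, by linarith⟩]
    · rw [clampH_of_ge h', clampH_of_le (by linarith)]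

lemma continuous_clampH : Continuous clampH := by
  unfold clampH; fun_prop

lemma clampH_mono : Monotone clampH := by
  intro x y h
  unfold clampH
  gcongr

/-- the triangle wave -/
noncomputable def W (k : ℕ) (x : ℝ) : ℝ := 2 * idist (2 * k * clampH x)

lemma W_nonneg (k : ℕ) (x : ℝ) : 0 ≤ W k x := by
  have := idist_nonneg (2 * k * clampH x)
  unfold W; linarith

lemma W_le_one (k : ℕ) (x : ℝ) : W k x ≤ 1 := by
  have := idist_le_half (2 * k * clampH x)
  unfold W; linarith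

lemma W_lip (k : ℕ) (x y : ℝ) : |W k x - W k y| ≤ 4 * k * |clampH x - clampH y| := by
  have h := idist_lip (2 * k * clampH x) (2 * k * clampH y)
  have h1 : |2 * k * clampH x - 2 * k * clampH y| = 2 * k * |clampH x - clampH y| := by
    rw [← mul_sub, abs_mul, abs_of_nonneg (by positivity : (0:ℝ) ≤ 2 * k)]
  have h2 : |W k x - W k y| = 2 * |idist (2 * k * clampH x) - idist (2 * k * clampH y)| := by
    unfold W
    rw [← mul_sub, abs_mul]
    norm_num
  rw [h2]
  rw [h1] at h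
  linarith

lemma idist_continuous : Continuous idist := by
  have : LipschitzWith 1 idist := by
    apply LipschitzWith.of_dist_le_mul
    intro x y
    rw [Real.dist_eq, Real.dist_eq, NNReal.coe_one, one_mul]
    exact idist_lip x y
  exact this.continuous

lemma W_continuous (k : ℕ) : Continuous (W k) := by
  have h1 := idist_continuous
  have h2 := continuous_clampH
  unfold W
  fun_prop

lemma W_neg (k : ℕ) (x : ℝ) : W k (-x) = W k x := by
  unfold W
  rw [clampH_neg, mul_neg, idist_neg]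

lemma idist_intCast (n : ℤ) : idist n = 0 := by simp [idist]

lemma W_of_ge (k : ℕ) {x : ℝ} (h : 1 / 2 ≤ x) : W k x = 0 := by
  unfold W
  rw [clampH_of_ge h]
  have : (2 * k * (1 / 2) : ℝ) = ((k : ℤ) : ℝ) := by push_cast; ring
  rw [this, idist_intCast, mul_zero]

lemma W_of_le (k : ℕ) {x : ℝ} (h : x ≤ -(1 / 2)) : W k x = 0 := by
  rw [← W_neg]
  exact W_of_ge k (by linarith)

/-- the wave on an ascending piece -/
lemma W_even_piece {k : ℕ} (hk : 0 < k) {i : ℕ} {x : ℝ} (hi : 2 * i < 4 * k)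
    (hx : x ∈ Icc (-(1 / 2) + (2 * i : ℕ) / (4 * k : ℝ)) (-(1 / 2) + ((2 * i + 1 : ℕ) : ℝ) / (4 * k : ℝ))) :
    W k x = 4 * k * (x - (-(1 / 2) + (2 * i : ℕ) / (4 * k : ℝ))) := by
  have hk' : (0:ℝ) < k := by exact_mod_cast hk
  have hi' : (2 * i : ℝ) + 1 ≤ 4 * k := by exact_mod_cast hi
  obtain ⟨h1, h2⟩ := hx
  push_cast at h1 h2 ⊢
  have e1 : (-(1 / 2) + (2 * i) / (4 * k) : ℝ) * (4 * k) = - 2 * k + 2 * i := by field_simp; ring
  have e2 : (-(1 / 2) + (2 * i + 1) / (4 * k) : ℝ) * (4 * k) = - 2 * k + 2 * i + 1 := by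
    field_simp; ring
  have h1' : - 2 * k + 2 * i ≤ x * (4 * k) := by rw [← e1]; gcongr
  have h2' : x * (4 * k) ≤ - 2 * k + 2 * i + 1 := by rw [← e2]; gcongr
  have hxm : x ∈ Icc (-(1 / 2) : ℝ) (1 / 2) := by
    constructor
    · have : (0:ℝ) ≤ (2 * i) / (4 * k) := by positivity
      linarith
    · have h3 : x * (4 * k) ≤ (1 / 2) * (4 * k) := by linarith
      exact le_of_mul_le_mul_right h3 (by positivity)
  unfold W
  rw [clampH_of_mem hxm]
  have h4 : |2 * k * x - ((i - k : ℤ) : ℝ)| = 2 * k * x - ((i - k : ℤ) : ℝ) := by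
    apply abs_of_nonneg
    push_cast
    linarith
  rw [idist_of_mem (n := (i - k : ℤ)) (by rw [h4]; push_cast; linarith), h4]
  push_cast
  field_simp
  ring

/-- the wave on a descending piece -/
lemma W_odd_piece {k : ℕ} (hk : 0 < k) {i : ℕ} {x : ℝ} (hi : 2 * i + 1 < 4 * k)
    (hx : x ∈ Icc (-(1 / 2) + (2 * i + 1 : ℕ) / (4 * k : ℝ)) (-(1 / 2) + ((2 * i + 1 + 1 : ℕ) : ℝ) / (4 * k : ℝ))) :
    W k x = 4 * k * (-(1 / 2) + ((2 * i + 1 + 1 : ℕ) : ℝ) / (4 * k : ℝ) - x) := by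
  have hk' : (0:ℝ) < k := by exact_mod_cast hk
  have hi' : (2 * i : ℝ) + 1 + 1 ≤ 4 * k := by exact_mod_cast hi
  obtain ⟨h1, h2⟩ := hx
  push_cast at h1 h2 ⊢
  have e1 : (-(1 / 2) + (2 * i + 1) / (4 * k) : ℝ) * (4 * k) = - 2 * k + 2 * i + 1 := by
    field_simp; ring
  have e2 : (-(1 / 2) + (2 * i + 1 + 1) / (4 * k) : ℝ) * (4 * k) = - 2 * k + 2 * i + 2 := by
    field_simp; ring
  have h1' : - 2 * k + 2 * i + 1 ≤ x * (4 * k) := by rw [← e1]; gcongr
  have h2' : x * (4 * k) ≤ - 2 * k + 2 * i + 2 := by rw [← e2]; gcongr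
  have hxm : x ∈ Icc (-(1 / 2) : ℝ) (1 / 2) := by
    constructor
    · have : (0:ℝ) ≤ (2 * i + 1) / (4 * k) := by positivity
      linarith
    · have h3 : x * (4 * k) ≤ (1 / 2) * (4 * k) := by linarith
      exact le_of_mul_le_mul_right h3 (by positivity)
  unfold W
  rw [clampH_of_mem hxm]
  have h4 : |2 * k * x - ((i + 1 - k : ℤ) : ℝ)| = ((i + 1 - k : ℤ) : ℝ) - 2 * k * x := by
    rw [abs_sub_comm]
    apply abs_of_nonneg
    push_cast
    linarith
  rw [idist_of_mem (n := (i + 1 - k : ℤ)) (by rw [h4]; push_cast; linarith), h4]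
  push_cast
  field_simp
  ring

namespace Bx

variable {φ : ℝ × ℝ → ℝ} {T : ℝ}

/-- comparison of a transversal with the average over a thin rectangle -/
lemma transversal (h : Bx T φ) {x0 δ η : ℝ} (hδ : 0 ≤ δ) (hη : 0 ≤ η) {ξ : ℝ → ℝ}
    (hξ : Continuous ξ) (hm : ∀ y ∈ Icc 0 η, ξ y ∈ Icc x0 (x0 + δ)) :
    |δ * (∫ y in (0:ℝ)..η, φ (ξ y, y) ^ 2) - I2 (fun p => φ p ^ 2) x0 (x0 + δ) 0 η|
      ≤ δ * I2 (fun p => φ p ^ 2 + dX φ p ^ 2) x0 (x0 + δ) 0 η := by
  have h1 := h.cont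
  have h2 := h.contX
  have hc1 : Continuous fun p : ℝ × ℝ => φ p ^ 2 := by fun_prop
  have hc2 : Continuous fun p : ℝ × ℝ => φ p ^ 2 + dX φ p ^ 2 := by fun_prop
  rw [I2_swap hc1, I2_swap hc2, ← intervalIntegral.integral_const_mul,
    ← intervalIntegral.integral_sub (by apply Continuous.intervalIntegrable; fun_prop)
      ((cont_inner' hc1 _ _).intervalIntegrable _ _), ← intervalIntegral.integral_const_mul]
  refine (abs_integral_le_integral_abs hη).trans ?_
  apply integral_mono_on hη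
  · apply Continuous.intervalIntegrable
    exact (Continuous.sub (by fun_prop) (cont_inner' hc1 _ _)).abs
  · apply Continuous.intervalIntegrable
    exact continuous_const.mul (cont_inner' hc2 _ _)
  · intro y hy
    have := avg_bound (u := fun t => φ (t, y)) (u' := fun t => dX φ (t, y))
      (fun t => derivX h.smooth t y) (by fun_prop) (c := x0) (d := x0 + δ) (t := 1)
      (by linarith) one_pos (hm y hy)
    simpa using this

/-- the homogenisation estimate on one piece, general form -/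
lemma piece_aux (h : Bx T φ) {x0 δ η A : ℝ} (hδ : 0 ≤ δ) (hη : 0 < η) {ξ : ℝ → ℝ}
    (hξ : Continuous ξ) (hm : ∀ y ∈ Icc 0 η, ξ y ∈ Icc x0 (x0 + δ))
    (hA : A = δ / η * ∫ y in (0:ℝ)..η, φ (ξ y, y) ^ 2) :
    |A - 1 / η * I2 (fun p => φ p ^ 2) x0 (x0 + δ) 0 η|
      ≤ δ / η * I2 (fun p => φ p ^ 2 + dX φ p ^ 2) x0 (x0 + δ) 0 η := by
  have h1 := h.transversal hδ hη.le hξ hm
  have h2 : A - 1 / η * I2 (fun p => φ p ^ 2) x0 (x0 + δ) 0 η
      = 1 / η * (δ * (∫ y in (0:ℝ)..η, φ (ξ y, y) ^ 2)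
        - I2 (fun p => φ p ^ 2) x0 (x0 + δ) 0 η) := by
    rw [hA]; ring
  rw [h2, abs_mul, abs_of_pos (by positivity : (0:ℝ) < 1 / η)]
  calc 1 / η * |_| ≤ 1 / η * (δ * I2 (fun p => φ p ^ 2 + dX φ p ^ 2) x0 (x0 + δ) 0 η) := by
        gcongr
    _ = _ := by ring

lemma piece_asc (h : Bx T φ) {x0 δ η : ℝ} (hδ : 0 < δ) (hη : 0 < η) :
    |(∫ x in x0..(x0 + δ), φ (x, η * ((x - x0) / δ)) ^ 2)
        - 1 / η * I2 (fun p => φ p ^ 2) x0 (x0 + δ) 0 η|
      ≤ δ / η * I2 (fun p => φ p ^ 2 + dX φ p ^ 2) x0 (x0 + δ) 0 η := by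
  apply h.piece_aux hδ.le hη (ξ := fun y => x0 + δ * (y / η)) (by fun_prop)
  · intro y hy
    have h1 : 0 ≤ y / η := div_nonneg hy.1 hη.le
    have h2 : y / η ≤ 1 := (div_le_one hη).2 hy.2
    constructor <;> nlinarith
  · have h1 := integral_comp_mul_sub (a := x0) (b := x0 + δ)
      (fun y => φ (x0 + δ * (y / η), y) ^ 2) (c := η / δ) (by positivity) (η / δ * x0)
    have e1 : η / δ * x0 - η / δ * x0 = 0 := by ring
    have e2 : η / δ * (x0 + δ) - η / δ * x0 = η := by field_simp; ring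
    rw [e1, e2, smul_eq_mul, inv_div] at h1
    rw [← h1]
    congr 1
    ext x
    congr 3
    · field_simp; ring
    · field_simp

lemma piece_desc (h : Bx T φ) {x0 δ η : ℝ} (hδ : 0 < δ) (hη : 0 < η) :
    |(∫ x in x0..(x0 + δ), φ (x, η * ((x0 + δ - x) / δ)) ^ 2)
        - 1 / η * I2 (fun p => φ p ^ 2) x0 (x0 + δ) 0 η|
      ≤ δ / η * I2 (fun p => φ p ^ 2 + dX φ p ^ 2) x0 (x0 + δ) 0 η := by
  apply h.piece_aux hδ.le hη (ξ := fun y => x0 + δ - δ * (y / η)) (by fun_prop)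
  · intro y hy
    have h1 : 0 ≤ y / η := div_nonneg hy.1 hη.le
    have h2 : y / η ≤ 1 := (div_le_one hη).2 hy.2
    constructor <;> nlinarith
  · have h1 := integral_comp_sub_mul (a := x0) (b := x0 + δ)
      (fun y => φ (x0 + δ - δ * (y / η), y) ^ 2) (c := η / δ) (by positivity) (η / δ * (x0 + δ))
    have e1 : η / δ * (x0 + δ) - η / δ * (x0 + δ) = 0 := by ring
    have e2 : η / δ * (x0 + δ) - η / δ * x0 = η := by field_simp; ring
    rw [e1, e2, smul_eq_mul, inv_div] at h1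
    rw [← h1]
    congr 1
    ext x
    congr 3
    · field_simp; ring
    · field_simp

/-- **Homogenisation**: trace form on the zigzag versus the averaged potential on the box -/
lemma homog (h : Bx T φ) {k : ℕ} (hk : 0 < k) {η : ℝ} (hη : 0 < η) (hT : 1 / 2 ≤ T)
    (hηT : η ≤ T) :
    |(∫ x in (-(1 / 2) : ℝ)..(1 / 2), φ (x, η * W k x) ^ 2)
        - 1 / η * I2 (fun p => φ p ^ 2) (-(1 / 2)) (1 / 2) 0 η| ≤ 1 / (4 * k * η) * N φ := by
  have h1 := h.cont
  have h2 := h.contX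
  have h3 := h.contY
  have hW := W_continuous k
  have hk' : (0:ℝ) < k := by exact_mod_cast hk
  set δ : ℝ := 1 / (4 * k) with hδ
  have hδ0 : 0 < δ := by positivity
  set a : ℕ → ℝ := fun j => -(1 / 2) + (j:ℝ) / (4 * k) with ha
  have ha1 : ∀ j, a (j + 1) = a j + δ := by
    intro j; simp only [ha, hδ]; push_cast; ring
  have ha0 : a 0 = -(1 / 2) := by simp [ha]
  have haN : a (4 * k) = 1 / 2 := by
    simp only [ha]; push_cast; field_simp; norm_num
  have hc1 : Continuous fun p : ℝ × ℝ => φ p ^ 2 := by fun_prop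
  have hc2 : Continuous fun p : ℝ × ℝ => φ p ^ 2 + dX φ p ^ 2 := by fun_prop
  -- decompositions
  have d1 : ∫ x in (-(1 / 2) : ℝ)..(1 / 2), φ (x, η * W k x) ^ 2
      = ∑ j ∈ Finset.range (4 * k), ∫ x in a j..a (j + 1), φ (x, η * W k x) ^ 2 := by
    rw [sum_integral_adjacent_intervals (fun j _ => by apply Continuous.intervalIntegrable; fun_prop),
      ha0, haN]
  have d2 : I2 (fun p => φ p ^ 2) (-(1 / 2)) (1 / 2) 0 η
      = ∑ j ∈ Finset.range (4 * k), I2 (fun p => φ p ^ 2) (a j) (a (j + 1)) 0 η := by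
    unfold I2
    rw [sum_integral_adjacent_intervals (fun j _ => (cont_inner hc1 _ _).intervalIntegrable _ _),
      ha0, haN]
  have d3 : I2 (fun p => φ p ^ 2 + dX φ p ^ 2) (-(1 / 2)) (1 / 2) 0 η
      = ∑ j ∈ Finset.range (4 * k), I2 (fun p => φ p ^ 2 + dX φ p ^ 2) (a j) (a (j + 1)) 0 η := by
    unfold I2
    rw [sum_integral_adjacent_intervals (fun j _ => (cont_inner hc2 _ _).intervalIntegrable _ _),
      ha0, haN]
  have hpiece : ∀ j ∈ Finset.range (4 * k),
      |(∫ x in a j..a (j + 1), φ (x, η * W k x) ^ 2)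
        - 1 / η * I2 (fun p => φ p ^ 2) (a j) (a (j + 1)) 0 η|
      ≤ δ / η * I2 (fun p => φ p ^ 2 + dX φ p ^ 2) (a j) (a (j + 1)) 0 η := by
    intro j hj
    rw [Finset.mem_range] at hj
    have hle : a j ≤ a (j + 1) := by rw [ha1]; linarith
    rcases Nat.even_or_odd' j with ⟨i, rfl | rfl⟩
    · have e : ∫ x in a (2 * i)..a (2 * i + 1), φ (x, η * W k x) ^ 2
          = ∫ x in a (2 * i)..a (2 * i + 1), φ (x, η * ((x - a (2 * i)) / δ)) ^ 2 := by
        apply integral_congr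
        intro x hx
        rw [uIcc_of_le hle] at hx
        have hw := W_even_piece hk (i := i) (x := x) hj hx
        simp only
        rw [hw]
        congr 3
        simp only [ha, hδ]
        field_simp
      rw [e, ha1]
      exact h.piece_asc hδ0 hη
    · have e : ∫ x in a (2 * i + 1)..a (2 * i + 1 + 1), φ (x, η * W k x) ^ 2
          = ∫ x in a (2 * i + 1)..a (2 * i + 1 + 1),
              φ (x, η * ((a (2 * i + 1) + δ - x) / δ)) ^ 2 := by
        apply integral_congr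
        intro x hx
        rw [uIcc_of_le hle] at hx
        have hw := W_odd_piece hk (i := i) (x := x) hj hx
        simp only
        rw [hw, ← ha1]
        congr 3
        simp only [ha, hδ]
        field_simp
      rw [e, ha1 (2 * i + 1)]
      exact h.piece_desc hδ0 hη
  have hE : I2 (fun p => φ p ^ 2 + dX φ p ^ 2) (-(1 / 2)) (1 / 2) 0 η ≤ N φ := by
    apply h.I2_le_N (by fun_prop) (fun p => by positivity)
      (fun p => by nlinarith [sq_nonneg (dY φ p)]) <;> linarith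
  rw [d1, d2, Finset.mul_sum, ← Finset.sum_sub_distrib]
  calc |∑ j ∈ Finset.range (4 * k), ((∫ x in a j..a (j + 1), φ (x, η * W k x) ^ 2)
        - 1 / η * I2 (fun p => φ p ^ 2) (a j) (a (j + 1)) 0 η)|
      ≤ ∑ j ∈ Finset.range (4 * k), |(∫ x in a j..a (j + 1), φ (x, η * W k x) ^ 2)
        - 1 / η * I2 (fun p => φ p ^ 2) (a j) (a (j + 1)) 0 η| := Finset.abs_sum_le_sum_abs _ _
    _ ≤ ∑ j ∈ Finset.range (4 * k),
          δ / η * I2 (fun p => φ p ^ 2 + dX φ p ^ 2) (a j) (a (j + 1)) 0 η :=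
        Finset.sum_le_sum hpiece
    _ = δ / η * I2 (fun p => φ p ^ 2 + dX φ p ^ 2) (-(1 / 2)) (1 / 2) 0 η := by
        rw [d3, Finset.mul_sum]
    _ ≤ δ / η * N φ := by gcongr
    _ = 1 / (4 * k * η) * N φ := by rw [hδ]; field_simp

end Bx

end Pool.Agent.Helper97.Leaky
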